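import Mathlib

set_option autoImplicit false

namespace Pool.Agent.Helper805.CHS

/-- `G` has a model of `K₅` -/
def K5Model {V : Type} (G : SimpleGraph V) : Prop :=
  ∃ f : Fin 5 → Set V, (∀ i, (G.induce (f i)).Connected) ∧
    (∀ i j, i ≠ j → Disjoint (f i) (f j)) ∧
    (∀ i j, i ≠ j → ∃ a ∈ f i, ∃ b ∈ f j, G.Adj a b)

/-- `G` has a model of `K₃,₃` -/
def K33Model {V : Type} (G : SimpleGraph V) : Prop :=
  ∃ f g : Fin 3 → Set V, (∀ i, (G.induce (f i)).Connected) ∧ (∀ i, (G.induce (g i)).Connected) ∧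
    (∀ i j, i ≠ j → Disjoint (f i) (f j)) ∧ (∀ i j, i ≠ j → Disjoint (g i) (g j)) ∧
    (∀ i j, Disjoint (f i) (g j)) ∧
    (∀ i j, ∃ a ∈ f i, ∃ b ∈ g j, G.Adj a b)

end Pool.Agent.Helper805.CHS
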