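import Mathlib

set_option linter.all false

namespace Pool.Agent.Helper805.CHS

open Finset Classical


section Prob

variable {T C : Type} [Fintype T] [Fintype C]

/-- averaging one coordinate -/
theorem sum_update (i : T) (f : (T → C) → ℝ) :
    ∑ ω : T → C, ∑ c : C, f (Function.update ω i c) = (Fintype.card C : ℝ) * ∑ ω : T → C, f ω := by
  have h : ∑ ω : T → C, ∑ c : C, f (Function.update ω i c) =
      ∑ q : (T → C) × C, f (Function.update q.1 i q.2) := by
    rw [Fintype.sum_prod_type]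
  have h2 : ∑ q : (T → C) × C, f (Function.update q.1 i q.2) = ∑ q : (T → C) × C, f q.1 := by
    refine Finset.sum_bij' (fun q _ => (Function.update q.1 i q.2, q.1 i))
      (fun q _ => (Function.update q.1 i q.2, q.1 i)) ?_ ?_ ?_ ?_ ?_
    · intro a _; exact Finset.mem_univ _
    · intro a _; exact Finset.mem_univ _
    · rintro ⟨ω, c⟩ _
      simp
    · rintro ⟨ω, c⟩ _
      simp
    · rintro ⟨ω, c⟩ _
      rfl
  rw [h, h2, Fintype.sum_prod_type]
  simp only [Finset.sum_const, Finset.card_univ, nsmul_eq_mul]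
  rw [← Finset.mul_sum]

/-- ordered product bound -/
theorem prod_le (ρ : T → ℕ) (F : T → (T → C) → ℝ) :
    ∀ (n : ℕ) (I : Finset T), I.card = n → (∀ i ∈ I, ∀ ω, 0 ≤ F i ω) →
    (∀ i ∈ I, ∀ ω ω' : T → C, (∀ j, j = i ∨ ρ i < ρ j → ω j = ω' j) → F i ω = F i ω') →
    (∀ i ∈ I, ∀ ω : T → C, ∑ c : C, F i (Function.update ω i c) ≤ Fintype.card C) →
    0 < Fintype.card C →
    ∑ ω : T → C, ∏ i ∈ I, F i ω ≤ Fintype.card (T → C) := by
  intro n
  induction n with
  | zero =>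
    intro I hI _ _ _ _
    rw [Finset.card_eq_zero] at hI
    subst hI
    simp
  | succ n ih =>
    intro I hI h0 hdep havg hC
    obtain ⟨i, hi, hmin⟩ := Finset.exists_min_image I ρ (Finset.card_pos.mp (by omega))
    have hcard : (I.erase i).card = n := by rw [Finset.card_erase_of_mem hi, hI]; rfl
    have ih' := ih (I.erase i) hcard (fun j hj => h0 j (Finset.mem_of_mem_erase hj))
      (fun j hj => hdep j (Finset.mem_of_mem_erase hj))
      (fun j hj => havg j (Finset.mem_of_mem_erase hj)) hC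
    refine le_trans ?_ ih'
    have hCr : (0 : ℝ) < Fintype.card C := by exact_mod_cast hC
    have e1 := sum_update i (fun ω => ∏ j ∈ I, F j ω)
    have e2 : ∀ ω : T → C, ∑ c : C, ∏ j ∈ I, F j (Function.update ω i c) ≤
        (Fintype.card C : ℝ) * ∏ j ∈ I.erase i, F j ω := by
      intro ω
      have e3 : ∀ c : C, ∏ j ∈ I, F j (Function.update ω i c) =
          (∏ j ∈ I.erase i, F j ω) * F i (Function.update ω i c) := by
        intro c
        rw [← Finset.prod_erase_mul I _ hi]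
        congr 1
        refine Finset.prod_congr rfl (fun j hj => ?_)
        apply hdep j (Finset.mem_of_mem_erase hj)
        intro t ht
        have hji : j ≠ i := Finset.ne_of_mem_erase hj
        have hti : t ≠ i := by
          rintro rfl
          rcases ht with h | h
          · exact hji h.symm
          · exact absurd (hmin j (Finset.mem_of_mem_erase hj)) (not_le.mpr h)
        rw [Function.update_of_ne hti]
      simp only [e3]
      rw [← Finset.mul_sum, mul_comm]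
      refine mul_le_mul_of_nonneg_right (havg i hi ω) ?_
      exact Finset.prod_nonneg (fun j hj => h0 j (Finset.mem_of_mem_erase hj) ω)
    have e4 := Finset.sum_le_sum (fun ω (_ : ω ∈ (Finset.univ : Finset (T → C))) => e2 ω)
    rw [e1, ← Finset.mul_sum] at e4
    exact le_of_mul_le_mul_left e4 hCr

/-- Markov -/
theorem markov (f : (T → C) → ℝ) (h0 : ∀ ω, 0 ≤ f ω) (M a : ℝ) (ha : 0 < a)
    (hM : ∑ ω : T → C, f ω ≤ M) (P : (T → C) → Prop) (hP : ∀ ω, P ω → a ≤ f ω) :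
    (((Finset.univ.filter P).card : ℕ) : ℝ) ≤ M / a := by
  rw [le_div_iff₀ ha]
  calc (((Finset.univ.filter P).card : ℕ) : ℝ) * a = ∑ ω ∈ Finset.univ.filter P, a := by
        rw [Finset.sum_const, nsmul_eq_mul]
    _ ≤ ∑ ω ∈ Finset.univ.filter P, f ω :=
        Finset.sum_le_sum (fun ω hω => hP ω (Finset.mem_filter.mp hω).2)
    _ ≤ ∑ ω : T → C, f ω :=
        Finset.sum_le_sum_of_subset_of_nonneg (Finset.filter_subset _ _) (fun ω _ _ => h0 ω)
    _ ≤ M := hM

/-- exponential moment of a sign -/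
theorem sign_mgf (X : C → ℝ) (hX : ∀ c, X c = 1 ∨ X c = -1) (y μ : ℝ) (hy0 : 0 ≤ y) (hy1 : y ≤ 1)
    (hC : 0 < Fintype.card C) (hμ : ∑ c, X c = μ * Fintype.card C) :
    ∑ c, Real.exp (-(y * X c) + y * μ - 2 * y ^ 2) ≤ Fintype.card C := by
  have hCr : (0 : ℝ) < Fintype.card C := by exact_mod_cast hC
  have hμ1 : |μ| ≤ 1 := by
    have h1 : |∑ c, X c| ≤ Fintype.card C := by
      refine (Finset.abs_sum_le_sum_abs _ _).trans ?_
      have : ∀ c ∈ (Finset.univ : Finset C), |X c| ≤ 1 := by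
        intro c _
        rcases hX c with h | h <;> rw [h] <;> simp
      refine (Finset.sum_le_sum this).trans ?_
      simp
    rw [hμ, abs_mul, abs_of_pos hCr] at h1
    nlinarith
  have hexp : ∀ c, Real.exp (-(y * X c) + y * μ - 2 * y ^ 2) =
      (Real.cosh y - X c * Real.sinh y) * Real.exp (y * μ - 2 * y ^ 2) := by
    intro c
    rw [show -(y * X c) + y * μ - 2 * y ^ 2 = -(y * X c) + (y * μ - 2 * y ^ 2) by ring, Real.exp_add]
    congr 1
    rcases hX c with h | h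
    · rw [h, mul_one, one_mul, Real.cosh_sub_sinh]
    · rw [h]
      have := Real.cosh_add_sinh y
      rw [show -(y * -1) = y by ring]
      linarith
  simp only [hexp]
  rw [← Finset.sum_mul]
  have hs : ∑ c, (Real.cosh y - X c * Real.sinh y) =
      Fintype.card C * (Real.cosh y - μ * Real.sinh y) := by
    rw [Finset.sum_sub_distrib, ← Finset.sum_mul, hμ]
    simp only [Finset.sum_const, Finset.card_univ, nsmul_eq_mul]
    ring
  rw [hs]
  -- bounds for cosh and sinh on [0,1]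
  have hexpy : Real.exp y ≤ 1 + y + y ^ 2 := by
    have := Real.abs_exp_sub_one_sub_id_le (x := y) (by rw [abs_of_nonneg hy0]; exact hy1)
    have h2 := (abs_le.mp this).2
    linarith
  have hexpn : Real.exp (-y) ≤ 1 - y + y ^ 2 := by
    have := Real.abs_exp_sub_one_sub_id_le (x := -y) (by rw [abs_neg, abs_of_nonneg hy0]; exact hy1)
    have h2 := (abs_le.mp this).2
    nlinarith
  have hexpn' : 1 - y ≤ Real.exp (-y) := by
    have := Real.add_one_le_exp (-y)
    linarith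
  have hcosh : Real.cosh y ≤ 1 + y ^ 2 := by
    rw [Real.cosh_eq]
    linarith
  have hsinh : Real.sinh y ≤ y + y ^ 2 := by
    rw [Real.sinh_eq]
    nlinarith
  have hsinh' : y ≤ Real.sinh y := by
    exact Real.self_le_sinh_iff.mpr hy0
  have key : Real.cosh y - μ * Real.sinh y ≤ 1 + (2 * y ^ 2 - y * μ) := by
    rcases le_or_gt 0 μ with h | h
    · have : μ * y ≤ μ * Real.sinh y := mul_le_mul_of_nonneg_left hsinh' h
      nlinarith
    · have h1 := (abs_le.mp hμ1).1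
      have : -μ * Real.sinh y ≤ -μ * (y + y ^ 2) := mul_le_mul_of_nonneg_left hsinh (by linarith)
      nlinarith [sq_nonneg y]
  have key2 : Real.cosh y - μ * Real.sinh y ≤ Real.exp (2 * y ^ 2 - y * μ) := by
    have := Real.add_one_le_exp (2 * y ^ 2 - y * μ)
    linarith
  have : (Real.cosh y - μ * Real.sinh y) * Real.exp (y * μ - 2 * y ^ 2) ≤ 1 := by
    calc (Real.cosh y - μ * Real.sinh y) * Real.exp (y * μ - 2 * y ^ 2)
        ≤ Real.exp (2 * y ^ 2 - y * μ) * Real.exp (y * μ - 2 * y ^ 2) :=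
          mul_le_mul_of_nonneg_right key2 (Real.exp_pos _).le
      _ = 1 := by rw [← Real.exp_add]; simp
  nlinarith

end Prob



section Lay

variable {V : Type} [Fintype V]

/-- vertices of `B` of rank at least `m` adjacent to the cluster of `x` -/
noncomputable def tops (G : SimpleGraph V) (B : Finset V) (ρ : V → ℕ) (p : V → V) (m : ℕ) (x : V) :
    Finset V :=
  B.filter (fun y => m ≤ ρ y ∧ (G.Adj x y ∨ G.Adj (p x) y))

/-- `x` is a good neighbour of `v` -/
def Good (G : SimpleGraph V) (B : Finset V) (ρ : V → ℕ) (p : V → V) (v x : V) : Prop :=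
  ρ x < ρ v ∧ ρ (p x) < ρ v ∧ (tops G B ρ p (ρ v) x).card ≤ 2

/-- the clusters joining `v` and `z` -/
noncomputable def bond (G : SimpleGraph V) (B : Finset V) (ρ : V → ℕ) (p : V → V) (v z : V) :
    Finset V :=
  Finset.univ.filter (fun r => ρ r < ρ v ∧ ρ (p r) ≤ ρ r ∧ tops G B ρ p (ρ v) r = {v, z})

/-- the combinatorial structure -/
structure Layout (G : SimpleGraph V) (B : Finset V) (c₀ s : ℕ) (ρ : V → ℕ) (p : V → V) : Prop where
  ρ_zero : ∀ x, x ∉ B → ρ x = 0
  ρ_pos : ∀ x ∈ B, 0 < ρ x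
  ρ_inj : ∀ x ∈ B, ∀ y ∈ B, ρ x = ρ y → x = y
  p_out : ∀ x, x ∉ B → p x = x
  p_invol : ∀ x, p (p x) = x
  bad : ∀ v ∈ B, (Finset.univ.filter (fun x => G.Adj v x ∧ ¬ Good G B ρ p v x)).card ≤ c₀
  P1 : ∀ v ∈ B, ∀ z ∈ B, ρ v < ρ z → s ≤ (bond G B ρ p v z).card → p v ≠ v ∨ p z ≠ z
  P2 : ∀ v ∈ B, ρ v < ρ (p v) → s ≤ (bond G B ρ p v (p v)).card

variable {G : SimpleGraph V} {B : Finset V} {c₀ s : ℕ} {ρ : V → ℕ} {p : V → V}

/-- representative of the cluster -/
noncomputable def rep (ρ : V → ℕ) (p : V → V) (x : V) : V := if ρ (p x) ≤ ρ x then x else p x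

/-- masters of a cluster -/
noncomputable def Y (G : SimpleGraph V) (B : Finset V) (ρ : V → ℕ) (p : V → V) (r : V) : Finset V :=
  B.filter (fun y => ρ r < ρ y ∧ ρ (p r) < ρ y ∧ (G.Adj r y ∨ G.Adj (p r) y))

structure Mas (G : SimpleGraph V) (B : Finset V) (ρ : V → ℕ) (p : V → V) (r m₁ m₂ : V) : Prop where
  h1 : m₁ ∈ Y G B ρ p r
  h2 : m₂ ∈ Y G B ρ p r
  h3 : ρ m₂ ≤ ρ m₁
  h4 : ∀ y ∈ Y G B ρ p r, ρ m₂ ≤ ρ y → y = m₁ ∨ y = m₂
  h5 : m₁ = m₂ → ∀ y ∈ Y G B ρ p r, y = m₁

theorem exists_masters (L : Layout G B c₀ s ρ p) : ∃ m₁ m₂ : V → V, ∀ r,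
    (Y G B ρ p r).Nonempty → Mas G B ρ p r (m₁ r) (m₂ r) := by
  have h : ∀ r, ∃ a b : V, (Y G B ρ p r).Nonempty → Mas G B ρ p r a b := by
    intro r
    by_cases hY : (Y G B ρ p r).Nonempty
    · obtain ⟨a, ha, hamax⟩ := Finset.exists_max_image _ ρ hY
      by_cases hY2 : ((Y G B ρ p r).erase a).Nonempty
      · obtain ⟨b, hb, hbmax⟩ := Finset.exists_max_image _ ρ hY2
        refine ⟨a, b, fun _ => ⟨ha, Finset.mem_of_mem_erase hb,
          hamax b (Finset.mem_of_mem_erase hb), ?_, ?_⟩⟩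
        · intro y hy hby
          by_cases hya : y = a
          · exact Or.inl hya
          · right
            have h1 := hbmax y (Finset.mem_erase.mpr ⟨hya, hy⟩)
            exact L.ρ_inj y (Finset.mem_filter.mp hy).1 b
              (Finset.mem_filter.mp (Finset.mem_of_mem_erase hb)).1 (le_antisymm h1 hby)
        · intro hab
          exact absurd hab.symm (Finset.ne_of_mem_erase hb)
      · refine ⟨a, a, fun _ => ⟨ha, ha, le_rfl, ?_, ?_⟩⟩
        · intro y hy _
          left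
          by_contra hya
          exact hY2 ⟨y, Finset.mem_erase.mpr ⟨hya, hy⟩⟩
        · intro _ y hy
          by_contra hya
          exact hY2 ⟨y, Finset.mem_erase.mpr ⟨hya, hy⟩⟩
    · exact ⟨r, r, fun h => absurd h hY⟩
  choose m₁ m₂ hm using h
  exact ⟨m₁, m₂, hm⟩

theorem mem_Y {r y : V} : y ∈ Y G B ρ p r ↔
    y ∈ B ∧ ρ r < ρ y ∧ ρ (p r) < ρ y ∧ (G.Adj r y ∨ G.Adj (p r) y) := by
  simp [Y]

theorem mem_tops {m : ℕ} {x y : V} : y ∈ tops G B ρ p m x ↔
    y ∈ B ∧ m ≤ ρ y ∧ (G.Adj x y ∨ G.Adj (p x) y) := by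
  simp [tops]

theorem tops_p (L : Layout G B c₀ s ρ p) (m : ℕ) (x : V) :
    tops G B ρ p m (p x) = tops G B ρ p m x := by
  ext y
  rw [mem_tops, mem_tops, L.p_invol]
  tauto

theorem rep_or (x : V) : rep ρ p x = x ∨ rep ρ p x = p x := by
  unfold rep
  split_ifs
  · exact Or.inl rfl
  · exact Or.inr rfl

theorem rep_rank (L : Layout G B c₀ s ρ p) (x : V) : ρ (p (rep ρ p x)) ≤ ρ (rep ρ p x) := by
  unfold rep
  split_ifs with h
  · exact h
  · rw [L.p_invol]; exact (not_le.mp h).le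

theorem le_rep (x : V) : ρ x ≤ ρ (rep ρ p x) := by
  unfold rep
  split_ifs with h
  · exact le_rfl
  · exact (not_le.mp h).le

theorem p_mem (L : Layout G B c₀ s ρ p) {x : V} (hx : x ∈ B) : p x ∈ B := by
  by_contra h
  have := L.p_out _ h
  rw [L.p_invol] at this
  exact h (this ▸ hx)

theorem rep_p (L : Layout G B c₀ s ρ p) (x : V) : rep ρ p (p x) = rep ρ p x := by
  by_cases hx : x ∈ B
  · unfold rep
    rw [L.p_invol]
    rcases lt_trichotomy (ρ (p x)) (ρ x) with h | h | h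
    · rw [if_neg (not_le.mpr h), if_pos h.le]
    · have := L.ρ_inj _ (p_mem L hx) _ hx h
      rw [if_pos h.ge, if_pos h.le, this]
    · rw [if_pos h.le, if_neg (not_le.mpr h)]
  · rw [L.p_out x hx]

theorem rep_of_rank (L : Layout G B c₀ s ρ p) {r : V} (h : ρ (p r) ≤ ρ r) : rep ρ p r = r := by
  unfold rep; rw [if_pos h]

theorem Y_rep (L : Layout G B c₀ s ρ p) (x : V) : Y G B ρ p (rep ρ p x) = Y G B ρ p x := by
  ext y
  rw [mem_Y, mem_Y]
  rcases rep_or (ρ := ρ) (p := p) x with h | h <;> rw [h]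
  rw [L.p_invol]
  tauto

/-- a vertex is one of the masters of the clusters of its good neighbours -/
theorem good_master (L : Layout G B c₀ s ρ p) {m₁ m₂ : V → V}
    (hm : ∀ r, (Y G B ρ p r).Nonempty → Mas G B ρ p r (m₁ r) (m₂ r)) {v x : V} (hv : v ∈ B)
    (hvx : G.Adj v x) (hg : Good G B ρ p v x) :
    v ∈ Y G B ρ p (rep ρ p x) ∧ (v = m₁ (rep ρ p x) ∨ v = m₂ (rep ρ p x)) := by
  obtain ⟨h1, h2, h3⟩ := hg
  have hvY : v ∈ Y G B ρ p (rep ρ p x) := by
    rw [Y_rep L, mem_Y]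
    exact ⟨hv, h1, h2, Or.inl hvx.symm⟩
  refine ⟨hvY, ?_⟩
  have M := hm _ ⟨v, hvY⟩
  by_contra hcon
  push Not at hcon
  obtain ⟨hc1, hc2⟩ := hcon
  have h4 : ρ v < ρ (m₂ (rep ρ p x)) := by
    by_contra h
    rcases M.h4 v hvY (not_lt.mp h) with h' | h'
    · exact hc1 h'
    · exact hc2 h'
  have h5 : m₁ (rep ρ p x) ≠ m₂ (rep ρ p x) := fun h => hc1 (M.h5 h v hvY)
  have hsub : ({v, m₁ (rep ρ p x), m₂ (rep ρ p x)} : Finset V) ⊆ tops G B ρ p (ρ v) x := by
    intro y hy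
    have hyY : y ∈ Y G B ρ p (rep ρ p x) ∧ ρ v ≤ ρ y := by
      simp only [Finset.mem_insert, Finset.mem_singleton] at hy
      rcases hy with rfl | rfl | rfl
      · exact ⟨hvY, le_rfl⟩
      · exact ⟨M.h1, h4.le.trans M.h3⟩
      · exact ⟨M.h2, h4.le⟩
    rw [Y_rep L, mem_Y] at hyY
    rw [mem_tops]
    exact ⟨hyY.1.1, hyY.2, hyY.1.2.2.2⟩
  have hcard : ({v, m₁ (rep ρ p x), m₂ (rep ρ p x)} : Finset V).card = 3 := by
    rw [Finset.card_insert_of_notMem, Finset.card_pair h5]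
    simp only [Finset.mem_insert, Finset.mem_singleton, not_or]
    exact ⟨hc1, hc2⟩
  have := Finset.card_le_card hsub
  omega

/-- clusters with two masters belong to the bond of their masters -/
theorem mem_bond (L : Layout G B c₀ s ρ p) {r a b : V} (M : Mas G B ρ p r a b)
    (hr : ρ (p r) ≤ ρ r) : r ∈ bond G B ρ p b a := by
  rw [bond, Finset.mem_filter]
  have hb := mem_Y.mp M.h2
  have ha := mem_Y.mp M.h1
  refine ⟨Finset.mem_univ _, hb.2.1, hr, ?_⟩
  ext y
  rw [mem_tops, Finset.mem_insert, Finset.mem_singleton]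
  constructor
  · rintro ⟨hyB, hy1, hy2⟩
    have hyY : y ∈ Y G B ρ p r := by
      rw [mem_Y]
      exact ⟨hyB, lt_of_lt_of_le hb.2.1 hy1, lt_of_lt_of_le hb.2.2.1 hy1, hy2⟩
    rcases M.h4 y hyY hy1 with h | h
    · exact Or.inr h
    · exact Or.inl h
  · rintro (rfl | rfl)
    · exact ⟨hb.1, le_rfl, hb.2.2.2⟩
    · exact ⟨ha.1, M.h3, ha.2.2.2⟩

/-- converse -/
theorem of_mem_bond (L : Layout G B c₀ s ρ p) {r a b v z : V} (M : Mas G B ρ p r a b)
    (hv : v ∈ B) (hz : z ∈ B) (hvz : ρ v < ρ z) (hr : r ∈ bond G B ρ p v z) : b = v ∧ a = z := by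
  rw [bond, Finset.mem_filter] at hr
  obtain ⟨-, h1, h2, h3⟩ := hr
  have hvt : v ∈ tops G B ρ p (ρ v) r := by rw [h3]; simp
  have hzt : z ∈ tops G B ρ p (ρ v) r := by rw [h3]; simp
  rw [mem_tops] at hvt hzt
  have hvY : v ∈ Y G B ρ p r := mem_Y.mpr ⟨hv, h1, lt_of_le_of_lt h2 h1, hvt.2.2⟩
  have hzY : z ∈ Y G B ρ p r :=
    mem_Y.mpr ⟨hz, h1.trans hvz, (lt_of_le_of_lt h2 h1).trans hvz, hzt.2.2⟩
  have hne : v ≠ z := by rintro rfl; exact lt_irrefl _ hvz
  have top : ∀ y ∈ Y G B ρ p r, ρ v ≤ ρ y → y = v ∨ y = z := by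
    intro y hy hle
    have hy' := mem_Y.mp hy
    have : y ∈ tops G B ρ p (ρ v) r := mem_tops.mpr ⟨hy'.1, hle, hy'.2.2.2⟩
    rw [h3] at this
    simpa using this
  have hab : a ≠ b := by
    intro h
    have e1 := M.h5 h v hvY
    have e2 := M.h5 h z hzY
    exact hne (e1.trans e2.symm)
  have hb : ρ b ≤ ρ v := by
    by_contra hcon
    have hcon := not_le.mp hcon
    rcases top b M.h2 hcon.le with h | h
    · rw [h] at hcon; exact lt_irrefl _ hcon
    · rcases top a M.h1 (hcon.le.trans M.h3) with h' | h'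
      · have := M.h3
        rw [h'] at this
        omega
      · exact hab (h'.trans h.symm)
  rcases M.h4 v hvY hb with h | h
  · rcases M.h4 z hzY (hb.trans hvz.le) with h' | h'
    · exact absurd (h.trans h'.symm) hne
    · have := M.h3
      rw [← h, ← h'] at this
      omega
  · refine ⟨h.symm, ?_⟩
    rcases M.h4 z hzY (hb.trans hvz.le) with h' | h'
    · exact h'.symm
    · exact absurd (h.trans h'.symm) hne

end Lay



namespace LLL


variable {T C ι : Type} [Fintype T] [Fintype C]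

/-- the event `P` is determined by the coordinates in `S` -/
def DependsOn (P : (T → C) → Prop) (S : Finset T) : Prop :=
  ∀ ω ω' : T → C, (∀ t ∈ S, ω t = ω' t) → (P ω → P ω')

/-- the event as a finite set -/
noncomputable def ev (P : (T → C) → Prop) : Finset (T → C) := Finset.univ.filter P

lemma mem_ev {P : (T → C) → Prop} {ω : T → C} : ω ∈ ev P ↔ P ω := by
  rw [ev, Finset.mem_filter]
  exact ⟨fun h => h.2, fun h => ⟨Finset.mem_univ _, h⟩⟩

/-- number of outcomes in the event -/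
noncomputable def cnt (P : (T → C) → Prop) : ℕ := (ev P).card

lemma cnt_mono {P Q : (T → C) → Prop} (h : ∀ ω, P ω → Q ω) : cnt P ≤ cnt Q := by
  refine Finset.card_le_card ?_
  intro ω hω
  rw [mem_ev] at hω ⊢
  exact h ω hω

/-- swap the coordinates outside `S` -/
noncomputable def swap (S : Finset T) : (T → C) × (T → C) ≃ (T → C) × (T → C) where
  toFun w := (fun t => if t ∈ S then w.1 t else w.2 t, fun t => if t ∈ S then w.2 t else w.1 t)
  invFun w := (fun t => if t ∈ S then w.1 t else w.2 t, fun t => if t ∈ S then w.2 t else w.1 t)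
  left_inv w := by
    refine Prod.ext ?_ ?_ <;> funext t <;> by_cases h : t ∈ S <;> simp [h]
  right_inv w := by
    refine Prod.ext ?_ ?_ <;> funext t <;> by_cases h : t ∈ S <;> simp [h]

lemma indep (P Q : (T → C) → Prop) (S : Finset T) (hP : DependsOn P S)
    (hQ : ∀ ω ω' : T → C, (∀ t, t ∉ S → ω t = ω' t) → (Q ω → Q ω')) :
    cnt (fun ω => P ω ∧ Q ω) * Fintype.card (T → C) = cnt P * cnt Q := by
  have h1 : cnt (fun ω => P ω ∧ Q ω) * Fintype.card (T → C)
      = ((ev (fun ω : T → C => P ω ∧ Q ω)) ×ˢ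
        (Finset.univ : Finset (T → C))).card := by
    rw [Finset.card_product, Finset.card_univ]; rfl
  have h2 : cnt P * cnt Q = ((ev P) ×ˢ (ev Q)).card := by
    rw [Finset.card_product]; rfl
  rw [h1, h2]
  refine Finset.card_equiv (swap S) ?_
  intro w
  simp only [Finset.mem_product, mem_ev, Finset.mem_univ, and_true, swap,
    Equiv.coe_fn_mk]
  constructor
  · rintro ⟨hp, hq⟩
    exact ⟨hP w.1 _ (fun t ht => by simp [ht]) hp, hQ w.1 _ (fun t ht => by simp [ht]) hq⟩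
  · rintro ⟨hp, hq⟩
    exact ⟨hP _ w.1 (fun t ht => by simp [ht]) hp, hQ _ w.1 (fun t ht => by simp [ht]) hq⟩

/-- `P` holds and all events indexed by `J` fail -/
noncomputable def G (B : ι → (T → C) → Prop) (J : Finset ι) : ℕ :=
  cnt (fun ω => ∀ j ∈ J, ¬ B j ω)

lemma key (I : Finset ι) (B : ι → (T → C) → Prop) (S : ι → Finset T)
    (hB : ∀ i ∈ I, DependsOn (B i) (S i)) (p : ℝ) (d : ℕ) (hp0 : 0 ≤ p)
    (hp : ∀ i ∈ I, (cnt (B i) : ℝ) ≤ p * Fintype.card (T → C))
    (hd : ∀ i ∈ I, (I.filter (fun j => ¬ Disjoint (S i) (S j))).card ≤ d)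
    (h4 : 4 * p * d ≤ 1) (hne : 0 < Fintype.card (T → C)) :
    ∀ (n : ℕ) (J : Finset ι), J.card = n → J ⊆ I → ∀ i ∈ I,
      (cnt (fun ω => B i ω ∧ ∀ j ∈ J, ¬ B j ω) : ℝ) ≤ 2 * p * (G B J : ℝ) := by
  intro n
  induction n using Nat.strong_induction_on with
  | _ n ih =>
    intro J hJn hJI i hi
    set J1 := J.filter (fun j => ¬ Disjoint (S i) (S j)) with hJ1
    set J2 := J.filter (fun j => Disjoint (S i) (S j)) with hJ2
    have hJ2J : J2 ⊆ J := Finset.filter_subset _ _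
    have hJ1J : J1 ⊆ J := Finset.filter_subset _ _
    -- numerator bound
    have hnum : (cnt (fun ω => B i ω ∧ ∀ j ∈ J, ¬ B j ω) : ℝ) ≤ p * (G B J2 : ℝ) := by
      have e1 : cnt (fun ω => B i ω ∧ ∀ j ∈ J, ¬ B j ω)
          ≤ cnt (fun ω => B i ω ∧ ∀ j ∈ J2, ¬ B j ω) :=
        cnt_mono (fun ω h => ⟨h.1, fun j hj => h.2 j (hJ2J hj)⟩)
      have e2 : cnt (fun ω => B i ω ∧ ∀ j ∈ J2, ¬ B j ω) * Fintype.card (T → C)
          = cnt (B i) * G B J2 := by
        refine indep (B i) (fun ω => ∀ j ∈ J2, ¬ B j ω) (S i) (hB i hi) ?_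
        intro ω ω' hω hall j hj hbad
        refine hall j hj (hB j (hJI (hJ2J hj)) ω' ω ?_ hbad)
        intro t ht
        have hdis : Disjoint (S i) (S j) := (Finset.mem_filter.mp hj).2
        exact (hω t (fun hti => (Finset.disjoint_left.mp hdis hti ht))).symm
      have hN : (0 : ℝ) < (Fintype.card (T → C) : ℝ) := by exact_mod_cast hne
      have e3 : (cnt (fun ω => B i ω ∧ ∀ j ∈ J2, ¬ B j ω) : ℝ) * (Fintype.card (T → C) : ℝ)
          = (cnt (B i) : ℝ) * (G B J2 : ℝ) := by exact_mod_cast e2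
      have e4 : (cnt (B i) : ℝ) * (G B J2 : ℝ)
          ≤ p * Fintype.card (T → C) * (G B J2 : ℝ) :=
        mul_le_mul_of_nonneg_right (hp i hi) (Nat.cast_nonneg _)
      have e5 : (cnt (fun ω => B i ω ∧ ∀ j ∈ J2, ¬ B j ω) : ℝ) ≤ p * (G B J2 : ℝ) := by
        refine le_of_mul_le_mul_right ?_ hN
        rw [e3]; linarith
      exact le_trans (by exact_mod_cast e1) e5
    by_cases hemp : J1 = ∅
    · have hJJ2 : J2 = J := by
        refine Finset.Subset.antisymm hJ2J ?_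
        intro j hj
        rw [hJ2, Finset.mem_filter]
        refine ⟨hj, ?_⟩
        by_contra hnd
        have : j ∈ J1 := by rw [hJ1, Finset.mem_filter]; exact ⟨hj, hnd⟩
        rw [hemp] at this
        exact absurd this (Finset.notMem_empty _)
      rw [hJJ2] at hnum
      have : 0 ≤ p * (G B J : ℝ) := mul_nonneg hp0 (Nat.cast_nonneg _)
      linarith
    · have hJ2card : J2.card < n := by
        rw [← hJn]
        refine Finset.card_lt_card ⟨hJ2J, ?_⟩
        intro hsub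
        obtain ⟨j, hj⟩ := Finset.nonempty_iff_ne_empty.mpr hemp
        have h1 := (Finset.mem_filter.mp hj).2
        have h2 := (Finset.mem_filter.mp (hsub (hJ1J hj))).2
        exact h1 h2
      -- denominator bound
      have hden : (G B J2 : ℝ) ≤ (G B J : ℝ) + ∑ j ∈ J1, 2 * p * (G B J2 : ℝ) := by
        have hcover : (ev (fun ω : T → C => ∀ j ∈ J2, ¬ B j ω)) ⊆
            (ev (fun ω : T → C => ∀ j ∈ J, ¬ B j ω)) ∪
            J1.biUnion (fun j => ev
              (fun ω : T → C => B j ω ∧ ∀ j' ∈ J2, ¬ B j' ω)) := by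
          intro ω hω
          rw [mem_ev] at hω
          rw [Finset.mem_union]
          by_cases hall : ∀ j ∈ J, ¬ B j ω
          · left
            rw [mem_ev]
            exact hall
          · right
            push Not at hall
            obtain ⟨j, hj, hbad⟩ := hall
            rw [Finset.mem_biUnion]
            refine ⟨j, ?_, ?_⟩
            · rw [hJ1, Finset.mem_filter]
              refine ⟨hj, fun hdis => ?_⟩
              exact hω j (by rw [hJ2, Finset.mem_filter]; exact ⟨hj, hdis⟩) hbad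
            · rw [mem_ev]
              exact ⟨hbad, hω⟩
        have h1 := (Finset.card_le_card hcover).trans (Finset.card_union_le _ _)
        have h2 := h1.trans (Nat.add_le_add_left Finset.card_biUnion_le _)
        have h3 : (G B J2 : ℝ) ≤ (G B J : ℝ) +
            ∑ j ∈ J1, (cnt (fun ω => B j ω ∧ ∀ j' ∈ J2, ¬ B j' ω) : ℝ) := by
          have : ((G B J2 : ℕ) : ℝ) ≤ ((G B J + ∑ j ∈ J1,
              cnt (fun ω => B j ω ∧ ∀ j' ∈ J2, ¬ B j' ω) : ℕ) : ℝ) := by
            exact_mod_cast h2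
          rw [Nat.cast_add, Nat.cast_sum] at this
          exact this
        refine h3.trans (add_le_add le_rfl (Finset.sum_le_sum (fun j hj => ?_)))
        exact ih J2.card hJ2card J2 rfl (hJ2J.trans hJI) j (hJI (hJ1J hj))
      rw [Finset.sum_const, nsmul_eq_mul] at hden
      have hJ1d : (J1.card : ℝ) ≤ d := by
        have : J1.card ≤ d := by
          refine le_trans (Finset.card_le_card ?_) (hd i hi)
          intro j hj
          rw [Finset.mem_filter]
          exact ⟨hJI (hJ1J hj), (Finset.mem_filter.mp hj).2⟩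
        exact_mod_cast this
      have hG2 : (0 : ℝ) ≤ (G B J2 : ℝ) := Nat.cast_nonneg _
      have h6 : (J1.card : ℝ) * (2 * p * (G B J2 : ℝ)) ≤ (1 / 2) * (G B J2 : ℝ) := by
        have : (J1.card : ℝ) * (2 * p) ≤ 1 / 2 := by
          have : (J1.card : ℝ) * (2 * p) ≤ d * (2 * p) :=
            mul_le_mul_of_nonneg_right hJ1d (by linarith)
          linarith
        calc (J1.card : ℝ) * (2 * p * (G B J2 : ℝ)) = ((J1.card : ℝ) * (2 * p)) * (G B J2 : ℝ) := by
              ring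
          _ ≤ (1 / 2) * (G B J2 : ℝ) := mul_le_mul_of_nonneg_right this hG2
      have h7 : (G B J2 : ℝ) ≤ 2 * (G B J : ℝ) := by linarith
      calc (cnt (fun ω => B i ω ∧ ∀ j ∈ J, ¬ B j ω) : ℝ) ≤ p * (G B J2 : ℝ) := hnum
        _ ≤ p * (2 * (G B J : ℝ)) := mul_le_mul_of_nonneg_left h7 hp0
        _ = 2 * p * (G B J : ℝ) := by ring

/-- Symmetric Lovász local lemma (uniform product measure). -/
theorem lll (I : Finset ι) (B : ι → (T → C) → Prop) (S : ι → Finset T)
    (hB : ∀ i ∈ I, DependsOn (B i) (S i)) (p : ℝ) (d : ℕ) (hp0 : 0 ≤ p)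
    (hp : ∀ i ∈ I, (cnt (B i) : ℝ) ≤ p * Fintype.card (T → C))
    (hd : ∀ i ∈ I, (I.filter (fun j => ¬ Disjoint (S i) (S j))).card ≤ d)
    (h4 : 4 * p * d ≤ 1) (hd1 : 1 ≤ d) (hne : 0 < Fintype.card (T → C)) :
    ∃ ω : T → C, ∀ i ∈ I, ¬ B i ω := by
  have hp4 : 4 * p ≤ 1 := by
    have : (1 : ℝ) ≤ d := by exact_mod_cast hd1
    nlinarith
  have hpos : ∀ J : Finset ι, J ⊆ I → 0 < G B J := by
    intro J
    induction J using Finset.induction_on with
    | empty =>
      intro _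
      have : G B (∅ : Finset ι) = Fintype.card (T → C) := by
        have h0 : ev (fun ω : T → C => ∀ j ∈ (∅ : Finset ι), ¬ B j ω) = Finset.univ := by
          ext ω
          rw [mem_ev]
          simp
        rw [G, cnt, h0, Finset.card_univ]
      rw [this]; exact hne
    | insert i J hiJ ih =>
      intro hsub
      have hJ := ih ((Finset.subset_insert i J).trans hsub)
      have hi : i ∈ I := hsub (Finset.mem_insert_self i J)
      have hk := key I B S hB p d hp0 hp hd h4 hne J.card J rfl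
        ((Finset.subset_insert i J).trans hsub) i hi
      have hsplit : G B J ≤ G B (insert i J) + cnt (fun ω => B i ω ∧ ∀ j ∈ J, ¬ B j ω) := by
        refine le_trans (Finset.card_le_card ?_) (Finset.card_union_le _ _)
        intro ω hω
        rw [mem_ev] at hω
        rw [Finset.mem_union, mem_ev, mem_ev]
        by_cases hb : B i ω
        · right; exact ⟨hb, hω⟩
        · left
          intro j hj
          rcases Finset.mem_insert.mp hj with rfl | h
          · exact hb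
          · exact hω j h
      have hsplit' : (G B J : ℝ) ≤ (G B (insert i J) : ℝ) +
          (cnt (fun ω => B i ω ∧ ∀ j ∈ J, ¬ B j ω) : ℝ) := by exact_mod_cast hsplit
      have hJ' : (0 : ℝ) < (G B J : ℝ) := by exact_mod_cast hJ
      have : (0 : ℝ) < (G B (insert i J) : ℝ) := by nlinarith
      exact_mod_cast this
  have hI := hpos I (Finset.Subset.refl _)
  obtain ⟨ω, hω⟩ := Finset.card_pos.mp hI
  exact ⟨ω, mem_ev.mp hω⟩


end LLL

section Col

variable {V : Type} [Fintype V]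

/-- recursion along a rank -/
theorem exists_rec (κ : V → ℕ) (Φ : V → (V → Bool) → Bool)
    (hΦ : ∀ r c c', (∀ y, κ y < κ r → c y = c' y) → Φ r c = Φ r c') :
    ∃ c : V → Bool, ∀ r, c r = Φ r c := by
  let F : (r : V) → ((y : V) → κ y < κ r → Bool) → Bool := fun r g =>
    Φ r (fun y => if h : κ y < κ r then g y h else true)
  let c : V → Bool := WellFounded.fix (measure κ).wf F
  refine ⟨c, fun r => ?_⟩
  have h1 : c r = F r (fun y _ => c y) := WellFounded.fix_eq _ _ _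
  rw [h1]
  apply hΦ
  intro y hy
  simp [hy]

/-- the rule for the colour of a cluster -/
def rule (N t : ℕ) (c : Bool × Fin (2 * N)) (a b : Bool) : Bool :=
  if c.1 then decide (c.2.val < N) else (if c.2.val < t then !a else !b)

variable {G : SimpleGraph V} {B : Finset V} {c₀ s : ℕ} {ρ : V → ℕ} {p : V → V}

theorem exists_col (L : Layout G B c₀ s ρ p) {m₁ m₂ : V → V}
    (hm : ∀ r, (Y G B ρ p r).Nonempty → Mas G B ρ p r (m₁ r) (m₂ r)) (N : ℕ) (τ : V → ℕ)
    (ω : V → Bool × Fin (2 * N)) :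
    ∃ c : V → Bool, (∀ r, (Y G B ρ p r).Nonempty →
        c r = rule N (τ r) (ω r) (c (rep ρ p (m₁ r))) (c (rep ρ p (m₂ r)))) ∧
      (∀ r, (ω r).1 = true → c r = decide ((ω r).2.val < N)) := by
  obtain ⟨M, hM⟩ : ∃ M, ∀ x, ρ x ≤ M := by
    obtain ⟨M, hM⟩ := (Set.finite_range ρ).bddAbove
    exact ⟨M, fun x => hM ⟨x, rfl⟩⟩
  obtain ⟨c, hc⟩ := exists_rec (fun x => M - ρ x) (fun r c => if (Y G B ρ p r).Nonempty then
      rule N (τ r) (ω r) (c (rep ρ p (m₁ r))) (c (rep ρ p (m₂ r)))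
      else rule N (τ r) (ω r) true true) (by
    intro r c c' h
    by_cases hY : (Y G B ρ p r).Nonempty
    · simp only [hY, if_true]
      have M' := hm r hY
      have k : ∀ z ∈ Y G B ρ p r, c (rep ρ p z) = c' (rep ρ p z) := by
        intro z hz
        apply h
        have h1 := (mem_Y.mp hz).2.1
        have h2 := le_rep (ρ := ρ) (p := p) z
        have h3 := hM (rep ρ p z)
        omega
      rw [k _ M'.h1, k _ M'.h2]
    · simp only [hY, if_false])
  refine ⟨c, ?_, ?_⟩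
  · intro r hr
    rw [hc r]
    simp only [hr, if_true]
  · intro r hr
    rw [hc r]
    split_ifs <;> simp [rule, hr]

/-- the colour of `z` is certainly `σ` when the colour of `v` is `σ` -/
def al (ρ : V → ℕ) (p : V → V) (N : ℕ) (σ : Bool) (v z : V) (ω : V → Bool × Fin (2 * N)) : Prop :=
  rep ρ p z = rep ρ p v ∨
    ((ω (rep ρ p z)).1 = true ∧ decide ((ω (rep ρ p z)).2.val < N) = σ)

/-- guaranteed contribution of the cluster of `r` to `v` -/
noncomputable def Xw (ρ : V → ℕ) (p : V → V) (N : ℕ) (τ : V → ℕ) (m₁ m₂ : V → V) (σ : Bool)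
    (v r : V) (ω : V → Bool × Fin (2 * N)) : ℝ :=
  if (ω r).1 then (if decide ((ω r).2.val < N) = σ then -1 else 1)
  else (if (ω r).2.val < τ r then (if al ρ p N σ v (m₁ r) ω then 1 else -1)
    else (if al ρ p N σ v (m₂ r) ω then 1 else -1))

theorem Xw_sign (N : ℕ) (τ : V → ℕ) (m₁ m₂ : V → V) (σ : Bool)
    (v r : V) (ω : V → Bool × Fin (2 * N)) :
    Xw ρ p N τ m₁ m₂ σ v r ω = 1 ∨ Xw ρ p N τ m₁ m₂ σ v r ω = -1 := by
  unfold Xw
  split_ifs <;> simp

theorem Xw_le (N : ℕ) (τ : V → ℕ) {m₁ m₂ : V → V} (ω : V → Bool × Fin (2 * N)) (c : V → Bool)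
    (v r : V) (h1 : c r = rule N (τ r) (ω r) (c (rep ρ p (m₁ r))) (c (rep ρ p (m₂ r))))
    (h2 : ∀ r, (ω r).1 = true → c r = decide ((ω r).2.val < N)) :
    Xw ρ p N τ m₁ m₂ (c (rep ρ p v)) v r ω ≤ if c r = c (rep ρ p v) then -1 else 1 := by
  have hal : ∀ z, al ρ p N (c (rep ρ p v)) v z ω → c (rep ρ p z) = c (rep ρ p v) := by
    rintro z (h | ⟨h, h'⟩)
    · rw [h]
    · rw [h2 _ h, h']
  unfold Xw
  by_cases hmode : (ω r).1 = true
  · rw [if_pos hmode, h2 r hmode]
  · rw [if_neg hmode]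
    rw [h1]
    unfold rule
    rw [if_neg hmode]
    by_cases ht : (ω r).2.val < τ r
    · rw [if_pos ht, if_pos ht]
      by_cases ha : al ρ p N (c (rep ρ p v)) v (m₁ r) ω
      · rw [if_pos ha, hal _ ha]
        simp
      · rw [if_neg ha]
        split_ifs <;> norm_num
    · rw [if_neg ht, if_neg ht]
      by_cases ha : al ρ p N (c (rep ρ p v)) v (m₂ r) ω
      · rw [if_pos ha, hal _ ha]
        simp
      · rw [if_neg ha]
        split_ifs <;> norm_num

theorem sum_fin_ite (M t : ℕ) (h : t ≤ M) (a b : ℝ) :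
    ∑ c : Fin M, (if c.val < t then a else b) = t * a + (M - t) * b := by
  obtain ⟨u, rfl⟩ := Nat.exists_eq_add_of_le h
  rw [Fin.sum_univ_eq_sum_range (fun i => if i < t then a else b) (t + u), Finset.sum_range_add]
  have e1 : ∑ x ∈ Finset.range t, (if x < t then a else b) = t * a := by
    rw [Finset.sum_congr rfl (fun x hx => if_pos (Finset.mem_range.mp hx))]
    simp
  have e2 : ∑ x ∈ Finset.range u, (if t + x < t then a else b) = u * b := by
    rw [Finset.sum_congr rfl (fun x _ => if_neg (by omega))]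
    simp
  rw [e1, e2]
  push_cast
  ring

/-- the average of the contribution over the seed of its own cluster -/
noncomputable def mu (ρ : V → ℕ) (p : V → V) (N : ℕ) (τ : V → ℕ) (m₁ m₂ : V → V) (σ : Bool)
    (v r : V) (ω : V → Bool × Fin (2 * N)) : ℝ :=
  ((τ r : ℝ) * (if al ρ p N σ v (m₁ r) ω then 1 else -1) +
    (2 * N - τ r) * (if al ρ p N σ v (m₂ r) ω then 1 else -1)) / (4 * N)

theorem al_update {N : ℕ} {σ : Bool} {v z r : V} (hr : rep ρ p z ≠ r)
    (ω : V → Bool × Fin (2 * N)) (c : Bool × Fin (2 * N)) :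
    al ρ p N σ v z (Function.update ω r c) ↔ al ρ p N σ v z ω := by
  unfold al
  rw [Function.update_of_ne hr]

theorem mas_rep_ne {r m₁ m₂ : V} (M : Mas G B ρ p r m₁ m₂) :
    rep ρ p m₁ ≠ r ∧ rep ρ p m₂ ≠ r := by
  constructor
  · intro h
    have h1 := (mem_Y.mp M.h1).2.1
    have h2 := le_rep (ρ := ρ) (p := p) m₁
    rw [h] at h2
    omega
  · intro h
    have h1 := (mem_Y.mp M.h2).2.1
    have h2 := le_rep (ρ := ρ) (p := p) m₂
    rw [h] at h2
    omega

theorem sum_Xw {N : ℕ} (hN : 0 < N) {τ : V → ℕ} {m₁ m₂ : V → V} {r : V} (hτ : τ r ≤ 2 * N)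
    (M : Mas G B ρ p r (m₁ r) (m₂ r)) (σ : Bool) (v : V) (ω : V → Bool × Fin (2 * N)) :
    ∑ c : Bool × Fin (2 * N), Xw ρ p N τ m₁ m₂ σ v r (Function.update ω r c) =
      mu ρ p N τ m₁ m₂ σ v r ω * Fintype.card (Bool × Fin (2 * N)) := by
  have hne := mas_rep_ne M
  rw [Fintype.sum_prod_type]
  simp only [Fintype.sum_bool]
  have e1 : ∑ c : Fin (2 * N), Xw ρ p N τ m₁ m₂ σ v r (Function.update ω r (true, c)) = 0 := by
    have : ∀ c : Fin (2 * N), Xw ρ p N τ m₁ m₂ σ v r (Function.update ω r (true, c)) =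
        if c.val < N then (if σ then -1 else 1) else (if σ then 1 else -1) := by
      intro c
      unfold Xw
      simp only [Function.update_self, if_true]
      by_cases hc : c.val < N <;> cases σ <;> simp [hc]
    simp only [this]
    rw [sum_fin_ite _ _ (by omega)]
    push_cast
    cases σ <;> simp <;> ring
  have e2 : ∑ c : Fin (2 * N), Xw ρ p N τ m₁ m₂ σ v r (Function.update ω r (false, c)) =
      (τ r : ℝ) * (if al ρ p N σ v (m₁ r) ω then 1 else -1) +
      (2 * N - τ r) * (if al ρ p N σ v (m₂ r) ω then 1 else -1) := by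
    have : ∀ c : Fin (2 * N), Xw ρ p N τ m₁ m₂ σ v r (Function.update ω r (false, c)) =
        if c.val < τ r then (if al ρ p N σ v (m₁ r) ω then 1 else -1)
        else (if al ρ p N σ v (m₂ r) ω then 1 else -1) := by
      intro c
      unfold Xw
      simp only [Function.update_self, al_update hne.1, al_update hne.2]
      simp
    simp only [this]
    rw [sum_fin_ite _ _ hτ]
    push_cast
    ring
  rw [e1, e2]
  unfold mu
  rw [Fintype.card_prod, Fintype.card_bool, Fintype.card_fin]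
  have : (N : ℝ) ≠ 0 := by exact_mod_cast hN.ne'
  push_cast
  field_simp
  ring

end Col


section Det

variable {V : Type} [Fintype V]
variable {G : SimpleGraph V} {B : Finset V} {c₀ s : ℕ} {ρ : V → ℕ} {p : V → V}

/-- good neighbours -/
noncomputable def goodN (G : SimpleGraph V) (B : Finset V) (ρ : V → ℕ) (p : V → V) (v : V) :
    Finset V :=
  Finset.univ.filter (fun x => G.Adj v x ∧ Good G B ρ p v x)

/-- clusters of good neighbours -/
noncomputable def Rv (G : SimpleGraph V) (B : Finset V) (ρ : V → ℕ) (p : V → V) (v : V) :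
    Finset V := (goodN G B ρ p v).image (rep ρ p)

/-- multiplicity -/
noncomputable def wt (G : SimpleGraph V) (B : Finset V) (ρ : V → ℕ) (p : V → V) (v r : V) : ℕ :=
  ((goodN G B ρ p v).filter (fun x => rep ρ p x = r)).card

theorem wt_le (L : Layout G B c₀ s ρ p) (v r : V) : wt G B ρ p v r ≤ 2 := by
  have : (goodN G B ρ p v).filter (fun x => rep ρ p x = r) ⊆ {r, p r} := by
    intro x hx
    have h := (Finset.mem_filter.mp hx).2
    rcases rep_or (ρ := ρ) (p := p) x with h' | h'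
    · rw [h'] at h; simp [h]
    · rw [h'] at h
      rw [← h, L.p_invol]; simp
  exact (Finset.card_le_card this).trans (Finset.card_le_two)

theorem wt_sum (v : V) : ∑ r ∈ Rv G B ρ p v, wt G B ρ p v r = (goodN G B ρ p v).card := by
  unfold Rv wt
  exact (Finset.card_eq_sum_card_image _ _).symm

theorem wt_pos {v r : V} (hr : r ∈ Rv G B ρ p v) : 1 ≤ wt G B ρ p v r := by
  obtain ⟨x, hx, hxr⟩ := Finset.mem_image.mp hr
  exact Finset.card_pos.mpr ⟨x, Finset.mem_filter.mpr ⟨hx, hxr⟩⟩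

theorem mem_Rv {v r : V} (hr : r ∈ Rv G B ρ p v) : ∃ x, G.Adj v x ∧ Good G B ρ p v x ∧
    rep ρ p x = r := by
  obtain ⟨x, hx, hxr⟩ := Finset.mem_image.mp hr
  have := (Finset.mem_filter.mp hx).2
  exact ⟨x, this.1, this.2, hxr⟩

theorem goodN_le (v : V) : (goodN G B ρ p v).card ≤ (Finset.univ.filter (fun x => G.Adj v x)).card := by
  refine Finset.card_le_card ?_
  intro x hx
  have := (Finset.mem_filter.mp hx).2
  exact Finset.mem_filter.mpr ⟨Finset.mem_univ _, this.1⟩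

theorem goodN_ge (L : Layout G B c₀ s ρ p) {v : V} (hv : v ∈ B) :
    (Finset.univ.filter (fun x => G.Adj v x)).card ≤ (goodN G B ρ p v).card + c₀ := by
  have h1 : Finset.univ.filter (fun x => G.Adj v x) ⊆ goodN G B ρ p v ∪
      Finset.univ.filter (fun x => G.Adj v x ∧ ¬ Good G B ρ p v x) := by
    intro x hx
    have hx' := (Finset.mem_filter.mp hx).2
    rw [Finset.mem_union]
    by_cases hg : Good G B ρ p v x
    · left; exact Finset.mem_filter.mpr ⟨Finset.mem_univ _, hx', hg⟩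
    · right; exact Finset.mem_filter.mpr ⟨Finset.mem_univ _, hx', hg⟩
  have h2 := (Finset.card_le_card h1).trans (Finset.card_union_le _ _)
  have h3 := L.bad v hv
  omega

/-- a seed assignment without bad events gives the colouring -/
theorem colour_of_not_bad (L : Layout G B c₀ s ρ p) {m₁ m₂ : V → V}
    (hm : ∀ r, (Y G B ρ p r).Nonempty → Mas G B ρ p r (m₁ r) (m₂ r)) (N : ℕ) (τ : V → ℕ) (k : ℕ)
    (hdeg : ∀ v, (Finset.univ.filter (fun x => G.Adj v x)).card ≤ 2 * k + 2)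
    (hB : ∀ v, v ∉ B → (Finset.univ.filter (fun x => G.Adj v x)).card ≤ k)
    (ω : V → Bool × Fin (2 * N))
    (h : ∀ v ∈ B, ∀ σ : Bool, (c₀ : ℝ) + 2 ≤
      ∑ r ∈ Rv G B ρ p v, (wt G B ρ p v r : ℝ) * Xw ρ p N τ m₁ m₂ σ v r ω) :
    ∃ col : V → Bool, ∀ v, (Finset.univ.filter (fun x => G.Adj v x ∧ col x = col v)).card ≤ k := by
  obtain ⟨c, hc1, hc2⟩ := exists_col L hm N τ ω
  refine ⟨fun x => c (rep ρ p x), fun v => ?_⟩
  by_cases hv : v ∈ B
  swap
  · refine le_trans (Finset.card_le_card ?_) (hB v hv)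
    intro x hx
    have := (Finset.mem_filter.mp hx).2
    exact Finset.mem_filter.mpr ⟨Finset.mem_univ _, this.1⟩
  set σ := c (rep ρ p v) with hσ
  have key := h v hv σ
  -- pass from clusters to neighbours
  have e1 : ∑ r ∈ Rv G B ρ p v, (wt G B ρ p v r : ℝ) * Xw ρ p N τ m₁ m₂ σ v r ω =
      ∑ x ∈ goodN G B ρ p v, Xw ρ p N τ m₁ m₂ σ v (rep ρ p x) ω := by
    rw [Finset.sum_comp (fun r => Xw ρ p N τ m₁ m₂ σ v r ω) (rep ρ p)]
    refine Finset.sum_congr rfl (fun r _ => ?_)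
    rw [nsmul_eq_mul]; rfl
  have e2 : ∑ x ∈ goodN G B ρ p v, Xw ρ p N τ m₁ m₂ σ v (rep ρ p x) ω ≤
      ∑ x ∈ goodN G B ρ p v, (if c (rep ρ p x) = σ then (-1 : ℝ) else 1) := by
    refine Finset.sum_le_sum (fun x hx => ?_)
    have hx' := (Finset.mem_filter.mp hx).2
    have hY := (good_master L hm hv hx'.1 hx'.2).1
    exact Xw_le N τ ω c v (rep ρ p x) (hc1 _ ⟨v, hY⟩) hc2
  set D := Finset.univ.filter (fun x => G.Adj v x) with hD
  set A := Finset.univ.filter (fun x => G.Adj v x ∧ c (rep ρ p x) = σ) with hA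
  have e3 : ∑ x ∈ D, (if c (rep ρ p x) = σ then (-1 : ℝ) else 1) = D.card - 2 * A.card := by
    have : ∀ x ∈ D, (if c (rep ρ p x) = σ then (-1 : ℝ) else 1) =
        1 - 2 * (if c (rep ρ p x) = σ then (1 : ℝ) else 0) := by
      intro x _; split_ifs <;> norm_num
    rw [Finset.sum_congr rfl this, Finset.sum_sub_distrib, ← Finset.mul_sum, Finset.sum_boole]
    simp only [Finset.sum_const, nsmul_eq_mul, mul_one]
    have : D.filter (fun x => c (rep ρ p x) = σ) = A := by
      rw [hD, hA, Finset.filter_filter]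
    rw [this]
  have e4 : ∑ x ∈ D, (if c (rep ρ p x) = σ then (-1 : ℝ) else 1) =
      ∑ x ∈ goodN G B ρ p v, (if c (rep ρ p x) = σ then (-1 : ℝ) else 1) +
      ∑ x ∈ Finset.univ.filter (fun x => G.Adj v x ∧ ¬ Good G B ρ p v x),
        (if c (rep ρ p x) = σ then (-1 : ℝ) else 1) := by
    have h1 : goodN G B ρ p v = D.filter (fun x => Good G B ρ p v x) := by
      rw [hD, goodN, Finset.filter_filter]
    have h2 : Finset.univ.filter (fun x => G.Adj v x ∧ ¬ Good G B ρ p v x) =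
        D.filter (fun x => ¬ Good G B ρ p v x) := by
      rw [hD, Finset.filter_filter]
    rw [h1, h2, Finset.sum_filter_add_sum_filter_not]
  have e5 : -(c₀ : ℝ) ≤ ∑ x ∈ Finset.univ.filter (fun x => G.Adj v x ∧ ¬ Good G B ρ p v x),
        (if c (rep ρ p x) = σ then (-1 : ℝ) else 1) := by
    have h1 : -((Finset.univ.filter (fun x => G.Adj v x ∧ ¬ Good G B ρ p v x)).card : ℝ) ≤
        ∑ x ∈ Finset.univ.filter (fun x => G.Adj v x ∧ ¬ Good G B ρ p v x),
        (if c (rep ρ p x) = σ then (-1 : ℝ) else 1) := by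
      have h0 : -((Finset.univ.filter (fun x => G.Adj v x ∧ ¬ Good G B ρ p v x)).card : ℝ) =
          ∑ _x ∈ Finset.univ.filter (fun x => G.Adj v x ∧ ¬ Good G B ρ p v x), (-1 : ℝ) := by
        rw [Finset.sum_const, nsmul_eq_mul, mul_neg, mul_one]
      rw [h0]
      refine Finset.sum_le_sum (fun x _ => ?_)
      split_ifs <;> norm_num
    have h2 : ((Finset.univ.filter (fun x => G.Adj v x ∧ ¬ Good G B ρ p v x)).card : ℝ) ≤ c₀ := by
      exact_mod_cast L.bad v hv
    linarith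
  have h6 : (D.card : ℝ) ≤ 2 * k + 2 := by exact_mod_cast hdeg v
  have h7 : (2 * (A.card : ℝ)) ≤ 2 * k := by linarith
  have h8 : A.card ≤ k := by
    have : (A.card : ℝ) ≤ k := by linarith
    exact_mod_cast this
  exact h8

end Det

section Mu

variable {V : Type} [Fintype V]
variable {G : SimpleGraph V} {B : Finset V} {c₀ s : ℕ} {ρ : V → ℕ} {p : V → V}

/-- threshold of the coin of the cluster `r` -/
noncomputable def tau (G : SimpleGraph V) (B : Finset V) (ρ : V → ℕ) (p : V → V) (s N : ℕ)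
    (m₁ m₂ : V → V) (r : V) : ℕ :=
  if m₁ r ≠ m₂ r ∧ s ≤ (bond G B ρ p (m₂ r) (m₁ r)).card then
    (if p (m₁ r) = m₁ r then N + s else if p (m₂ r) = m₂ r then N - s else N)
  else N

theorem tau_bd {N : ℕ} (hs : s ≤ N) (m₁ m₂ : V → V) (r : V) :
    N ≤ tau G B ρ p s N m₁ m₂ r + s ∧ tau G B ρ p s N m₁ m₂ r ≤ N + s := by
  unfold tau
  split_ifs <;> omega

theorem al_self (N : ℕ) (σ : Bool) (v : V) (ω : V → Bool × Fin (2 * N)) : al ρ p N σ v v ω :=
  Or.inl rfl

/-- facts on the average contribution -/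
theorem mu_both {N : ℕ} (hN : 0 < N) (τ : V → ℕ) (m₁ m₂ : V → V) (σ : Bool) (v r : V)
    (ω : V → Bool × Fin (2 * N)) (h1 : al ρ p N σ v (m₁ r) ω) (h2 : al ρ p N σ v (m₂ r) ω) :
    mu ρ p N τ m₁ m₂ σ v r ω = 1 / 2 := by
  unfold mu
  rw [if_pos h1, if_pos h2]
  have : (N : ℝ) ≠ 0 := by exact_mod_cast hN.ne'
  field_simp
  ring

theorem mu_one {N : ℕ} (hN : 0 < N) (τ : V → ℕ) (m₁ m₂ : V → V) (σ : Bool) (v r : V)
    (ω : V → Bool × Fin (2 * N)) (h1 : al ρ p N σ v (m₁ r) ω) (h2 : ¬ al ρ p N σ v (m₂ r) ω) :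
    mu ρ p N τ m₁ m₂ σ v r ω = ((τ r : ℝ) - N) / (2 * N) := by
  unfold mu
  rw [if_pos h1, if_neg h2]
  have : (N : ℝ) ≠ 0 := by exact_mod_cast hN.ne'
  field_simp
  ring

theorem mu_two {N : ℕ} (hN : 0 < N) (τ : V → ℕ) (m₁ m₂ : V → V) (σ : Bool) (v r : V)
    (ω : V → Bool × Fin (2 * N)) (h1 : ¬ al ρ p N σ v (m₁ r) ω) (h2 : al ρ p N σ v (m₂ r) ω) :
    mu ρ p N τ m₁ m₂ σ v r ω = ((N : ℝ) - τ r) / (2 * N) := by
  unfold mu
  rw [if_neg h1, if_pos h2]
  have : (N : ℝ) ≠ 0 := by exact_mod_cast hN.ne'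
  field_simp
  ring

/-- general lower bound -/
theorem mu_ge {N : ℕ} (hN : 0 < N) (hs : s ≤ N) (m₁ m₂ : V → V) (σ : Bool) (v r : V)
    (ω : V → Bool × Fin (2 * N)) (hv : v = m₁ r ∨ v = m₂ r) :
    -((s : ℝ) / (2 * N)) ≤ mu ρ p N (tau G B ρ p s N m₁ m₂) m₁ m₂ σ v r ω := by
  have hNr : (0 : ℝ) < N := by exact_mod_cast hN
  have hb := tau_bd (G := G) (B := B) (ρ := ρ) (p := p) hs m₁ m₂ r
  have hb1 : (N : ℝ) ≤ tau G B ρ p s N m₁ m₂ r + s := by exact_mod_cast hb.1
  have hb2 : (tau G B ρ p s N m₁ m₂ r : ℝ) ≤ N + s := by exact_mod_cast hb.2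
  have hs0 : (0 : ℝ) ≤ s / (2 * N) := by positivity
  by_cases h1 : al ρ p N σ v (m₁ r) ω <;> by_cases h2 : al ρ p N σ v (m₂ r) ω
  · rw [mu_both hN _ _ _ _ _ _ _ h1 h2]; linarith
  · rw [mu_one hN _ _ _ _ _ _ _ h1 h2, ← neg_div]
    exact div_le_div_of_nonneg_right (by linarith) (by positivity)
  · rw [mu_two hN _ _ _ _ _ _ _ h1 h2, ← neg_div]
    exact div_le_div_of_nonneg_right (by linarith) (by positivity)
  · exfalso
    rcases hv with h | h
    · exact h1 (h ▸ al_self N σ v ω)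
    · exact h2 (h ▸ al_self N σ v ω)

/-- the other master -/
noncomputable def oth (m₁ m₂ : V → V) (v r : V) : V := if m₁ r = v then m₂ r else m₁ r

/-- a cluster of a vertex is minor if its two masters are different and do not form a strong pair -/
def Minor (G : SimpleGraph V) (B : Finset V) (ρ : V → ℕ) (p : V → V) (s : ℕ) (m₁ m₂ : V → V)
    (r : V) : Prop := m₁ r ≠ m₂ r ∧ (bond G B ρ p (m₂ r) (m₁ r)).card < s

def Strong (G : SimpleGraph V) (B : Finset V) (ρ : V → ℕ) (p : V → V) (s : ℕ) (m₁ m₂ : V → V)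
    (r : V) : Prop := m₁ r ≠ m₂ r ∧ s ≤ (bond G B ρ p (m₂ r) (m₁ r)).card

theorem mu_unmatched {N : ℕ} (hN : 0 < N) (hs : s ≤ N) (L : Layout G B c₀ s ρ p) {m₁ m₂ : V → V}
    {r : V} (M : Mas G B ρ p r (m₁ r) (m₂ r)) (σ : Bool) (v : V)
    (ω : V → Bool × Fin (2 * N)) (hv : v = m₁ r ∨ v = m₂ r) (hpv : p v = v) :
    0 ≤ mu ρ p N (tau G B ρ p s N m₁ m₂) m₁ m₂ σ v r ω ∧
    (Strong G B ρ p s m₁ m₂ r → min (1 / 2) ((s : ℝ) / (2 * N)) ≤
      mu ρ p N (tau G B ρ p s N m₁ m₂) m₁ m₂ σ v r ω) ∧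
    (m₁ r = m₂ r → mu ρ p N (tau G B ρ p s N m₁ m₂) m₁ m₂ σ v r ω = 1 / 2) ∧
    (al ρ p N σ v (oth m₁ m₂ v r) ω →
      mu ρ p N (tau G B ρ p s N m₁ m₂) m₁ m₂ σ v r ω = 1 / 2) := by
  have hNr : (0 : ℝ) < N := by exact_mod_cast hN
  have hs0 : (0 : ℝ) ≤ s / (2 * N) := by positivity
  have hboth : al ρ p N σ v (oth m₁ m₂ v r) ω →
      mu ρ p N (tau G B ρ p s N m₁ m₂) m₁ m₂ σ v r ω = 1 / 2 := by
    intro h
    by_cases h1 : m₁ r = v
    · rw [oth, if_pos h1] at h
      exact mu_both hN _ _ _ _ _ _ _ (by rw [h1]; exact al_self N σ v ω) h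
    · rw [oth, if_neg h1] at h
      refine mu_both hN _ _ _ _ _ _ _ h ?_
      rcases hv with hv | hv
      · exact absurd hv.symm h1
      · rw [← hv]; exact al_self N σ v ω
  have heq : m₁ r = m₂ r → mu ρ p N (tau G B ρ p s N m₁ m₂) m₁ m₂ σ v r ω = 1 / 2 := by
    intro h
    have hv' : v = m₁ r := by
      rcases hv with hv | hv
      · exact hv
      · rw [hv, h]
    refine mu_both hN _ _ _ _ _ _ _ ?_ ?_
    · rw [← hv']; exact al_self N σ v ω
    · rw [← h, ← hv']; exact al_self N σ v ω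
  -- explicit value in the strong case
  have hstr : Strong G B ρ p s m₁ m₂ r →
      (m₁ r = v → tau G B ρ p s N m₁ m₂ r = N + s) ∧
      (m₁ r ≠ v → tau G B ρ p s N m₁ m₂ r = N - s) := by
    rintro ⟨hne, hbs⟩
    have hlt : ρ (m₂ r) < ρ (m₁ r) := by
      rcases M.h3.lt_or_eq with h | h
      · exact h
      · exact absurd (L.ρ_inj _ (mem_Y.mp M.h2).1 _ (mem_Y.mp M.h1).1 h).symm hne
    have hP := L.P1 _ (mem_Y.mp M.h2).1 _ (mem_Y.mp M.h1).1 hlt hbs
    constructor
    · intro h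
      unfold tau
      rw [if_pos ⟨hne, hbs⟩, if_pos (by rw [h]; exact hpv)]
    · intro h
      have h2 : v = m₂ r := by
        rcases hv with hv | hv
        · exact absurd hv.symm h
        · exact hv
      have hp2 : p (m₂ r) = m₂ r := by rw [← h2]; exact hpv
      have hp1 : p (m₁ r) ≠ m₁ r := by
        rcases hP with h' | h'
        · exact absurd hp2 h'
        · exact h'
      unfold tau
      rw [if_pos ⟨hne, hbs⟩, if_neg hp1, if_pos hp2]
  have hstrong : Strong G B ρ p s m₁ m₂ r → min (1 / 2) ((s : ℝ) / (2 * N)) ≤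
      mu ρ p N (tau G B ρ p s N m₁ m₂) m₁ m₂ σ v r ω := by
    intro hst
    obtain ⟨ha, hb⟩ := hstr hst
    by_cases h1 : al ρ p N σ v (m₁ r) ω <;> by_cases h2 : al ρ p N σ v (m₂ r) ω
    · rw [mu_both hN _ _ _ _ _ _ _ h1 h2]; exact min_le_left _ _
    · rw [mu_one hN _ _ _ _ _ _ _ h1 h2]
      refine (min_le_right _ _).trans (div_le_div_of_nonneg_right ?_ (by positivity))
      have hv1 : m₁ r = v := by
        rcases hv with h | h
        · exact h.symm
        · exact absurd (h ▸ al_self N σ v ω) h2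
      rw [ha hv1]; push_cast; linarith
    · rw [mu_two hN _ _ _ _ _ _ _ h1 h2]
      refine (min_le_right _ _).trans (div_le_div_of_nonneg_right ?_ (by positivity))
      have hv1 : m₁ r ≠ v := by
        intro h
        exact h1 (by rw [h]; exact al_self N σ v ω)
      rw [hb hv1, Nat.cast_sub hs]; linarith
    · exfalso
      rcases hv with h | h
      · exact h1 (h ▸ al_self N σ v ω)
      · exact h2 (h ▸ al_self N σ v ω)
  refine ⟨?_, hstrong, heq, hboth⟩
  by_cases hst : Strong G B ρ p s m₁ m₂ r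
  · exact le_trans (le_min (by norm_num) hs0) (hstrong hst)
  · have hτ : tau G B ρ p s N m₁ m₂ r = N := by
      unfold tau
      exact if_neg hst
    by_cases h1 : al ρ p N σ v (m₁ r) ω <;> by_cases h2 : al ρ p N σ v (m₂ r) ω
    · rw [mu_both hN _ _ _ _ _ _ _ h1 h2]; norm_num
    · rw [mu_one hN _ _ _ _ _ _ _ h1 h2, hτ]; simp
    · rw [mu_two hN _ _ _ _ _ _ _ h1 h2, hτ]; simp
    · exfalso
      rcases hv with h | h
      · exact h1 (h ▸ al_self N σ v ω)
      · exact h2 (h ▸ al_self N σ v ω)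

/-- the alignment indicator that depends only on one seed -/
noncomputable def aInd (N : ℕ) (σ : Bool) (c : Bool × Fin (2 * N)) : ℝ :=
  if c.1 = true ∧ decide (c.2.val < N) = σ then 1 else 0

/-- minor clusters at `v` -/
noncomputable def Rm (G : SimpleGraph V) (B : Finset V) (ρ : V → ℕ) (p : V → V) (s : ℕ)
    (m₁ m₂ : V → V) (v : V) : Finset V := (Rv G B ρ p v).filter (fun r => Minor G B ρ p s m₁ m₂ r)

/-- the first bad event -/
def E1 (G : SimpleGraph V) (B : Finset V) (ρ : V → ℕ) (p : V → V) (s : ℕ) (m₁ m₂ : V → V) (N : ℕ)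
    (σ : Bool) (v : V) (ω : V → Bool × Fin (2 * N)) : Prop :=
  ∑ r ∈ Rm G B ρ p s m₁ m₂ v, (wt G B ρ p v r : ℝ) * aInd N σ (ω (rep ρ p (oth m₁ m₂ v r))) < s / 16

/-- lower bound of the sum of averages -/
theorem mu_sum {K : ℕ} (hK : 4 * c₀ ≤ K) (hK0 : 0 < K) (hs : s ≤ K) (L : Layout G B c₀ s ρ p)
    {m₁ m₂ : V → V} (hm : ∀ r, (Y G B ρ p r).Nonempty → Mas G B ρ p r (m₁ r) (m₂ r)) {v : V}
    (hv : v ∈ B) (hdeg : (Finset.univ.filter (fun x => G.Adj v x)).card ≤ 2 * K)
    (hdeg' : K ≤ (Finset.univ.filter (fun x => G.Adj v x)).card) (σ : Bool)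
    (ω : V → Bool × Fin (2 * (4 * K)))
    (hE : p v = v → (K : ℝ) / 4 ≤ ∑ r ∈ Rm G B ρ p s m₁ m₂ v, (wt G B ρ p v r : ℝ) →
      ¬ E1 G B ρ p s m₁ m₂ (4 * K) σ v ω) :
    (s : ℝ) / 32 ≤ ∑ r ∈ Rv G B ρ p v, (wt G B ρ p v r : ℝ) *
      mu ρ p (4 * K) (tau G B ρ p s (4 * K) m₁ m₂) m₁ m₂ σ v r ω := by
  have hN : 0 < 4 * K := by omega
  have hKr : (0 : ℝ) < K := by exact_mod_cast hK0
  have hsN : s ≤ 4 * K := by omega
  have hsK : (s : ℝ) ≤ K := by exact_mod_cast hs
  have hs0 : (0 : ℝ) ≤ s := Nat.cast_nonneg _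
  have hw0 : ∀ r, (0 : ℝ) ≤ wt G B ρ p v r := fun r => Nat.cast_nonneg _
  have hwsum : ∑ r ∈ Rv G B ρ p v, (wt G B ρ p v r : ℝ) ≤ 2 * K := by
    have := wt_sum (G := G) (B := B) (ρ := ρ) (p := p) v
    have h2 := goodN_le (G := G) (B := B) (ρ := ρ) (p := p) v
    have h3 : ∑ r ∈ Rv G B ρ p v, wt G B ρ p v r ≤ 2 * K := by omega
    exact_mod_cast h3
  have hwsum' : (K : ℝ) - c₀ ≤ ∑ r ∈ Rv G B ρ p v, (wt G B ρ p v r : ℝ) := by
    have := wt_sum (G := G) (B := B) (ρ := ρ) (p := p) v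
    have h2 := goodN_ge L hv
    have h3 : K ≤ ∑ r ∈ Rv G B ρ p v, wt G B ρ p v r + c₀ := by omega
    have h4 : (K : ℝ) ≤ ∑ r ∈ Rv G B ρ p v, (wt G B ρ p v r : ℝ) + c₀ := by exact_mod_cast h3
    linarith
  have hc : (4 : ℝ) * c₀ ≤ K := by exact_mod_cast hK
  have hmas : ∀ r ∈ Rv G B ρ p v, Mas G B ρ p r (m₁ r) (m₂ r) ∧ (v = m₁ r ∨ v = m₂ r) := by
    intro r hr
    obtain ⟨x, hx1, hx2, hx3⟩ := mem_Rv hr
    have h := good_master L hm hv hx1 hx2
    rw [hx3] at h
    exact ⟨hm r ⟨v, h.1⟩, h.2⟩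
  set μ : V → ℝ := fun r => mu ρ p (4 * K) (tau G B ρ p s (4 * K) m₁ m₂) m₁ m₂ σ v r ω with hμ
  change (s : ℝ) / 32 ≤ ∑ r ∈ Rv G B ρ p v, (wt G B ρ p v r : ℝ) * μ r
  by_cases hpv : p v = v
  · -- unmatched
    have hfacts : ∀ r ∈ Rv G B ρ p v, 0 ≤ μ r ∧
        (Strong G B ρ p s m₁ m₂ r → min (1 / 2) ((s : ℝ) / (2 * (4 * K : ℕ))) ≤ μ r) ∧
        (m₁ r = m₂ r → μ r = 1 / 2) ∧ (al ρ p (4 * K) σ v (oth m₁ m₂ v r) ω → μ r = 1 / 2) := by
      intro r hr
      exact mu_unmatched hN hsN L (hmas r hr).1 σ v ω (hmas r hr).2 hpv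
    have hmin : min (1 / 2) ((s : ℝ) / (2 * (4 * K : ℕ))) = s / (8 * K) := by
      push_cast
      rw [min_eq_right]
      · congr 1; ring
      · rw [div_le_div_iff₀ (by positivity) (by norm_num)]
        linarith
    -- subsums
    have sub : ∀ (S : Finset V) (_ : S ⊆ Rv G B ρ p v) (a : ℝ) (_ : 0 ≤ a)
        (_ : ∀ r ∈ S, a ≤ μ r), a * ∑ r ∈ S, (wt G B ρ p v r : ℝ) ≤
        ∑ r ∈ Rv G B ρ p v, (wt G B ρ p v r : ℝ) * μ r := by
      intro S hS a ha hSa
      rw [Finset.mul_sum]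
      refine le_trans (Finset.sum_le_sum (fun r hr => ?_))
        (Finset.sum_le_sum_of_subset_of_nonneg hS (fun r hr _ =>
          mul_nonneg (hw0 r) (hfacts r hr).1))
      rw [mul_comm]
      exact mul_le_mul_of_nonneg_left (hSa r hr) (hw0 r)
    set Rs := (Rv G B ρ p v).filter (fun r => Strong G B ρ p s m₁ m₂ r) with hRs
    set Rf := (Rv G B ρ p v).filter (fun r => m₁ r = m₂ r) with hRf
    by_cases c1 : (K : ℝ) / 4 ≤ ∑ r ∈ Rs, (wt G B ρ p v r : ℝ)
    · have h1 := sub Rs (Finset.filter_subset _ _) (s / (8 * K)) (by positivity) (by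
        intro r hr
        have hr' := Finset.mem_filter.mp hr
        rw [← hmin]
        exact (hfacts r hr'.1).2.1 hr'.2)
      refine le_trans ?_ h1
      calc (s : ℝ) / 32 = s / (8 * K) * (K / 4) := by field_simp; ring
        _ ≤ _ := mul_le_mul_of_nonneg_left c1 (by positivity)
    · by_cases c2 : (K : ℝ) / 4 ≤ ∑ r ∈ Rf, (wt G B ρ p v r : ℝ)
      · have h1 := sub Rf (Finset.filter_subset _ _) (1 / 2) (by positivity) (by
          intro r hr
          have hr' := Finset.mem_filter.mp hr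
          exact ((hfacts r hr'.1).2.2.1 hr'.2).ge)
        linarith
      · push Not at c1 c2
        have hsplit : ∑ r ∈ Rv G B ρ p v, (wt G B ρ p v r : ℝ) ≤
            ∑ r ∈ Rs, (wt G B ρ p v r : ℝ) + ∑ r ∈ Rf, (wt G B ρ p v r : ℝ) +
            ∑ r ∈ Rm G B ρ p s m₁ m₂ v, (wt G B ρ p v r : ℝ) := by
          rw [hRs, hRf, Rm, Finset.sum_filter, Finset.sum_filter, Finset.sum_filter,
            ← Finset.sum_add_distrib, ← Finset.sum_add_distrib]
          refine Finset.sum_le_sum (fun r _ => ?_)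
          have := hw0 r
          by_cases h1 : m₁ r = m₂ r
          · rw [if_neg (show ¬ Strong G B ρ p s m₁ m₂ r from fun h => h.1 h1), if_pos h1,
              if_neg (show ¬ Minor G B ρ p s m₁ m₂ r from fun h => h.1 h1)]
            linarith
          · by_cases h2 : s ≤ (bond G B ρ p (m₂ r) (m₁ r)).card
            · rw [if_pos (show Strong G B ρ p s m₁ m₂ r from ⟨h1, h2⟩)]
              split_ifs <;> linarith
            · rw [if_pos (show Minor G B ρ p s m₁ m₂ r from ⟨h1, not_le.mp h2⟩)]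
              split_ifs <;> linarith
        have hRm : (K : ℝ) / 4 ≤ ∑ r ∈ Rm G B ρ p s m₁ m₂ v, (wt G B ρ p v r : ℝ) := by linarith
        have hne := hE hpv hRm
        unfold E1 at hne
        push Not at hne
        set Ra := (Rm G B ρ p s m₁ m₂ v).filter
          (fun r => (ω (rep ρ p (oth m₁ m₂ v r))).1 = true ∧
            decide ((ω (rep ρ p (oth m₁ m₂ v r))).2.val < 4 * K) = σ) with hRa
        have h2 : ∑ r ∈ Rm G B ρ p s m₁ m₂ v, (wt G B ρ p v r : ℝ) *
            aInd (4 * K) σ (ω (rep ρ p (oth m₁ m₂ v r))) = ∑ r ∈ Ra, (wt G B ρ p v r : ℝ) := by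
          rw [hRa, Finset.sum_filter]
          refine Finset.sum_congr rfl (fun r _ => ?_)
          unfold aInd
          split_ifs <;> simp
        rw [h2] at hne
        have h1 := sub Ra ((Finset.filter_subset _ _).trans (Finset.filter_subset _ _)) (1 / 2)
          (by norm_num) (by
            intro r hr
            have hr' := Finset.mem_filter.mp hr
            have hr'' := (Finset.mem_filter.mp hr'.1).1
            exact ((hfacts r hr'').2.2.2 (Or.inr hr'.2)).ge)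
        linarith
  · -- matched
    obtain ⟨a, b, hab, hrank, hpa, hpb⟩ : ∃ a b, ((v = a ∧ p v = b) ∨ (v = b ∧ p v = a)) ∧
        ρ a < ρ b ∧ p a = b ∧ p b = a := by
      have hne : ρ v ≠ ρ (p v) := fun h => hpv (L.ρ_inj _ hv _ (p_mem L hv) h).symm
      rcases lt_or_gt_of_ne hne with h | h
      · exact ⟨v, p v, Or.inl ⟨rfl, rfl⟩, h, rfl, L.p_invol v⟩
      · exact ⟨p v, v, Or.inr ⟨rfl, rfl⟩, h, L.p_invol v, rfl⟩
    have haB : a ∈ B := by
      rcases hab with ⟨h, -⟩ | ⟨-, h⟩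
      · rw [← h]; exact hv
      · rw [← h]; exact p_mem L hv
    have hbB : b ∈ B := by
      rw [← hpa]; exact p_mem L haB
    have hS : s ≤ (bond G B ρ p a b).card := by
      have := L.P2 a haB (by rw [hpa]; exact hrank)
      rwa [hpa] at this
    have hva : v = a ∨ v = b := by
      rcases hab with ⟨h, -⟩ | ⟨h, -⟩
      · exact Or.inl h
      · exact Or.inr h
    have hrepab : rep ρ p a = rep ρ p b := by rw [← rep_p L a, hpa]
    have hsub : bond G B ρ p a b ⊆ Rv G B ρ p v := by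
      intro r hr
      have hr' := (Finset.mem_filter.mp hr).2
      obtain ⟨h1, h2, h3⟩ := hr'
      have hvt : v ∈ tops G B ρ p (ρ a) r := by
        rw [h3]; rcases hva with h | h <;> simp [h]
      have hadj := (mem_tops.mp hvt).2
      have hle : ρ a ≤ ρ v := hadj.1
      have htops : ∀ x, (x = r ∨ x = p r) → (tops G B ρ p (ρ v) x).card ≤ 2 := by
        intro x hx
        have h4 : tops G B ρ p (ρ v) x = tops G B ρ p (ρ v) r := by
          rcases hx with rfl | rfl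
          · rfl
          · exact tops_p L _ _
        rw [h4]
        have h5 : tops G B ρ p (ρ v) r ⊆ tops G B ρ p (ρ a) r := by
          intro y hy
          have hy' := mem_tops.mp hy
          exact mem_tops.mpr ⟨hy'.1, hle.trans hy'.2.1, hy'.2.2⟩
        rw [h3] at h5
        exact (Finset.card_le_card h5).trans Finset.card_le_two
      rw [Rv, Finset.mem_image]
      rcases hadj.2 with h | h
      · refine ⟨r, Finset.mem_filter.mpr ⟨Finset.mem_univ _, h.symm, ?_⟩, rep_of_rank L h2⟩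
        exact ⟨by omega, by omega, htops r (Or.inl rfl)⟩
      · refine ⟨p r, Finset.mem_filter.mpr ⟨Finset.mem_univ _, h.symm, ?_⟩, ?_⟩
        · refine ⟨by omega, ?_, htops _ (Or.inr rfl)⟩
          rw [L.p_invol]; omega
        · rw [rep_p L]; exact rep_of_rank L h2
    have hhalf : ∀ r ∈ bond G B ρ p a b, μ r = 1 / 2 := by
      intro r hr
      have hM := hmas r (hsub hr)
      have h := of_mem_bond L hM.1 haB hbB hrank hr
      refine mu_both hN _ _ _ _ _ _ _ ?_ ?_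
      · rw [h.2]
        left
        rcases hva with h' | h' <;> rw [h']
        rw [hrepab]
      · rw [h.1]
        left
        rcases hva with h' | h' <;> rw [h']
        rw [hrepab]
    have hlow : ∀ r ∈ Rv G B ρ p v, -((s : ℝ) / (8 * K)) ≤ μ r := by
      intro r hr
      have h := mu_ge (G := G) (B := B) (ρ := ρ) (p := p) hN hsN m₁ m₂ σ v r ω (hmas r hr).2
      have e : (s : ℝ) / (2 * ((4 * K : ℕ) : ℝ)) = s / (8 * K) := by push_cast; congr 1; ring
      rw [e] at h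
      exact h
    rw [← Finset.sum_sdiff hsub]
    have p1 : (s : ℝ) / 2 ≤ ∑ r ∈ bond G B ρ p a b, (wt G B ρ p v r : ℝ) * μ r := by
      have : ∑ r ∈ bond G B ρ p a b, (1 / 2 : ℝ) ≤ ∑ r ∈ bond G B ρ p a b, (wt G B ρ p v r : ℝ) * μ r := by
        refine Finset.sum_le_sum (fun r hr => ?_)
        rw [hhalf r hr]
        have : (1 : ℝ) ≤ wt G B ρ p v r := by exact_mod_cast wt_pos (hsub hr)
        linarith
      refine le_trans ?_ this
      rw [Finset.sum_const, nsmul_eq_mul]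
      have : (s : ℝ) ≤ (bond G B ρ p a b).card := by exact_mod_cast hS
      linarith
    have p2 : -((s : ℝ) / 4) ≤ ∑ r ∈ Rv G B ρ p v \ bond G B ρ p a b, (wt G B ρ p v r : ℝ) * μ r := by
      have h1 : ∑ r ∈ Rv G B ρ p v \ bond G B ρ p a b, (wt G B ρ p v r : ℝ) * (-((s : ℝ) / (8 * K))) ≤
          ∑ r ∈ Rv G B ρ p v \ bond G B ρ p a b, (wt G B ρ p v r : ℝ) * μ r := by
        refine Finset.sum_le_sum (fun r hr => ?_)
        exact mul_le_mul_of_nonneg_left (hlow r (Finset.mem_sdiff.mp hr).1) (hw0 r)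
      refine le_trans ?_ h1
      rw [← Finset.sum_mul]
      have h2 : ∑ r ∈ Rv G B ρ p v \ bond G B ρ p a b, (wt G B ρ p v r : ℝ) ≤ 2 * K := by
        refine le_trans (Finset.sum_le_sum_of_subset_of_nonneg Finset.sdiff_subset
          (fun r _ _ => hw0 r)) hwsum
      have h3 : 0 ≤ (s : ℝ) / (8 * K) := by positivity
      have h4 : 2 * K * ((s : ℝ) / (8 * K)) = s / 4 := by field_simp; ring
      nlinarith [mul_le_mul_of_nonneg_right h2 h3]
    linarith

end Mu

section Events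

variable {V : Type} [Fintype V]
variable {G : SimpleGraph V} {B : Finset V} {c₀ s : ℕ} {ρ : V → ℕ} {p : V → V}

theorem card_C (N : ℕ) : Fintype.card (Bool × Fin (2 * N)) = 4 * N := by
  rw [Fintype.card_prod, Fintype.card_bool, Fintype.card_fin]; ring

/-- average of an exponential of the alignment indicator -/
theorem aInd_mgf {N : ℕ} (hN : 0 < N) (σ : Bool) (y : ℝ) (hy0 : 0 ≤ y) (hy1 : y ≤ 1) :
    ∑ c : Bool × Fin (2 * N), Real.exp (-(y * aInd N σ c) + y / 8) ≤
      Fintype.card (Bool × Fin (2 * N)) := by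
  have hNr : (0 : ℝ) < N := by exact_mod_cast hN
  have h1 : ∀ c : Bool × Fin (2 * N), Real.exp (-(y * aInd N σ c) + y / 8) =
      (if c.1 = true ∧ decide (c.2.val < N) = σ then Real.exp (-y) else 1) * Real.exp (y / 8) := by
    intro c
    rw [Real.exp_add]
    congr 1
    unfold aInd
    split_ifs <;> simp
  simp only [h1]
  rw [← Finset.sum_mul, Fintype.sum_prod_type, Fintype.sum_bool]
  have e1 : ∑ c : Fin (2 * N), (if (true = true ∧ decide (c.val < N) = σ) then Real.exp (-y) else 1)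
      = N * Real.exp (-y) + N := by
    have : ∀ c : Fin (2 * N), (if (true = true ∧ decide (c.val < N) = σ) then Real.exp (-y) else 1)
        = if c.val < N then (if σ then Real.exp (-y) else 1) else (if σ then 1 else Real.exp (-y)) := by
      intro c
      by_cases hc : c.val < N <;> cases σ <;> simp [hc]
    rw [Finset.sum_congr rfl (fun c _ => this c), sum_fin_ite _ _ (by omega)]
    push_cast
    cases σ <;> simp <;> ring
  have e2 : ∑ c : Fin (2 * N), (if (false = true ∧ decide (c.val < N) = σ) then Real.exp (-y) else 1)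
      = 2 * N := by
    simp
  rw [e1, e2, card_C]
  have hexp : Real.exp (-y) ≤ 1 - y / 2 := by
    have := Real.abs_exp_sub_one_sub_id_le (x := -y) (by rw [abs_neg, abs_of_nonneg hy0]; exact hy1)
    have h2 := (abs_le.mp this).2
    -- use the sharper bound through 1/(1+y)
    have h3 : 1 + y ≤ Real.exp y := by have := Real.add_one_le_exp y; linarith
    have h4 : Real.exp (-y) * Real.exp y = 1 := by rw [← Real.exp_add]; simp
    have h5 : Real.exp (-y) * (1 + y) ≤ 1 :=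
      (mul_le_mul_of_nonneg_left h3 (Real.exp_pos _).le).trans h4.le
    have h6 : (0 : ℝ) < 1 + y := by linarith
    have h7 : Real.exp (-y) ≤ 1 / (1 + y) := by
      rw [le_div_iff₀ h6]; exact h5
    refine h7.trans ?_
    rw [div_le_iff₀ h6]
    nlinarith
  have h8 : (N * Real.exp (-y) + N + 2 * N) ≤ (4 * N) * (1 - y / 8) := by nlinarith
  have h9 : (1 - y / 8) ≤ Real.exp (-(y / 8)) := by
    have := Real.add_one_le_exp (-(y / 8)); linarith
  calc (N * Real.exp (-y) + N + 2 * N) * Real.exp (y / 8)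
      ≤ ((4 * N) * Real.exp (-(y / 8))) * Real.exp (y / 8) := by
        refine mul_le_mul_of_nonneg_right (h8.trans ?_) (Real.exp_pos _).le
        exact mul_le_mul_of_nonneg_left h9 (by positivity)
    _ = ((4 * N : ℕ) : ℝ) := by
        rw [mul_assoc, ← Real.exp_add]
        simp

/-- weights of the clusters of minor partners -/
theorem minor_weight (L : Layout G B c₀ s ρ p) {m₁ m₂ : V → V}
    (hm : ∀ r, (Y G B ρ p r).Nonempty → Mas G B ρ p r (m₁ r) (m₂ r)) {v : V} (hv : v ∈ B) (P : V) :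
    ∑ r ∈ (Rm G B ρ p s m₁ m₂ v).filter (fun r => rep ρ p (oth m₁ m₂ v r) = P),
      (wt G B ρ p v r : ℝ) ≤ 4 * s := by
  have hz : ∀ z, ((Rm G B ρ p s m₁ m₂ v).filter (fun r => oth m₁ m₂ v r = z)).card ≤ s := by
    intro z
    rcases Finset.eq_empty_or_nonempty
      ((Rm G B ρ p s m₁ m₂ v).filter (fun r => oth m₁ m₂ v r = z)) with h | ⟨r₀, hr₀⟩
    · rw [h]; simp
    · have hall : ∀ r ∈ (Rm G B ρ p s m₁ m₂ v).filter (fun r => oth m₁ m₂ v r = z),
          Mas G B ρ p r (m₁ r) (m₂ r) ∧ m₁ r ≠ m₂ r ∧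
          ((m₁ r = v ∧ m₂ r = z) ∨ (m₁ r = z ∧ m₂ r = v)) ∧ ρ (p r) ≤ ρ r ∧
          (bond G B ρ p (m₂ r) (m₁ r)).card < s := by
        intro r hr
        obtain ⟨hr1, hr2⟩ := Finset.mem_filter.mp hr
        obtain ⟨hr3, hr4⟩ := Finset.mem_filter.mp hr1
        obtain ⟨x, hx1, hx2, hx3⟩ := mem_Rv hr3
        have h := good_master L hm hv hx1 hx2
        rw [hx3] at h
        refine ⟨hm r ⟨v, h.1⟩, hr4.1, ?_, ?_, hr4.2⟩
        · unfold oth at hr2
          by_cases h1 : m₁ r = v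
          · rw [if_pos h1] at hr2
            exact Or.inl ⟨h1, hr2⟩
          · rw [if_neg h1] at hr2
            rcases h.2 with h' | h'
            · exact absurd h'.symm h1
            · exact Or.inr ⟨hr2, h'.symm⟩
        · rw [← hx3]; exact rep_rank L x
      have h0 := hall r₀ hr₀
      -- all of them lie in the same bond
      have hsub : (Rm G B ρ p s m₁ m₂ v).filter (fun r => oth m₁ m₂ v r = z) ⊆
          bond G B ρ p (m₂ r₀) (m₁ r₀) := by
        intro r hr
        have h := hall r hr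
        have hmem := mem_bond L h.1 h.2.2.2.1
        have hlt : ∀ r, Mas G B ρ p r (m₁ r) (m₂ r) → m₁ r ≠ m₂ r → ρ (m₂ r) < ρ (m₁ r) := by
          intro r M hne
          rcases M.h3.lt_or_eq with h | h
          · exact h
          · exact absurd (L.ρ_inj _ (mem_Y.mp M.h2).1 _ (mem_Y.mp M.h1).1 h).symm hne
        have l1 := hlt r h.1 h.2.1
        have l2 := hlt r₀ h0.1 h0.2.1
        rcases h.2.2.1 with ⟨a1, a2⟩ | ⟨a1, a2⟩ <;> rcases h0.2.2.1 with ⟨b1, b2⟩ | ⟨b1, b2⟩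
        · rw [b1, b2, ← a1, ← a2]; exact hmem
        · rw [a1, a2] at l1; rw [b1, b2] at l2; omega
        · rw [a1, a2] at l1; rw [b1, b2] at l2; omega
        · rw [b1, b2, ← a1, ← a2]; exact hmem
      exact (Finset.card_le_card hsub).trans h0.2.2.2.2.le
  have hcard : ((Rm G B ρ p s m₁ m₂ v).filter (fun r => rep ρ p (oth m₁ m₂ v r) = P)).card ≤
      2 * s := by
    have hsub : (Rm G B ρ p s m₁ m₂ v).filter (fun r => rep ρ p (oth m₁ m₂ v r) = P) ⊆
        (Rm G B ρ p s m₁ m₂ v).filter (fun r => oth m₁ m₂ v r = P) ∪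
        (Rm G B ρ p s m₁ m₂ v).filter (fun r => oth m₁ m₂ v r = p P) := by
      intro r hr
      obtain ⟨hr1, hr2⟩ := Finset.mem_filter.mp hr
      rw [Finset.mem_union, Finset.mem_filter, Finset.mem_filter]
      rcases rep_or (ρ := ρ) (p := p) (oth m₁ m₂ v r) with h | h
      · left; exact ⟨hr1, by rw [← hr2, h]⟩
      · right; exact ⟨hr1, by rw [← hr2, h, L.p_invol]⟩
    have h := (Finset.card_le_card hsub).trans (Finset.card_union_le _ _)
    have h1 := hz P
    have h2 := hz (p P)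
    omega
  calc ∑ r ∈ (Rm G B ρ p s m₁ m₂ v).filter (fun r => rep ρ p (oth m₁ m₂ v r) = P),
      (wt G B ρ p v r : ℝ) ≤ ∑ r ∈ (Rm G B ρ p s m₁ m₂ v).filter
        (fun r => rep ρ p (oth m₁ m₂ v r) = P), (2 : ℝ) := by
        refine Finset.sum_le_sum (fun r _ => ?_)
        exact_mod_cast wt_le L v r
    _ = 2 * ((Rm G B ρ p s m₁ m₂ v).filter (fun r => rep ρ p (oth m₁ m₂ v r) = P)).card := by
        rw [Finset.sum_const, nsmul_eq_mul]; ring
    _ ≤ 4 * s := by
        have : (((Rm G B ρ p s m₁ m₂ v).filter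
          (fun r => rep ρ p (oth m₁ m₂ v r) = P)).card : ℝ) ≤ 2 * s := by exact_mod_cast hcard
        linarith

/-- probability of the first bad event -/
theorem E1_prob {K : ℕ} (hK0 : 0 < K) (hs0 : 0 < s) (L : Layout G B c₀ s ρ p)
    {m₁ m₂ : V → V} (hm : ∀ r, (Y G B ρ p r).Nonempty → Mas G B ρ p r (m₁ r) (m₂ r)) {v : V}
    (hv : v ∈ B) (σ : Bool)
    (hW : (K : ℝ) / 4 ≤ ∑ r ∈ Rm G B ρ p s m₁ m₂ v, (wt G B ρ p v r : ℝ)) :
    (((Finset.univ.filter (fun ω : V → Bool × Fin (2 * (4 * K)) =>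
      E1 G B ρ p s m₁ m₂ (4 * K) σ v ω)).card : ℕ) : ℝ) ≤
      Real.exp (1 / 64 - K / (128 * s)) * Fintype.card (V → Bool × Fin (2 * (4 * K))) := by
  have hsr : (0 : ℝ) < s := by exact_mod_cast hs0
  have hC : 0 < Fintype.card (Bool × Fin (2 * (4 * K))) := by rw [card_C]; omega
  set q : V → V := fun r => rep ρ p (oth m₁ m₂ v r) with hq
  set U : V → ℝ := fun P => ∑ r ∈ (Rm G B ρ p s m₁ m₂ v).filter (fun r => q r = P),
    (wt G B ρ p v r : ℝ) with hU
  have hU0 : ∀ P, 0 ≤ U P := fun P => Finset.sum_nonneg (fun r _ => Nat.cast_nonneg _)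
  have hU4 : ∀ P, U P ≤ 4 * s := fun P => minor_weight L hm hv P
  set I := (Rm G B ρ p s m₁ m₂ v).image q with hI
  have hmaps : ∀ r ∈ Rm G B ρ p s m₁ m₂ v, q r ∈ I := fun r hr => Finset.mem_image_of_mem _ hr
  let F : V → (V → Bool × Fin (2 * (4 * K))) → ℝ := fun P ω =>
    Real.exp (-(U P / (4 * s) * aInd (4 * K) σ (ω P)) + U P / (4 * s) / 8)
  have hprod := prod_le ρ F I.card I rfl (fun i _ ω => (Real.exp_pos _).le) (by
    intro i _ ω ω' h
    simp only [F]
    rw [h i (Or.inl rfl)]) (by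
    intro i _ ω
    simp only [F, Function.update_self]
    exact aInd_mgf (by omega) σ (U i / (4 * s)) (by have := hU0 i; positivity) (by
      rw [div_le_one (by positivity)]; exact hU4 i)) hC
  have hmk := markov (fun ω => ∏ i ∈ I, F i ω) (fun ω => Finset.prod_nonneg
    (fun i _ => (Real.exp_pos _).le)) _ (Real.exp (-(1 / 64) + K / (128 * s))) (Real.exp_pos _) hprod
    (fun ω => E1 G B ρ p s m₁ m₂ (4 * K) σ v ω) (by
    intro ω hω
    unfold E1 at hω
    simp only [F]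
    rw [← Real.exp_sum]
    apply Real.exp_le_exp.mpr
    have e1 : ∑ P ∈ I, U P * aInd (4 * K) σ (ω P) =
        ∑ r ∈ Rm G B ρ p s m₁ m₂ v, (wt G B ρ p v r : ℝ) * aInd (4 * K) σ (ω (q r)) := by
      rw [← Finset.sum_fiberwise_of_maps_to hmaps]
      refine Finset.sum_congr rfl (fun P _ => ?_)
      rw [hU, Finset.sum_mul]
      refine Finset.sum_congr rfl (fun r hr => ?_)
      rw [(Finset.mem_filter.mp hr).2]
    have e2 : ∑ P ∈ I, U P = ∑ r ∈ Rm G B ρ p s m₁ m₂ v, (wt G B ρ p v r : ℝ) := by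
      rw [← Finset.sum_fiberwise_of_maps_to hmaps]
    have e3 : ∑ P ∈ I, (-(U P / (4 * s) * aInd (4 * K) σ (ω P)) + U P / (4 * s) / 8) =
        -(1 / (4 * s)) * ∑ P ∈ I, U P * aInd (4 * K) σ (ω P) + (1 / (32 * s)) * ∑ P ∈ I, U P := by
      rw [Finset.mul_sum, Finset.mul_sum, ← Finset.sum_add_distrib]
      refine Finset.sum_congr rfl (fun P _ => ?_)
      field_simp
      ring
    rw [e3, e1, e2]
    have h1 : (1 / (4 * (s : ℝ))) * ∑ r ∈ Rm G B ρ p s m₁ m₂ v, (wt G B ρ p v r : ℝ) *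
        aInd (4 * K) σ (ω (q r)) ≤ (1 / (4 * (s : ℝ))) * (s / 16) :=
      mul_le_mul_of_nonneg_left hω.le (by positivity)
    have h2 : (1 / (32 * (s : ℝ))) * (K / 4) ≤
        (1 / (32 * (s : ℝ))) * ∑ r ∈ Rm G B ρ p s m₁ m₂ v, (wt G B ρ p v r : ℝ) :=
      mul_le_mul_of_nonneg_left hW (by positivity)
    have h3 : (1 / (4 * (s : ℝ))) * (s / 16) = 1 / 64 := by field_simp; norm_num
    have h4 : (1 / (32 * (s : ℝ))) * (K / 4) = K / (128 * s) := by field_simp; norm_num
    rw [h3] at h1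
    rw [h4] at h2
    linarith)
  refine hmk.trans (le_of_eq ?_)
  rw [div_eq_mul_inv, ← Real.exp_neg, mul_comm]
  congr 2
  ring

/-- the second bad event -/
def E2 (G : SimpleGraph V) (B : Finset V) (ρ : V → ℕ) (p : V → V) (s c₀ K : ℕ) (m₁ m₂ : V → V)
    (σ : Bool) (v : V) (ω : V → Bool × Fin (2 * (4 * K))) : Prop :=
  (∑ r ∈ Rv G B ρ p v, (wt G B ρ p v r : ℝ) *
        Xw ρ p (4 * K) (tau G B ρ p s (4 * K) m₁ m₂) m₁ m₂ σ v r ω < c₀ + 2) ∧
      (s : ℝ) / 32 ≤ ∑ r ∈ Rv G B ρ p v, (wt G B ρ p v r : ℝ) *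
        mu ρ p (4 * K) (tau G B ρ p s (4 * K) m₁ m₂) m₁ m₂ σ v r ω

/-- probability of the second bad event -/
theorem E2_prob {K : ℕ} (hK0 : 0 < K) (hs0 : 0 < s) (hsK : s ≤ K) (L : Layout G B c₀ s ρ p)
    {m₁ m₂ : V → V} (hm : ∀ r, (Y G B ρ p r).Nonempty → Mas G B ρ p r (m₁ r) (m₂ r)) {v : V}
    (hv : v ∈ B) (hdeg : (Finset.univ.filter (fun x => G.Adj v x)).card ≤ 2 * K) (σ : Bool) :
    (((Finset.univ.filter (fun ω : V → Bool × Fin (2 * (4 * K)) =>
      E2 G B ρ p s c₀ K m₁ m₂ σ v ω)).card : ℕ) : ℝ) ≤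
      Real.exp (s * (c₀ + 2) / (512 * K) - s ^ 2 / (32768 * K)) *
        Fintype.card (V → Bool × Fin (2 * (4 * K))) := by
  have hKr : (0 : ℝ) < K := by exact_mod_cast hK0
  have hsr : (0 : ℝ) < s := by exact_mod_cast hs0
  have hsKr : (s : ℝ) ≤ K := by exact_mod_cast hsK
  have hC : 0 < Fintype.card (Bool × Fin (2 * (4 * K))) := by rw [card_C]; omega
  have hN : 0 < 4 * K := by omega
  set τ := tau G B ρ p s (4 * K) m₁ m₂ with hτ
  set lam : ℝ := s / (512 * K) with hlam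
  have hlam0 : 0 < lam := by positivity
  have hlam1 : 2 * lam ≤ 1 := by
    rw [hlam, ← mul_div_assoc, div_le_one (by positivity)]
    linarith
  have hw2 : ∀ r, (wt G B ρ p v r : ℝ) ≤ 2 := fun r => by exact_mod_cast wt_le L v r
  have hw0 : ∀ r, (0 : ℝ) ≤ wt G B ρ p v r := fun r => Nat.cast_nonneg _
  have hwsum : ∑ r ∈ Rv G B ρ p v, (wt G B ρ p v r : ℝ) ≤ 2 * K := by
    have := wt_sum (G := G) (B := B) (ρ := ρ) (p := p) v
    have h2 := goodN_le (G := G) (B := B) (ρ := ρ) (p := p) v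
    have h3 : ∑ r ∈ Rv G B ρ p v, wt G B ρ p v r ≤ 2 * K := by omega
    exact_mod_cast h3
  have hmas : ∀ r ∈ Rv G B ρ p v, Mas G B ρ p r (m₁ r) (m₂ r) := by
    intro r hr
    obtain ⟨x, hx1, hx2, hx3⟩ := mem_Rv hr
    have h := good_master L hm hv hx1 hx2
    rw [hx3] at h
    exact hm r ⟨v, h.1⟩
  let F : V → (V → Bool × Fin (2 * (4 * K))) → ℝ := fun r ω =>
    Real.exp (-(lam * wt G B ρ p v r * Xw ρ p (4 * K) τ m₁ m₂ σ v r ω) +
      lam * wt G B ρ p v r * mu ρ p (4 * K) τ m₁ m₂ σ v r ω - 2 * (lam * wt G B ρ p v r) ^ 2)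
  have hprod := prod_le ρ F (Rv G B ρ p v).card (Rv G B ρ p v) rfl
    (fun i _ ω => (Real.exp_pos _).le) (by
    intro r hr ω ω' h
    have M := hmas r hr
    have h1 : ω r = ω' r := h r (Or.inl rfl)
    have h2 : ω (rep ρ p (m₁ r)) = ω' (rep ρ p (m₁ r)) := by
      apply h
      right
      exact lt_of_lt_of_le (mem_Y.mp M.h1).2.1 (le_rep _)
    have h3 : ω (rep ρ p (m₂ r)) = ω' (rep ρ p (m₂ r)) := by
      apply h
      right
      exact lt_of_lt_of_le (mem_Y.mp M.h2).2.1 (le_rep _)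
    have ha1 : al ρ p (4 * K) σ v (m₁ r) ω ↔ al ρ p (4 * K) σ v (m₁ r) ω' := by
      unfold al; rw [h2]
    have ha2 : al ρ p (4 * K) σ v (m₂ r) ω ↔ al ρ p (4 * K) σ v (m₂ r) ω' := by
      unfold al; rw [h3]
    simp only [F, Xw, mu, h1, ha1, ha2]) (by
    intro r hr ω
    have M := hmas r hr
    have hne := mas_rep_ne M
    have hmu : ∀ c, mu ρ p (4 * K) τ m₁ m₂ σ v r (Function.update ω r c) =
        mu ρ p (4 * K) τ m₁ m₂ σ v r ω := by
      intro c
      simp only [mu, al_update hne.1, al_update hne.2]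
    simp only [F, hmu]
    refine sign_mgf (fun c => Xw ρ p (4 * K) τ m₁ m₂ σ v r (Function.update ω r c))
      (fun c => Xw_sign _ _ _ _ _ _ _ _) (lam * wt G B ρ p v r) _ (by positivity) ?_ hC ?_
    · have := hw2 r
      nlinarith
    · exact sum_Xw hN (by
        have := (tau_bd (G := G) (B := B) (ρ := ρ) (p := p) (N := 4 * K) (s := s) (by omega)
          m₁ m₂ r).2
        rw [hτ]
        omega) M σ v ω) hC
  have hmk := markov (fun ω => ∏ i ∈ Rv G B ρ p v, F i ω) (fun ω => Finset.prod_nonneg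
    (fun i _ => (Real.exp_pos _).le)) _
    (Real.exp (-(s * (c₀ + 2) / (512 * K)) + s ^ 2 / (32768 * K))) (Real.exp_pos _) hprod
    (fun ω => E2 G B ρ p s c₀ K m₁ m₂ σ v ω) (by
    rintro ω ⟨hω1, hω2⟩
    simp only [F]
    rw [← Real.exp_sum]
    apply Real.exp_le_exp.mpr
    have e3 : ∑ r ∈ Rv G B ρ p v, (-(lam * wt G B ρ p v r * Xw ρ p (4 * K) τ m₁ m₂ σ v r ω) +
      lam * wt G B ρ p v r * mu ρ p (4 * K) τ m₁ m₂ σ v r ω - 2 * (lam * wt G B ρ p v r) ^ 2) =
        -lam * ∑ r ∈ Rv G B ρ p v, (wt G B ρ p v r : ℝ) * Xw ρ p (4 * K) τ m₁ m₂ σ v r ω +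
        lam * ∑ r ∈ Rv G B ρ p v, (wt G B ρ p v r : ℝ) * mu ρ p (4 * K) τ m₁ m₂ σ v r ω -
        2 * lam ^ 2 * ∑ r ∈ Rv G B ρ p v, (wt G B ρ p v r : ℝ) ^ 2 := by
      rw [Finset.mul_sum, Finset.mul_sum, Finset.mul_sum, ← Finset.sum_add_distrib,
        ← Finset.sum_sub_distrib]
      refine Finset.sum_congr rfl (fun P _ => ?_)
      ring
    rw [e3]
    have hsq : ∑ r ∈ Rv G B ρ p v, (wt G B ρ p v r : ℝ) ^ 2 ≤ 4 * K := by
      have : ∑ r ∈ Rv G B ρ p v, (wt G B ρ p v r : ℝ) ^ 2 ≤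
          ∑ r ∈ Rv G B ρ p v, 2 * (wt G B ρ p v r : ℝ) := by
        refine Finset.sum_le_sum (fun r _ => ?_)
        have h1 := hw2 r
        have h2 := hw0 r
        nlinarith
      rw [← Finset.mul_sum] at this
      linarith
    have h1 : lam * ∑ r ∈ Rv G B ρ p v, (wt G B ρ p v r : ℝ) * Xw ρ p (4 * K) τ m₁ m₂ σ v r ω ≤
        lam * (c₀ + 2) := mul_le_mul_of_nonneg_left hω1.le hlam0.le
    have h2 : lam * (s / 32) ≤ lam * ∑ r ∈ Rv G B ρ p v, (wt G B ρ p v r : ℝ) *
        mu ρ p (4 * K) τ m₁ m₂ σ v r ω := mul_le_mul_of_nonneg_left hω2 hlam0.le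
    have h3 : 2 * lam ^ 2 * ∑ r ∈ Rv G B ρ p v, (wt G B ρ p v r : ℝ) ^ 2 ≤ 2 * lam ^ 2 * (4 * K) :=
      mul_le_mul_of_nonneg_left hsq (by positivity)
    have h4 : lam * (s / 32) = s ^ 2 / (16384 * K) := by rw [hlam]; field_simp; norm_num
    have h5 : 2 * lam ^ 2 * (4 * K) = s ^ 2 / (32768 * K) := by rw [hlam]; field_simp; norm_num
    have h6 : lam * (c₀ + 2) = s * (c₀ + 2) / (512 * K) := by rw [hlam]; ring
    have h7 : (s : ℝ) ^ 2 / (16384 * K) = s ^ 2 / (32768 * K) + s ^ 2 / (32768 * K) := by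
      field_simp; norm_num
    rw [h4, h7] at h2
    rw [h5] at h3
    rw [h6] at h1
    linarith)
  refine hmk.trans (le_of_eq ?_)
  rw [div_eq_mul_inv, ← Real.exp_neg, mul_comm]
  congr 2
  ring

end Events

section Final

variable {V : Type} [Fintype V]
variable {G : SimpleGraph V} {B : Finset V} {c₀ s : ℕ} {ρ : V → ℕ} {p : V → V}

/-- seeds relevant for `v` -/
noncomputable def Sv (G : SimpleGraph V) (B : Finset V) (ρ : V → ℕ) (p : V → V) (m₁ m₂ : V → V)
    (v : V) : Finset V :=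
  Rv G B ρ p v ∪ ((Rv G B ρ p v).image (fun r => rep ρ p (m₁ r)) ∪
    (Rv G B ρ p v).image (fun r => rep ρ p (m₂ r)))

/-- vertices whose event may depend on the seed `t` -/
noncomputable def Zt (G : SimpleGraph V) (p : V → V) (m₁ m₂ : V → V) (t : V) : Finset V :=
  {m₁ t, m₂ t} ∪ ({t, p t} : Finset V).biUnion (fun z =>
    (Finset.univ.filter (fun x => G.Adj z x) ∪
      (Finset.univ.filter (fun x => G.Adj z x)).image p).biUnion (fun r => {m₁ r, m₂ r}))

theorem Zt_card {K : ℕ} (hK0 : 0 < K) (m₁ m₂ : V → V)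
    (hdeg : ∀ v, (Finset.univ.filter (fun x => G.Adj v x)).card ≤ 2 * K) (t : V) :
    (Zt G p m₁ m₂ t).card ≤ 18 * K := by
  have h1 : ∀ z, ((Finset.univ.filter (fun x => G.Adj z x) ∪
      (Finset.univ.filter (fun x => G.Adj z x)).image p).biUnion
        (fun r => ({m₁ r, m₂ r} : Finset V))).card ≤ 8 * K := by
    intro z
    refine Finset.card_biUnion_le.trans ?_
    have h2 : (Finset.univ.filter (fun x => G.Adj z x) ∪
      (Finset.univ.filter (fun x => G.Adj z x)).image p).card ≤ 4 * K := by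
      refine (Finset.card_union_le _ _).trans ?_
      have := hdeg z
      have h3 := Finset.card_image_le (s := Finset.univ.filter (fun x => G.Adj z x)) (f := p)
      omega
    refine (Finset.sum_le_card_nsmul _ _ 2 (fun r _ => Finset.card_le_two)).trans ?_
    rw [smul_eq_mul]
    omega
  have h2 : (({t, p t} : Finset V).biUnion (fun z =>
    (Finset.univ.filter (fun x => G.Adj z x) ∪
      (Finset.univ.filter (fun x => G.Adj z x)).image p).biUnion
        (fun r => ({m₁ r, m₂ r} : Finset V)))).card ≤ 16 * K := by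
    refine Finset.card_biUnion_le.trans ?_
    refine (Finset.sum_le_card_nsmul _ _ (8 * K) (fun r _ => h1 r)).trans ?_
    rw [smul_eq_mul]
    have : ({t, p t} : Finset V).card ≤ 2 := Finset.card_le_two
    nlinarith
  have h3 : ({m₁ t, m₂ t} : Finset V).card ≤ 2 := Finset.card_le_two
  have h4 := Finset.card_union_le ({m₁ t, m₂ t} : Finset V) (({t, p t} : Finset V).biUnion (fun z =>
    (Finset.univ.filter (fun x => G.Adj z x) ∪
      (Finset.univ.filter (fun x => G.Adj z x)).image p).biUnion (fun r => {m₁ r, m₂ r})))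
  unfold Zt
  omega

theorem mem_Zt (L : Layout G B c₀ s ρ p) {m₁ m₂ : V → V}
    (hm : ∀ r, (Y G B ρ p r).Nonempty → Mas G B ρ p r (m₁ r) (m₂ r)) {v t : V} (hv : v ∈ B)
    (ht : t ∈ Sv G B ρ p m₁ m₂ v) : v ∈ Zt G p m₁ m₂ t := by
  have hmas : ∀ r ∈ Rv G B ρ p v, Mas G B ρ p r (m₁ r) (m₂ r) ∧ (v = m₁ r ∨ v = m₂ r) := by
    intro r hr
    obtain ⟨x, hx1, hx2, hx3⟩ := mem_Rv hr
    have h := good_master L hm hv hx1 hx2
    rw [hx3] at h
    exact ⟨hm r ⟨v, h.1⟩, h.2⟩
  have hcase : ∀ r ∈ Rv G B ρ p v, ∀ z, z ∈ Y G B ρ p r → rep ρ p z = t →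
      v ∈ Zt G p m₁ m₂ t := by
    intro r hr z hz hzt
    unfold Zt
    rw [Finset.mem_union]
    right
    rw [Finset.mem_biUnion]
    refine ⟨z, ?_, ?_⟩
    · rw [Finset.mem_insert, Finset.mem_singleton]
      rcases rep_or (ρ := ρ) (p := p) z with h | h
      · left; rw [← hzt, h]
      · right; rw [← hzt, h, L.p_invol]
    · rw [Finset.mem_biUnion]
      refine ⟨r, ?_, ?_⟩
      · rw [Finset.mem_union]
        rcases (mem_Y.mp hz).2.2.2 with h | h
        · left; exact Finset.mem_filter.mpr ⟨Finset.mem_univ _, h.symm⟩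
        · right
          rw [Finset.mem_image]
          exact ⟨p r, Finset.mem_filter.mpr ⟨Finset.mem_univ _, h.symm⟩, L.p_invol r⟩
      · rw [Finset.mem_insert, Finset.mem_singleton]
        exact (hmas r hr).2
  unfold Sv at ht
  rw [Finset.mem_union, Finset.mem_union, Finset.mem_image, Finset.mem_image] at ht
  rcases ht with h | ⟨r, hr, hrt⟩ | ⟨r, hr, hrt⟩
  · unfold Zt
    rw [Finset.mem_union]
    left
    rw [Finset.mem_insert, Finset.mem_singleton]
    exact (hmas t h).2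
  · exact hcase r hr _ (hmas r hr).1.h1 hrt
  · exact hcase r hr _ (hmas r hr).1.h2 hrt

/-- the probabilistic part: a layout yields a colouring -/
theorem colour {k : ℕ} (L : Layout G B c₀ s ρ p)
    (hdeg : ∀ v, (Finset.univ.filter (fun x => G.Adj v x)).card ≤ 2 * (k + 1))
    (hB : ∀ v ∈ B, k + 1 ≤ (Finset.univ.filter (fun x => G.Adj v x)).card)
    (hB' : ∀ v, v ∉ B → (Finset.univ.filter (fun x => G.Adj v x)).card ≤ k)
    (hc : 4 * c₀ ≤ k + 1) (hs0 : 0 < s) (hs : s ≤ k + 1)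
    (hnum : 864 * ((k : ℝ) + 1) ^ 2 * (Real.exp (1 / 64 - (k + 1) / (128 * s)) +
      Real.exp (s * (c₀ + 2) / (512 * (k + 1)) - s ^ 2 / (32768 * (k + 1)))) ≤ 1) :
    ∃ col : V → Bool, ∀ v, (Finset.univ.filter (fun x => G.Adj v x ∧ col x = col v)).card ≤ k := by
  obtain ⟨m₁, m₂, hm⟩ := exists_masters L
  set K := k + 1 with hKdef
  have hK0 : 0 < K := Nat.succ_pos k
  have hKr : ((K : ℕ) : ℝ) = (k : ℝ) + 1 := by rw [hKdef]; push_cast; ring
  set e1 : ℝ := Real.exp (1 / 64 - K / (128 * s)) with he1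
  set e2 : ℝ := Real.exp (s * (c₀ + 2) / (512 * K) - s ^ 2 / (32768 * K)) with he2
  rw [← hKr] at hnum
  have he1p : 0 < e1 := Real.exp_pos _
  have he2p : 0 < e2 := Real.exp_pos _
  let Bad : V → (V → Bool × Fin (2 * (4 * K))) → Prop := fun v ω =>
    ∃ σ : Bool, ∑ r ∈ Rv G B ρ p v, (wt G B ρ p v r : ℝ) *
        Xw ρ p (4 * K) (tau G B ρ p s (4 * K) m₁ m₂) m₁ m₂ σ v r ω < c₀ + 2
  have hmas : ∀ v ∈ B, ∀ r ∈ Rv G B ρ p v, Mas G B ρ p r (m₁ r) (m₂ r) := by
    intro v hv r hr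
    obtain ⟨x, hx1, hx2, hx3⟩ := mem_Rv hr
    have h := good_master L hm hv hx1 hx2
    rw [hx3] at h
    exact hm r ⟨v, h.1⟩
  have hC : 0 < Fintype.card (V → Bool × Fin (2 * (4 * K))) := by
    rw [Fintype.card_fun, card_C]
    positivity
  obtain ⟨ω, hω⟩ := LLL.lll B Bad (Sv G B ρ p m₁ m₂) (by
    -- locality
    intro v hv ω ω' h
    rintro ⟨σ, hσ⟩
    refine ⟨σ, ?_⟩
    have : ∀ r ∈ Rv G B ρ p v, (wt G B ρ p v r : ℝ) *
        Xw ρ p (4 * K) (tau G B ρ p s (4 * K) m₁ m₂) m₁ m₂ σ v r ω' = (wt G B ρ p v r : ℝ) *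
        Xw ρ p (4 * K) (tau G B ρ p s (4 * K) m₁ m₂) m₁ m₂ σ v r ω := by
      intro r hr
      have h1 : ω r = ω' r := h r (by
        unfold Sv; rw [Finset.mem_union]; exact Or.inl hr)
      have h2 : ω (rep ρ p (m₁ r)) = ω' (rep ρ p (m₁ r)) := h _ (by
        unfold Sv; rw [Finset.mem_union, Finset.mem_union]
        exact Or.inr (Or.inl (Finset.mem_image_of_mem _ hr)))
      have h3 : ω (rep ρ p (m₂ r)) = ω' (rep ρ p (m₂ r)) := h _ (by
        unfold Sv; rw [Finset.mem_union, Finset.mem_union]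
        exact Or.inr (Or.inr (Finset.mem_image_of_mem _ hr)))
      have ha1 : al ρ p (4 * K) σ v (m₁ r) ω ↔ al ρ p (4 * K) σ v (m₁ r) ω' := by
        unfold al; rw [h2]
      have ha2 : al ρ p (4 * K) σ v (m₂ r) ω ↔ al ρ p (4 * K) σ v (m₂ r) ω' := by
        unfold al; rw [h3]
      simp only [Xw, h1, ha1, ha2]
    rw [Finset.sum_congr rfl this]
    exact hσ) (2 * (e1 + e2)) (108 * K ^ 2) (by positivity) (by
    -- probability
    intro v hv
    have hcov : LLL.ev (Bad v) ⊆ (Finset.univ : Finset Bool).biUnion (fun σ =>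
        (Finset.univ.filter (fun ω : V → Bool × Fin (2 * (4 * K)) =>
          (p v = v ∧ (K : ℝ) / 4 ≤ ∑ r ∈ Rm G B ρ p s m₁ m₂ v, (wt G B ρ p v r : ℝ)) ∧
            E1 G B ρ p s m₁ m₂ (4 * K) σ v ω)) ∪
        (Finset.univ.filter (fun ω : V → Bool × Fin (2 * (4 * K)) =>
          E2 G B ρ p s c₀ K m₁ m₂ σ v ω))) := by
      intro ω hω
      rw [LLL.mem_ev] at hω
      obtain ⟨σ, hσ⟩ := hω
      rw [Finset.mem_biUnion]
      refine ⟨σ, Finset.mem_univ _, ?_⟩
      rw [Finset.mem_union]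
      by_cases hE : (p v = v ∧ (K : ℝ) / 4 ≤ ∑ r ∈ Rm G B ρ p s m₁ m₂ v, (wt G B ρ p v r : ℝ)) ∧
            E1 G B ρ p s m₁ m₂ (4 * K) σ v ω
      · left; exact Finset.mem_filter.mpr ⟨Finset.mem_univ _, hE⟩
      · right
        refine Finset.mem_filter.mpr ⟨Finset.mem_univ _, hσ, ?_⟩
        refine mu_sum hc hK0 hs L hm hv (hdeg v) (hB v hv) σ ω ?_
        intro h1 h2 h3
        exact hE ⟨⟨h1, h2⟩, h3⟩
    have h1 : ∀ σ : Bool, (((Finset.univ.filter (fun ω : V → Bool × Fin (2 * (4 * K)) =>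
          (p v = v ∧ (K : ℝ) / 4 ≤ ∑ r ∈ Rm G B ρ p s m₁ m₂ v, (wt G B ρ p v r : ℝ)) ∧
            E1 G B ρ p s m₁ m₂ (4 * K) σ v ω)).card : ℕ) : ℝ) ≤
        e1 * Fintype.card (V → Bool × Fin (2 * (4 * K))) := by
      intro σ
      by_cases hcond : (p v = v ∧
          (K : ℝ) / 4 ≤ ∑ r ∈ Rm G B ρ p s m₁ m₂ v, (wt G B ρ p v r : ℝ))
      · refine le_trans ?_ (E1_prob hK0 hs0 L hm hv σ hcond.2)
        exact_mod_cast Finset.card_le_card (by
          intro ω hω
          exact Finset.mem_filter.mpr ⟨Finset.mem_univ _, (Finset.mem_filter.mp hω).2.2⟩)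
      · have : Finset.univ.filter (fun ω : V → Bool × Fin (2 * (4 * K)) =>
          (p v = v ∧ (K : ℝ) / 4 ≤ ∑ r ∈ Rm G B ρ p s m₁ m₂ v, (wt G B ρ p v r : ℝ)) ∧
            E1 G B ρ p s m₁ m₂ (4 * K) σ v ω) = ∅ := by
          rw [Finset.filter_eq_empty_iff]
          intro ω _ h
          exact hcond h.1
        rw [this]
        simp only [Finset.card_empty, Nat.cast_zero]
        positivity
    have h2 : ∀ σ : Bool, (((Finset.univ.filter (fun ω : V → Bool × Fin (2 * (4 * K)) =>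
          E2 G B ρ p s c₀ K m₁ m₂ σ v ω)).card : ℕ) : ℝ) ≤
        e2 * Fintype.card (V → Bool × Fin (2 * (4 * K))) := fun σ =>
      E2_prob hK0 hs0 hs L hm hv (hdeg v) σ
    have h3 := (Finset.card_le_card hcov).trans Finset.card_biUnion_le
    have h4 : (LLL.cnt (Bad v) : ℝ) ≤ ∑ σ : Bool,
        (((Finset.univ.filter (fun ω : V → Bool × Fin (2 * (4 * K)) =>
          (p v = v ∧ (K : ℝ) / 4 ≤ ∑ r ∈ Rm G B ρ p s m₁ m₂ v, (wt G B ρ p v r : ℝ)) ∧
            E1 G B ρ p s m₁ m₂ (4 * K) σ v ω)) ∪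
        (Finset.univ.filter (fun ω : V → Bool × Fin (2 * (4 * K)) =>
          E2 G B ρ p s c₀ K m₁ m₂ σ v ω))).card : ℝ) := by
      exact_mod_cast h3
    refine h4.trans ?_
    rw [Fintype.sum_bool]
    have h5 : ∀ σ : Bool, ((((Finset.univ.filter (fun ω : V → Bool × Fin (2 * (4 * K)) =>
          (p v = v ∧ (K : ℝ) / 4 ≤ ∑ r ∈ Rm G B ρ p s m₁ m₂ v, (wt G B ρ p v r : ℝ)) ∧
            E1 G B ρ p s m₁ m₂ (4 * K) σ v ω)) ∪
        (Finset.univ.filter (fun ω : V → Bool × Fin (2 * (4 * K)) =>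
          E2 G B ρ p s c₀ K m₁ m₂ σ v ω))).card : ℕ) : ℝ) ≤
        (e1 + e2) * Fintype.card (V → Bool × Fin (2 * (4 * K))) := by
      intro σ
      have h6 := Finset.card_union_le (Finset.univ.filter (fun ω : V → Bool × Fin (2 * (4 * K)) =>
          (p v = v ∧ (K : ℝ) / 4 ≤ ∑ r ∈ Rm G B ρ p s m₁ m₂ v, (wt G B ρ p v r : ℝ)) ∧
            E1 G B ρ p s m₁ m₂ (4 * K) σ v ω)) (Finset.univ.filter
          (fun ω : V → Bool × Fin (2 * (4 * K)) => E2 G B ρ p s c₀ K m₁ m₂ σ v ω))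
      have h7 : ((((Finset.univ.filter (fun ω : V → Bool × Fin (2 * (4 * K)) =>
          (p v = v ∧ (K : ℝ) / 4 ≤ ∑ r ∈ Rm G B ρ p s m₁ m₂ v, (wt G B ρ p v r : ℝ)) ∧
            E1 G B ρ p s m₁ m₂ (4 * K) σ v ω)) ∪
        (Finset.univ.filter (fun ω : V → Bool × Fin (2 * (4 * K)) =>
          E2 G B ρ p s c₀ K m₁ m₂ σ v ω))).card : ℕ) : ℝ) ≤
          (((Finset.univ.filter (fun ω : V → Bool × Fin (2 * (4 * K)) =>
          (p v = v ∧ (K : ℝ) / 4 ≤ ∑ r ∈ Rm G B ρ p s m₁ m₂ v, (wt G B ρ p v r : ℝ)) ∧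
            E1 G B ρ p s m₁ m₂ (4 * K) σ v ω)).card : ℕ) : ℝ) +
          (((Finset.univ.filter (fun ω : V → Bool × Fin (2 * (4 * K)) =>
          E2 G B ρ p s c₀ K m₁ m₂ σ v ω)).card : ℕ) : ℝ) := by exact_mod_cast h6
      have := h1 σ
      have := h2 σ
      linarith
    have := h5 true
    have := h5 false
    linarith) (by
    -- dependency degree
    intro v hv
    have hsub : B.filter (fun j => ¬ Disjoint (Sv G B ρ p m₁ m₂ v) (Sv G B ρ p m₁ m₂ j)) ⊆
        (Sv G B ρ p m₁ m₂ v).biUnion (fun t => Zt G p m₁ m₂ t) := by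
      intro j hj
      obtain ⟨hjB, hj2⟩ := Finset.mem_filter.mp hj
      rw [Finset.not_disjoint_iff] at hj2
      obtain ⟨t, ht1, ht2⟩ := hj2
      rw [Finset.mem_biUnion]
      exact ⟨t, ht1, mem_Zt L hm hjB ht2⟩
    refine (Finset.card_le_card hsub).trans (Finset.card_biUnion_le.trans ?_)
    refine (Finset.sum_le_card_nsmul _ _ (18 * K)
      (fun t _ => Zt_card hK0 m₁ m₂ hdeg t)).trans ?_
    rw [smul_eq_mul]
    have hR : (Rv G B ρ p v).card ≤ 2 * K := by
      unfold Rv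
      exact Finset.card_image_le.trans ((goodN_le v).trans (hdeg v))
    have hS : (Sv G B ρ p m₁ m₂ v).card ≤ 6 * K := by
      unfold Sv
      have a1 := Finset.card_union_le (Rv G B ρ p v) ((Rv G B ρ p v).image (fun r => rep ρ p (m₁ r)) ∪
        (Rv G B ρ p v).image (fun r => rep ρ p (m₂ r)))
      have a2 := Finset.card_union_le ((Rv G B ρ p v).image (fun r => rep ρ p (m₁ r)))
        ((Rv G B ρ p v).image (fun r => rep ρ p (m₂ r)))
      have a3 := Finset.card_image_le (s := Rv G B ρ p v) (f := fun r => rep ρ p (m₁ r))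
      have a4 := Finset.card_image_le (s := Rv G B ρ p v) (f := fun r => rep ρ p (m₂ r))
      omega
    nlinarith) (by
    push_cast
    have : 4 * (2 * (e1 + e2)) * (108 * (K : ℝ) ^ 2) = 864 * (K : ℝ) ^ 2 * (e1 + e2) := by ring
    rw [this]
    exact hnum) (by
    have : 1 ≤ K ^ 2 := Nat.one_le_pow _ _ hK0
    omega) hC
  refine colour_of_not_bad L hm (4 * K) (tau G B ρ p s (4 * K) m₁ m₂) k ?_ hB' ω ?_
  · intro v; have := hdeg v; omega
  · intro v hv σ
    by_contra hcon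
    exact hω v hv ⟨σ, not_le.mp hcon⟩

end Final

end Pool.Agent.Helper805.CHS
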