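import Pool.Agent.Helper805.CHS.Basic


namespace Pool.Agent.Helper805.CHS

/-- two vertex sets are joined by an edge -/
def Rl {V : Type} (G : SimpleGraph V) (A B : Set V) : Prop := ∃ a ∈ A, ∃ b ∈ B, G.Adj a b

theorem Rl.symm {V : Type} {G : SimpleGraph V} {A B : Set V} (h : Rl G A B) : Rl G B A := by
  obtain ⟨a, ha, b, hb, hab⟩ := h
  exact ⟨b, hb, a, ha, hab.symm⟩

theorem Rl.mono {V : Type} {G : SimpleGraph V} {A B A' B' : Set V} (h : Rl G A B)
    (h1 : A ⊆ A') (h2 : B ⊆ B') : Rl G A' B' := by
  obtain ⟨a, ha, b, hb, hab⟩ := h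
  exact ⟨a, h1 ha, b, h2 hb, hab⟩

/-- admissible families of branch sets -/
structure Fam {V : Type} (G : SimpleGraph V) (P : Finset (Set V)) : Prop where
  conn : ∀ A ∈ P, (G.induce A).Connected
  disj : ∀ A ∈ P, ∀ B ∈ P, A ≠ B → Disjoint A B

open Classical in
/-- ordered adjacent pairs -/
noncomputable def prs {V : Type} (G : SimpleGraph V) (P : Finset (Set V)) :
    Finset (Set V × Set V) := (P ×ˢ P).filter (fun p => p.1 ≠ p.2 ∧ Rl G p.1 p.2)

theorem mem_prs {V : Type} {G : SimpleGraph V} {P : Finset (Set V)} {p : Set V × Set V} :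
    p ∈ prs G P ↔ p.1 ∈ P ∧ p.2 ∈ P ∧ p.1 ≠ p.2 ∧ Rl G p.1 p.2 := by
  classical
  unfold prs
  rw [Finset.mem_filter, Finset.mem_product]
  tauto

theorem prs_card_ge {V : Type} (G : SimpleGraph V) (Q : Finset (Set V)) (c : ℕ)
    (h : ∀ B ∈ Q, ∃ T : Finset (Set V), c ≤ T.card ∧ ∀ D ∈ T, D ∈ Q ∧ B ≠ D ∧ Rl G B D) :
    Q.card * c ≤ (prs G Q).card := by
  classical
  have h' : ∀ B, ∃ T : Finset (Set V), B ∈ Q → (c ≤ T.card ∧ ∀ D ∈ T, D ∈ Q ∧ B ≠ D ∧ Rl G B D) := by
    intro B
    by_cases hB : B ∈ Q
    · obtain ⟨T, hT⟩ := h B hB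
      exact ⟨T, fun _ => hT⟩
    · exact ⟨∅, fun h => absurd h hB⟩
  choose T hT using h'
  have h1 : (Q.sigma T).card ≤ (prs G Q).card := by
    apply Finset.card_le_card_of_injOn (fun x => (x.1, x.2))
    · intro x hx
      obtain ⟨hx1, hx2⟩ := Finset.mem_sigma.1 (Finset.mem_coe.1 hx)
      obtain ⟨g1, g2, g3⟩ := (hT x.1 hx1).2 x.2 hx2
      exact Finset.mem_coe.2 (mem_prs.2 ⟨hx1, g1, g2, g3⟩)
    · intro x _ y _ hxy
      obtain ⟨e1, e2⟩ := Prod.mk.inj hxy
      cases x; cases y
      simp only at e1 e2
      subst e1; subst e2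
      rfl
  rw [Finset.card_sigma] at h1
  refine le_trans ?_ h1
  rw [← smul_eq_mul]
  exact Finset.card_nsmul_le_sum Q _ c (fun B hB => (hT B hB).1)

open Classical in
/-- common neighbours -/
noncomputable def cmn {V : Type} (G : SimpleGraph V) (P : Finset (Set V)) (A B : Set V) :
    Finset (Set V) := P.filter (fun D => D ≠ A ∧ D ≠ B ∧ Rl G A D ∧ Rl G B D)

theorem mem_cmn {V : Type} {G : SimpleGraph V} {P : Finset (Set V)} {A B D : Set V} :
    D ∈ cmn G P A B ↔ D ∈ P ∧ D ≠ A ∧ D ≠ B ∧ Rl G A D ∧ Rl G B D := by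
  classical
  unfold cmn
  rw [Finset.mem_filter]

theorem nonempty_of_conn {V : Type} {G : SimpleGraph V} {A : Set V}
    (h : (G.induce A).Connected) : A.Nonempty := by
  obtain ⟨a⟩ := h.nonempty
  exact ⟨a.1, a.2⟩

/-- contraction of an edge of the quotient -/
theorem contract_step {V : Type} {G : SimpleGraph V} {P : Finset (Set V)} (hP : Fam G P)
    {A B : Set V} (hA : A ∈ P) (hB : B ∈ P) (hAB : A ≠ B) (hR : Rl G A B) :
    ∃ P' : Finset (Set V), Fam G P' ∧ P'.card + 1 = P.card ∧
      (prs G P).card ≤ (prs G P').card + 2 + 2 * (cmn G P A B).card ∧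
      (∀ D ∈ P', ∃ D' ∈ P, D' ⊆ D) ∧ (∀ D ∈ P', ∀ v ∈ D, ∃ D' ∈ P, v ∈ D') := by
  classical
  have hdAB := hP.disj A hA B hB hAB
  have hAne := nonempty_of_conn (hP.conn A hA)
  have hBne := nonempty_of_conn (hP.conn B hB)
  set C : Set V := A ∪ B with hC
  have hCA : C ≠ A := by
    intro h
    obtain ⟨b, hb⟩ := hBne
    have : b ∈ A := by rw [← h]; exact Or.inr hb
    exact Set.disjoint_left.1 hdAB this hb
  have hCP : C ∉ P := by
    intro h
    obtain ⟨a, ha⟩ := hAne
    exact Set.disjoint_left.1 (hP.disj C h A hA hCA) (Or.inl ha) ha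
  set P2 : Finset (Set V) := (P.erase A).erase B with hP2
  have hmem2 : ∀ D, D ∈ P2 ↔ D ∈ P ∧ D ≠ A ∧ D ≠ B := by
    intro D
    rw [hP2, Finset.mem_erase, Finset.mem_erase]
    tauto
  have hC2 : C ∉ P2 := fun h => hCP ((hmem2 C).1 h).1
  have hcard2 : P2.card + 2 = P.card := by
    have h1 : P2.card + 1 = (P.erase A).card :=
      Finset.card_erase_add_one (Finset.mem_erase.2 ⟨hAB.symm, hB⟩)
    have h2 := Finset.card_erase_add_one hA
    omega
  have hdisjC : ∀ D ∈ P2, Disjoint C D := by
    intro D hD
    obtain ⟨h1, h2, h3⟩ := (hmem2 D).1 hD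
    rw [hC, Set.disjoint_union_left]
    exact ⟨hP.disj A hA D h1 h2.symm, hP.disj B hB D h1 h3.symm⟩
  refine ⟨insert C P2, ⟨?_, ?_⟩, ?_, ?_, ?_, ?_⟩
  · intro D hD
    rcases Finset.mem_insert.1 hD with h | h
    · obtain ⟨a, ha, b, hb, hab⟩ := hR
      rw [h]
      exact SimpleGraph.connected_induce_union (hP.conn A hA).preconnected (hP.conn B hB).preconnected
        ha hb hab
    · exact hP.conn D ((hmem2 D).1 h).1
  · intro D hD D' hD' hne
    rcases Finset.mem_insert.1 hD with h | h <;> rcases Finset.mem_insert.1 hD' with h' | h'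
    · exact absurd (h.trans h'.symm) hne
    · rw [h]; exact hdisjC D' h'
    · rw [h']; exact (hdisjC D h).symm
    · exact hP.disj D ((hmem2 D).1 h).1 D' ((hmem2 D').1 h').1 hne
  · rw [Finset.card_insert_of_notMem hC2]
    omega
  · -- counting
    set ρ : Set V → Set V := fun D => if D = A ∨ D = B then C else D with hρ
    have ρC : ∀ D, (D = A ∨ D = B) → ρ D = C := fun D h => if_pos h
    have ρN : ∀ D, ¬ (D = A ∨ D = B) → ρ D = D := fun D h => if_neg h
    have ρmem : ∀ D ∈ P, ρ D ∈ insert C P2 := by
      intro D hD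
      by_cases h : D = A ∨ D = B
      · rw [ρC D h]; exact Finset.mem_insert_self _ _
      · rw [ρN D h]
        push Not at h
        exact Finset.mem_insert_of_mem ((hmem2 D).2 ⟨hD, h.1, h.2⟩)
    have ρsub : ∀ D, D ⊆ ρ D := by
      intro D
      by_cases h : D = A ∨ D = B
      · rw [ρC D h]
        rcases h with h | h
        · rw [h]; exact Set.subset_union_left
        · rw [h]; exact Set.subset_union_right
      · rw [ρN D h]
    have ρinj : ∀ D ∈ P, ∀ E ∈ P, ρ D = ρ E →
        D = E ∨ (D = A ∧ E = B) ∨ (D = B ∧ E = A) := by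
      intro D hD E hE h
      by_cases h1 : D = A ∨ D = B <;> by_cases h2 : E = A ∨ E = B
      · rcases h1 with h1 | h1 <;> rcases h2 with h2 | h2
        · left; rw [h1, h2]
        · right; left; exact ⟨h1, h2⟩
        · right; right; exact ⟨h1, h2⟩
        · left; rw [h1, h2]
      · exfalso
        rw [ρC D h1, ρN E h2] at h
        exact hCP (h ▸ hE)
      · exfalso
        rw [ρN D h1, ρC E h2] at h
        exact hCP (h ▸ hD)
      · left
        rwa [ρN D h1, ρN E h2] at h
    set S0 := (prs G P).filter (fun p => ¬ (p = (A, B) ∨ p = (B, A)) ∧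
      ¬ (p.1 = B ∧ Rl G A p.2) ∧ ¬ (p.2 = B ∧ Rl G A p.1)) with hS0
    have hle1 : S0.card ≤ (prs G (insert C P2)).card := by
      apply Finset.card_le_card_of_injOn (fun p => (ρ p.1, ρ p.2))
      · intro p hp
        obtain ⟨hp1, hp2, hp3, hp4⟩ := Finset.mem_filter.1 (Finset.mem_coe.1 hp)
        obtain ⟨g1, g2, g3, g4⟩ := mem_prs.1 hp1
        apply Finset.mem_coe.2
        rw [mem_prs]
        refine ⟨ρmem _ g1, ρmem _ g2, ?_, g4.mono (ρsub _) (ρsub _)⟩
        intro h
        rcases ρinj _ g1 _ g2 h with h | ⟨h, h'⟩ | ⟨h, h'⟩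
        · exact g3 h
        · exact hp2 (Or.inl (Prod.ext h h'))
        · exact hp2 (Or.inr (Prod.ext h h'))
      · intro p hp q hq hpq
        obtain ⟨hp1, hp2, hp3, hp4⟩ := Finset.mem_filter.1 (Finset.mem_coe.1 hp)
        obtain ⟨g1, g2, g3, g4⟩ := mem_prs.1 hp1
        obtain ⟨hq1, hq2, hq3, hq4⟩ := Finset.mem_filter.1 (Finset.mem_coe.1 hq)
        obtain ⟨k1, k2, k3, k4⟩ := mem_prs.1 hq1
        obtain ⟨e1, e2⟩ := Prod.mk.inj hpq
        rcases ρinj _ g1 _ k1 e1 with a | ⟨a, a'⟩ | ⟨a, a'⟩ <;>
        rcases ρinj _ g2 _ k2 e2 with b | ⟨b, b'⟩ | ⟨b, b'⟩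
        · exact Prod.ext a b
        · exfalso
          apply hq4
          refine ⟨b', ?_⟩
          rw [← a, ← b]; exact g4.symm
        · exfalso
          apply hp4
          refine ⟨b, ?_⟩
          rw [a, ← b']; exact k4.symm
        · exfalso
          apply hq3
          refine ⟨a', ?_⟩
          rw [← a, ← b]; exact g4
        · exact absurd (a.trans b.symm) g3
        · exact absurd (Or.inl (Prod.ext a b)) hp2
        · exfalso
          apply hp3
          refine ⟨a, ?_⟩
          rw [b, ← a']; exact k4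
        · exact absurd (Or.inr (Prod.ext a b)) hp2
        · exact absurd (a.trans b.symm) g3
    have hsub : prs G P ⊆ S0 ∪ (({(A, B), (B, A)} : Finset (Set V × Set V)) ∪
        ((cmn G P A B).image (fun D => (B, D)) ∪ (cmn G P A B).image (fun D => (D, B)))) := by
      intro p hp
      obtain ⟨g1, g2, g3, g4⟩ := mem_prs.1 hp
      by_cases h1 : p = (A, B) ∨ p = (B, A)
      · apply Finset.mem_union_right
        apply Finset.mem_union_left
        rcases h1 with h | h <;> rw [h] <;> simp
      · by_cases h2 : p.1 = B ∧ Rl G A p.2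
        · apply Finset.mem_union_right
          apply Finset.mem_union_right
          apply Finset.mem_union_left
          refine Finset.mem_image.2 ⟨p.2, ?_, Prod.ext h2.1.symm rfl⟩
          rw [mem_cmn]
          refine ⟨g2, ?_, ?_, h2.2, ?_⟩
          · intro h
            exact h1 (Or.inr (Prod.ext h2.1 h))
          · intro h
            exact g3 (h2.1.trans h.symm)
          · rw [← h2.1]; exact g4
        · by_cases h3 : p.2 = B ∧ Rl G A p.1
          · apply Finset.mem_union_right
            apply Finset.mem_union_right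
            apply Finset.mem_union_right
            refine Finset.mem_image.2 ⟨p.1, ?_, Prod.ext rfl h3.1.symm⟩
            rw [mem_cmn]
            refine ⟨g1, ?_, ?_, h3.2, ?_⟩
            · intro h
              exact h1 (Or.inl (Prod.ext h h3.1))
            · intro h
              exact g3 (h.trans h3.1.symm)
            · rw [← h3.1]; exact g4.symm
          · apply Finset.mem_union_left
            exact Finset.mem_filter.2 ⟨hp, h1, h2, h3⟩
    have c1 := Finset.card_le_card hsub
    have c2 := Finset.card_union_le S0 (({(A, B), (B, A)} : Finset (Set V × Set V)) ∪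
        ((cmn G P A B).image (fun D => (B, D)) ∪ (cmn G P A B).image (fun D => (D, B))))
    have c3 := Finset.card_union_le ({(A, B), (B, A)} : Finset (Set V × Set V))
        ((cmn G P A B).image (fun D => (B, D)) ∪ (cmn G P A B).image (fun D => (D, B)))
    have c4 := Finset.card_union_le ((cmn G P A B).image (fun D => (B, D)))
      ((cmn G P A B).image (fun D => (D, B)))
    have c5 := Finset.card_image_le (s := cmn G P A B) (f := fun D => (B, D))
    have c6 := Finset.card_image_le (s := cmn G P A B) (f := fun D => (D, B))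
    have c7 : ({(A, B), (B, A)} : Finset (Set V × Set V)).card ≤ 2 := Finset.card_le_two
    omega
  · intro D hD
    rcases Finset.mem_insert.1 hD with h | h
    · exact ⟨A, hA, by rw [h]; exact Set.subset_union_left⟩
    · exact ⟨D, ((hmem2 D).1 h).1, le_rfl⟩
  · intro D hD v hv
    rcases Finset.mem_insert.1 hD with h | h
    · rw [h] at hv
      rcases hv with hv | hv
      · exact ⟨A, hA, hv⟩
      · exact ⟨B, hB, hv⟩
    · exact ⟨D, ((hmem2 D).1 h).1, hv⟩

/-- models of complete graphs made of unions of branch sets -/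
def Mod {V : Type} (G : SimpleGraph V) (P : Finset (Set V)) (t : ℕ) : Prop :=
  ∃ f : Fin t → Set V, (∀ i, (G.induce (f i)).Connected) ∧
    (∀ i j, i ≠ j → Disjoint (f i) (f j)) ∧
    (∀ i j, i ≠ j → Rl G (f i) (f j)) ∧
    (∀ i, ∃ D ∈ P, D ⊆ f i) ∧ (∀ i, ∀ v ∈ f i, ∃ D ∈ P, v ∈ D)

theorem mader {V : Type} (G : SimpleGraph V) (k : ℕ) : ∀ P : Finset (Set V), Fam G P →
    2 * (2 ^ k - 1) * P.card < (prs G P).card → Mod G P (k + 2) := by
  classical
  induction k with
  | zero =>
    intro P hP hc
    have : 0 < (prs G P).card := by simpa using hc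
    obtain ⟨p, hp⟩ := Finset.card_pos.1 this
    obtain ⟨g1, g2, g3, g4⟩ := mem_prs.1 hp
    refine ⟨![p.1, p.2], ?_, ?_, ?_, ?_, ?_⟩
    · intro i
      fin_cases i
      · exact hP.conn _ g1
      · exact hP.conn _ g2
    · intro i j hij
      fin_cases i <;> fin_cases j
      · exact absurd rfl hij
      · exact hP.disj _ g1 _ g2 g3
      · exact hP.disj _ g2 _ g1 g3.symm
      · exact absurd rfl hij
    · intro i j hij
      fin_cases i <;> fin_cases j
      · exact absurd rfl hij
      · exact g4
      · exact g4.symm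
      · exact absurd rfl hij
    · intro i
      fin_cases i
      · exact ⟨p.1, g1, le_rfl⟩
      · exact ⟨p.2, g2, le_rfl⟩
    · intro i v hv
      fin_cases i
      · exact ⟨p.1, g1, hv⟩
      · exact ⟨p.2, g2, hv⟩
  | succ k ih =>
    -- strong induction on the number of branch sets
    have key : ∀ n : ℕ, ∀ P : Finset (Set V), P.card = n → Fam G P →
        2 * (2 ^ (k + 1) - 1) * P.card < (prs G P).card → Mod G P (k + 1 + 2) := by
      intro n
      induction n with
      | zero =>
        intro P hn hP hc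
        exfalso
        have hP0 : P = ∅ := Finset.card_eq_zero.1 hn
        rw [hP0] at hc
        simp [prs] at hc
      | succ n ihn =>
        intro P hn hP hc
        set c : ℕ := 2 ^ (k + 1) - 1 with hcdef
        have hc1 : c = 2 * (2 ^ k - 1) + 1 := by
          have : 1 ≤ 2 ^ k := Nat.one_le_two_pow
          rw [hcdef, pow_succ]; omega
        by_cases hex : ∃ A ∈ P, ∃ B ∈ P, A ≠ B ∧ Rl G A B ∧ (cmn G P A B).card < c
        · obtain ⟨A, hA, B, hB, hAB, hR, hT⟩ := hex
          obtain ⟨P', hF, hcard, hcount, hm1, hm2⟩ := contract_step hP hA hB hAB hR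
          have h1 : P'.card = n := by omega
          have h2 : 2 * c * P'.card < (prs G P').card := by
            have h3 : 2 * c * P.card = 2 * c * P'.card + 2 * c := by
              rw [← hcard]; ring
            omega
          obtain ⟨f, f1, f2, f3, f4, f5⟩ := ihn P' h1 hF h2
          refine ⟨f, f1, f2, f3, ?_, ?_⟩
          · intro i
            obtain ⟨D, hD, hDs⟩ := f4 i
            obtain ⟨D', hD', hDs'⟩ := hm1 D hD
            exact ⟨D', hD', hDs'.trans hDs⟩
          · intro i v hv
            obtain ⟨D, hD, hvD⟩ := f5 i v hv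
            exact hm2 D hD v hvD
        · push Not at hex
          have hpos : 0 < (prs G P).card := by omega
          obtain ⟨p, hp⟩ := Finset.card_pos.1 hpos
          obtain ⟨g1, g2, g3, g4⟩ := mem_prs.1 hp
          set A := p.1 with hA
          set Q := P.filter (fun B => B ≠ A ∧ Rl G A B) with hQ
          have hQP : Q ⊆ P := Finset.filter_subset _ _
          have hQF : Fam G Q := ⟨fun B hB => hP.conn B (hQP hB),
            fun B hB D hD => hP.disj B (hQP hB) D (hQP hD)⟩
          have hQne : 0 < Q.card :=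
            Finset.card_pos.2 ⟨p.2, Finset.mem_filter.2 ⟨g2, g3.symm, g4⟩⟩
          have hcnt : c * Q.card ≤ (prs G Q).card := by
            rw [mul_comm]
            apply prs_card_ge
            intro B hB
            obtain ⟨b1, b2, b3⟩ := Finset.mem_filter.1 hB
            refine ⟨cmn G P A B, hex A g1 B b1 b2.symm b3, ?_⟩
            intro D hD
            obtain ⟨d1, d2, d3, d4, d5⟩ := mem_cmn.1 hD
            exact ⟨Finset.mem_filter.2 ⟨d1, d2, d4⟩, d3.symm, d5⟩
          have hlt : 2 * (2 ^ k - 1) * Q.card < (prs G Q).card := by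
            have : c * Q.card = 2 * (2 ^ k - 1) * Q.card + Q.card := by rw [hc1]; ring
            omega
          obtain ⟨f, f1, f2, f3, f4, f5⟩ := ih Q hQF hlt
          have hdisj : ∀ i, Disjoint A (f i) := by
            intro i
            rw [Set.disjoint_left]
            intro v hvA hvf
            obtain ⟨D, hD, hvD⟩ := f5 i v hvf
            obtain ⟨d1, d2, -⟩ := Finset.mem_filter.1 hD
            exact Set.disjoint_left.1 (hP.disj A g1 D d1 d2.symm) hvA hvD
          have hadj : ∀ i, Rl G A (f i) := by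
            intro i
            obtain ⟨D, hD, hDs⟩ := f4 i
            obtain ⟨d1, d2, d3⟩ := Finset.mem_filter.1 hD
            exact d3.mono le_rfl hDs
          refine ⟨Fin.cons A f, ?_, ?_, ?_, ?_, ?_⟩
          · intro i
            refine Fin.cases ?_ ?_ i
            · exact hP.conn A g1
            · intro j; exact f1 j
          · intro i j
            refine Fin.cases ?_ ?_ i
            · refine Fin.cases ?_ ?_ j
              · intro h; exact absurd rfl h
              · intro j _; exact hdisj j
            · intro i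
              refine Fin.cases ?_ ?_ j
              · intro _; exact (hdisj i).symm
              · intro j h
                exact f2 i j (fun e => h (by rw [e]))
          · intro i j
            refine Fin.cases ?_ ?_ i
            · refine Fin.cases ?_ ?_ j
              · intro h; exact absurd rfl h
              · intro j _; exact hadj j
            · intro i
              refine Fin.cases ?_ ?_ j
              · intro _; exact (hadj i).symm
              · intro j h
                exact f3 i j (fun e => h (by rw [e]))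
          · intro i
            refine Fin.cases ?_ ?_ i
            · exact ⟨A, g1, le_rfl⟩
            · intro j
              obtain ⟨D, hD, hDs⟩ := f4 j
              exact ⟨D, hQP hD, hDs⟩
          · intro i
            refine Fin.cases ?_ ?_ i
            · intro v hv; exact ⟨A, g1, hv⟩
            · intro j v hv
              obtain ⟨D, hD, hDs⟩ := f5 j v hv
              exact ⟨D, hQP hD, hDs⟩
    intro P hP hc
    exact key P.card P rfl hP hc

theorem density {V : Type} [Finite V] (G : SimpleGraph V) (h5 : ¬ K5Model G)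
    {ι : Type} [Fintype ι] (A : ι → Set V) (hc : ∀ i, (G.induce (A i)).Connected)
    (hd : ∀ i j, i ≠ j → Disjoint (A i) (A j)) (E : Finset (ι × ι))
    (hE : ∀ e ∈ E, e.1 ≠ e.2 ∧ ∃ a ∈ A e.1, ∃ b ∈ A e.2, G.Adj a b) :
    E.card ≤ 14 * Fintype.card ι := by
  classical
  by_contra hcon
  have hcon := not_le.1 hcon
  have hinj : ∀ i j, A i = A j → i = j := by
    intro i j h
    by_contra hij
    have h1 := hd i j hij
    rw [h] at h1
    obtain ⟨a, ha⟩ := nonempty_of_conn (hc j)
    exact Set.disjoint_left.1 h1 ha ha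
  set P : Finset (Set V) := Finset.univ.image A with hP
  have hPF : Fam G P := by
    constructor
    · intro D hD
      obtain ⟨i, -, rfl⟩ := Finset.mem_image.1 hD
      exact hc i
    · intro D hD D' hD' hne
      obtain ⟨i, -, rfl⟩ := Finset.mem_image.1 hD
      obtain ⟨j, -, rfl⟩ := Finset.mem_image.1 hD'
      exact hd i j (fun e => hne (by rw [e]))
  have hPc : P.card = Fintype.card ι := by
    rw [hP, Finset.card_image_of_injective _ (fun i j h => hinj i j h), Finset.card_univ]
  have hle : E.card ≤ (prs G P).card := by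
    apply Finset.card_le_card_of_injOn (fun e => (A e.1, A e.2))
    · intro e he
      obtain ⟨h1, h2⟩ := hE e (Finset.mem_coe.1 he)
      apply Finset.mem_coe.2
      rw [mem_prs]
      exact ⟨Finset.mem_image_of_mem _ (Finset.mem_univ _),
        Finset.mem_image_of_mem _ (Finset.mem_univ _), fun h => h1 (hinj _ _ h), h2⟩
    · intro e _ e' _ h
      obtain ⟨h1, h2⟩ := Prod.mk.inj h
      exact Prod.ext (hinj _ _ h1) (hinj _ _ h2)
  obtain ⟨f, f1, f2, f3, -, -⟩ := mader G 3 P hPF (by rw [hPc]; omega)
  exact h5 ⟨f, f1, f2, f3⟩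

end Pool.Agent.Helper805.CHS
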