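import Pool.Agent.Helper805.CHS.Basic

set_option autoImplicit false

namespace Pool.Agent.Helper805.CHS.VK

open Complex Set

/-- Continuous logarithms on the plane. -/
lemma exists_log2 (F : ℝ × ℝ → ℂ) (hF : Continuous F) (h0 : ∀ x, F x ≠ 0) :
    ∃ L : ℝ × ℝ → ℂ, Continuous L ∧ ∀ x, exp (L x) = F x := by
  have hs : IsSimplyConnected (Set.univ : Set (ℝ × ℝ)) := by
    have : ContractibleSpace (Set.univ : Set (ℝ × ℝ)) :=
      (convex_univ (𝕜 := ℝ) (E := ℝ × ℝ)).contractibleSpace ⟨(0, 0), mem_univ _⟩
    exact SimplyConnectedSpace.ofContractible _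
  obtain ⟨f, hf, he⟩ := exists_continuousOn_eqOn_exp_comp hs isOpen_univ hF.continuousOn
    (by rintro ⟨x, -, hx⟩; exact h0 x hx)
  exact ⟨f, continuousOn_univ.mp hf, fun x => he (mem_univ x)⟩

lemma exists_log1 (F : ℝ → ℂ) (hF : Continuous F) (h0 : ∀ x, F x ≠ 0) :
    ∃ L : ℝ → ℂ, Continuous L ∧ ∀ x, exp (L x) = F x := by
  obtain ⟨L, hL, he⟩ := exists_log2 (fun x => F x.1) (hF.comp continuous_fst) (fun x => h0 _)
  exact ⟨fun t => L (t, 0), hL.comp (by fun_prop), fun x => he _⟩

/-- Two continuous logarithms of the same function have the same increments. -/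
lemma inc_unique (f g : ℝ → ℂ) (hf : Continuous f) (hg : Continuous g)
    (h : ∀ x, exp (f x) = exp (g x)) : f 1 - f 0 = g 1 - g 0 := by
  have key : ∀ x, ∃ n : ℤ, f x = g x + n * (2 * Real.pi * I) :=
    fun x => exp_eq_exp_iff_exists_int.mp (h x)
  choose n hn using key
  have hc : Continuous fun x => (n x : ℝ) := by
    have : (fun x => ((n x : ℝ))) = fun x => ((f x - g x) / (2 * Real.pi * I)).re := by
      funext x
      have : (f x - g x) / (2 * Real.pi * I) = ((n x : ℝ) : ℂ) := by
        rw [hn x]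
        field_simp [Real.pi_ne_zero, I_ne_zero]
        push_cast
        ring
      rw [this]; simp
    rw [this]
    exact continuous_re.comp ((hf.sub hg).div_const _)
  have hcn : Continuous n := Int.isClosedEmbedding_coe_real.isEmbedding.continuous_iff.mpr hc
  have : n 1 = n 0 := PreconnectedSpace.constant inferInstance hcn
  rw [hn 1, hn 0, this]; ring

/-- Increment of a continuous logarithm of `h` over `[0,1]`. -/
noncomputable def inc (h : ℝ → ℂ) : ℂ := by
  classical
  exact if H : ∃ f : ℝ → ℂ, Continuous f ∧ ∀ x, exp (f x) = h x then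
    H.choose 1 - H.choose 0 else 0

lemma inc_eq (h f : ℝ → ℂ) (hf : Continuous f) (he : ∀ x, exp (f x) = h x) :
    inc h = f 1 - f 0 := by
  have H : ∃ f : ℝ → ℂ, Continuous f ∧ ∀ x, exp (f x) = h x := ⟨f, hf, he⟩
  unfold inc
  rw [dif_pos H]
  exact inc_unique _ _ H.choose_spec.1 hf (fun x => by rw [H.choose_spec.2 x, he x])

lemma inc_square (u v : ℝ → ℂ) (hu : Continuous u) (hv : Continuous v)
    (hne : ∀ s t, u s ≠ v t) :
    inc (fun s => u s - v 0) - inc (fun s => u s - v 1) + inc (fun t => v t - u 1)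
      - inc (fun t => v t - u 0) = 0 := by
  obtain ⟨L, hL, he⟩ := exists_log2 (fun x => u x.1 - v x.2)
    ((hu.comp continuous_fst).sub (hv.comp continuous_snd)) (fun x => sub_ne_zero.mpr (hne _ _))
  have hpi : ∀ z : ℂ, exp (z + Real.pi * I) = - exp z := by
    intro z; rw [exp_add, exp_pi_mul_I]; ring
  rw [inc_eq (fun s => u s - v 0) (fun s => L (s, 0)) (hL.comp (by fun_prop)) (fun x => he _),
    inc_eq (fun s => u s - v 1) (fun s => L (s, 1)) (hL.comp (by fun_prop)) (fun x => he _),
    inc_eq (fun t => v t - u 1) (fun t => L (1, t) + Real.pi * I)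
      ((hL.comp (by fun_prop)).add continuous_const) (fun x => by rw [hpi, he]; ring),
    inc_eq (fun t => v t - u 0) (fun t => L (0, t) + Real.pi * I)
      ((hL.comp (by fun_prop)).add continuous_const) (fun x => by rw [hpi, he]; ring)]
  ring

lemma inc_mod (h : ℝ → ℂ) (hc : Continuous h) (h0 : ∀ x, h x ≠ 0) :
    ∃ n : ℤ, inc h = log (h 1) - log (h 0) + n * (2 * Real.pi * I) := by
  obtain ⟨f, hf, he⟩ := exists_log1 h hc h0
  obtain ⟨n1, hn1⟩ := exp_eq_exp_iff_exists_int.mp ((he 1).trans (exp_log (h0 1)).symm)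
  obtain ⟨n0, hn0⟩ := exp_eq_exp_iff_exists_int.mp ((he 0).trans (exp_log (h0 0)).symm)
  refine ⟨n1 - n0, ?_⟩
  rw [inc_eq h f hf he, hn1, hn0]; push_cast; ring

lemma log_sub_log_neg (z : ℂ) (hz : z ≠ 0) :
    ∃ n : ℤ, log z - log (-z) = (2 * n + 1) * (Real.pi * I) := by
  have h : exp (log z - log (-z)) = exp (Real.pi * I) := by
    rw [exp_sub, exp_log hz, exp_log (neg_ne_zero.mpr hz), exp_pi_mul_I, div_neg, div_self hz]
  obtain ⟨n, hn⟩ := exp_eq_exp_iff_exists_int.mp h
  exact ⟨n, by rw [hn]; ring⟩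

/-- Interleaving indicator (for `a < b`, `c < d`, all distinct). -/
def beta {V : Type*} [LinearOrder V] (a b c d : V) : ZMod 2 :=
  (if a < c ∧ c < b then 1 else 0) + (if a < d ∧ d < b then 1 else 0)

/-- The van Kampen relations mod 2: a drawing in the plane gives labels `m a b c` for an edge
`ab` and a vertex `c` such that for any two vertex-disjoint edges with disjoint images, the
interleaving indicator is a sum of labels. -/
theorem exists_labels {V : Type*} [LinearOrder V] (p : V → ℂ) (hp : Function.Injective p)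
    (E : V → V → Prop) (γ : V → V → ℝ → ℂ)
    (hc : ∀ a b, a < b → E a b → Continuous (γ a b))
    (h0 : ∀ a b, a < b → E a b → γ a b 0 = p a)
    (h1 : ∀ a b, a < b → E a b → γ a b 1 = p b)
    (hv : ∀ a b c, a < b → E a b → c ≠ a → c ≠ b → ∀ t, γ a b t ≠ p c) :
    ∃ m : V → V → V → ZMod 2, ∀ a b c d, a < b → c < d → E a b → E c d →
      a ≠ c → a ≠ d → b ≠ c → b ≠ d → (∀ s t, γ a b s ≠ γ c d t) →
      beta a b c d = m a b c + m a b d + m c d a + m c d b := by
  classical
  -- integers attached to edge/vertex pairs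
  have hn : ∀ a b c, ∃ n : ℤ, a < b → E a b → c ≠ a → c ≠ b →
      inc (fun t => γ a b t - p c) = log (p b - p c) - log (p a - p c) + n * (2 * Real.pi * I) := by
    intro a b c
    by_cases h : a < b ∧ E a b ∧ c ≠ a ∧ c ≠ b
    · obtain ⟨hab, hE, hca, hcb⟩ := h
      obtain ⟨n, hn⟩ := inc_mod (fun t => γ a b t - p c) ((hc a b hab hE).sub continuous_const)
        (fun t => sub_ne_zero.mpr (hv a b c hab hE hca hcb t))
      refine ⟨n, fun _ _ _ _ => ?_⟩
      rw [hn]; simp only [h0 a b hab hE, h1 a b hab hE]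
    · exact ⟨0, fun h1 h2 h3 h4 => absurd ⟨h1, h2, h3, h4⟩ h⟩
  choose n hn using hn
  have hB : ∀ x y, ∃ k : ℤ, x ≠ y →
      log (p x - p y) - log (p y - p x) = (2 * k + 1) * (Real.pi * I) := by
    intro x y
    by_cases h : x = y
    · exact ⟨0, fun h' => absurd h h'⟩
    · obtain ⟨k, hk⟩ := log_sub_log_neg (p x - p y) (sub_ne_zero.mpr (fun h' => h (hp h')))
      refine ⟨k, fun _ => ?_⟩
      rw [← hk]; congr 2; ring
  choose B hB using hB
  -- `D x y` integer with  `2 B + 1 = σ + 2 D`, `σ = 1` if `y < x` and `-1` otherwise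
  let D : V → V → ℤ := fun x y => if y < x then B x y else B x y + 1
  have hpiI : (Real.pi * I : ℂ) ≠ 0 := by simp [Real.pi_ne_zero]
  have hDsymm : ∀ x y, x ≠ y → D y x = - D x y := by
    intro x y hxy
    have e1 := hB x y hxy
    have e2 := hB y x hxy.symm
    have e3 : ((2 * (B x y : ℂ) + 1) + (2 * (B y x : ℂ) + 1)) * (Real.pi * I) = 0 := by
      rw [add_mul, ← e1, ← e2]; ring
    have e4 : (2 * (B x y : ℂ) + 1) + (2 * (B y x : ℂ) + 1) = 0 := by
      rcases mul_eq_zero.mp e3 with h | h
      · exact h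
      · exact absurd h hpiI
    have e5 : (2 * (B x y) + 1) + (2 * (B y x) + 1) = 0 := by exact_mod_cast e4
    simp only [D]
    rcases lt_trichotomy x y with h | h | h
    · rw [if_pos h, if_neg (not_lt.mpr h.le)]; omega
    · exact absurd h hxy
    · rw [if_neg (not_lt.mpr h.le), if_pos h]; omega
  let m : V → V → V → ZMod 2 := fun a b c =>
    ((n a b c + (if a < c then D a c else 0) + (if b < c then D b c else 0) : ℤ) : ZMod 2)
  refine ⟨m, ?_⟩
  intro a b c d hab hcd hEab hEcd hac had hbc hbd hdis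
  have sq := inc_square (γ a b) (γ c d) (hc a b hab hEab) (hc c d hcd hEcd) hdis
  rw [h0 a b hab hEab, h1 a b hab hEab, h0 c d hcd hEcd, h1 c d hcd hEcd,
    hn a b c hab hEab hac.symm hbc.symm, hn a b d hab hEab had.symm hbd.symm,
    hn c d b hcd hEcd hbc hbd, hn c d a hcd hEcd hac had] at sq
  have b1 := hB b c hbc
  have b2 := hB a c hac
  have b3 := hB b d hbd
  have b4 := hB a d had
  have e1 : ((B b c : ℂ) - B a c - B b d + B a d + n a b c - n a b d + n c d b - n c d a) *
      (Real.pi * I) = 0 := by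
    linear_combination (1/2) * sq - (1/2) * b1 + (1/2) * b2 + (1/2) * b3 - (1/2) * b4
  have e2 : (B b c : ℂ) - B a c - B b d + B a d + n a b c - n a b d + n c d b - n c d a = 0 := by
    rcases mul_eq_zero.mp e1 with h | h
    · exact h
    · exact absurd h hpiI
  have e3 : B b c - B a c - B b d + B a d + n a b c - n a b d + n c d b - n c d a = 0 := by
    exact_mod_cast e2
  -- reduce mod 2
  have d1 := hDsymm a c hac
  have d2 := hDsymm a d had
  have d3 := hDsymm b c hbc
  have d4 := hDsymm b d hbd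
  have goalZ : ∃ k : ℤ, ((if a < c ∧ c < b then 1 else 0) + (if a < d ∧ d < b then 1 else 0) : ℤ) -
      ((n a b c + (if a < c then D a c else 0) + (if b < c then D b c else 0)) +
      (n a b d + (if a < d then D a d else 0) + (if b < d then D b d else 0)) +
      (n c d a + (if c < a then D c a else 0) + (if d < a then D d a else 0)) +
      (n c d b + (if c < b then D c b else 0) + (if d < b then D d b else 0))) = 2 * k := by
    have key : ∀ x y : V, x ≠ y → (if x < y then D x y else 0) + (if y < x then D y x else 0)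
        = D x y - 2 * (if y < x then D x y else 0) := by
      intro x y hxy
      rcases lt_trichotomy x y with h | h | h
      · rw [if_pos h, if_neg (not_lt.mpr h.le), if_neg (not_lt.mpr h.le)]; ring
      · exact absurd h hxy
      · rw [if_neg (not_lt.mpr h.le), if_pos h, if_pos h, hDsymm x y hxy]; ring
    have k1 := key a c hac
    have k2 := key a d had
    have k3 := key b c hbc
    have k4 := key b d hbd
    have Dv : ∀ x y : V, D x y = B x y + (if y < x then 0 else 1) := by
      intro x y; simp only [D]; split_ifs <;> ring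
    have s1 : ((if c < b then 0 else 1) - (if c < a then 0 else 1) : ℤ) =
        - (if a < c ∧ c < b then 1 else 0) := by
      rcases lt_trichotomy a c with h | h | h
      · rcases lt_trichotomy c b with h' | h' | h'
        · simp [h, h', not_lt.mpr h.le]
        · exact absurd h'.symm hbc
        · simp [h, not_lt.mpr h'.le, not_lt.mpr h.le]
      · exact absurd h hac
      · simp [h, not_lt.mpr h.le, h.trans hab]
    have s2 : ((if d < b then 0 else 1) - (if d < a then 0 else 1) : ℤ) =
        - (if a < d ∧ d < b then 1 else 0) := by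
      rcases lt_trichotomy a d with h | h | h
      · rcases lt_trichotomy d b with h' | h' | h'
        · simp [h, h', not_lt.mpr h.le]
        · exact absurd h'.symm hbd
        · simp [h, not_lt.mpr h'.le, not_lt.mpr h.le]
      · exact absurd h had
      · simp [h, not_lt.mpr h.le, h.trans hab]
    have v1 := Dv a c
    have v2 := Dv a d
    have v3 := Dv b c
    have v4 := Dv b d
    generalize (if a < c ∧ c < b then (1:ℤ) else 0) = x1 at *
    generalize (if a < d ∧ d < b then (1:ℤ) else 0) = x2 at *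
    generalize (if c < b then (0:ℤ) else 1) = y1 at *
    generalize (if c < a then (0:ℤ) else 1) = y2 at *
    generalize (if d < b then (0:ℤ) else 1) = y3 at *
    generalize (if d < a then (0:ℤ) else 1) = y4 at *
    generalize (if c < a then D a c else 0) = w1 at *
    generalize (if d < a then D a d else 0) = w2 at *
    generalize (if c < b then D b c else 0) = w3 at *
    generalize (if d < b then D b d else 0) = w4 at *
    generalize (if a < c then D a c else 0) = u1 at *
    generalize (if a < d then D a d else 0) = u2 at *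
    generalize (if b < c then D b c else 0) = u3 at *
    generalize (if b < d then D b d else 0) = u4 at *
    generalize (if c < a then D c a else 0) = t1 at *
    generalize (if d < a then D d a else 0) = t2 at *
    generalize (if c < b then D c b else 0) = t3 at *
    generalize (if d < b then D d b else 0) = t4 at *
    generalize D a c = g1 at *
    generalize D a d = g2 at *
    generalize D b c = g3 at *
    generalize D b d = g4 at *
    generalize D c a = g5 at *
    generalize D d a = g6 at *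
    generalize D c b = g7 at *
    generalize D d b = g8 at *
    generalize B a c = f1 at *
    generalize B a d = f2 at *
    generalize B b c = f3 at *
    generalize B b d = f4 at *
    generalize n a b c = n1 at *
    generalize n a b d = n2 at *
    generalize n c d a = n3 at *
    generalize n c d b = n4 at *
    clear b1 b2 b3 b4 e1 e2 sq
    exact ⟨x1 + x2 - f1 - f4 - n2 - n3 - y2 - y4 + w1 + w2 + w3 + w4, by omega⟩
  obtain ⟨k, hk⟩ := goalZ
  have hz := congrArg (Int.cast : ℤ → ZMod 2) hk
  have h2 : ((2 * k : ℤ) : ZMod 2) = 0 := by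
    push_cast
    have : (2 : ZMod 2) = 0 := rfl
    rw [this, zero_mul]
  rw [h2, Int.cast_sub, sub_eq_zero] at hz
  simp only [m, beta]
  have hl : (((if a < c ∧ c < b then 1 else 0) + (if a < d ∧ d < b then 1 else 0) : ℤ) : ZMod 2)
      = (if a < c ∧ c < b then 1 else 0) + (if a < d ∧ d < b then 1 else 0) := by
    push_cast; rfl
  rw [← hl, hz]
  push_cast
  ring

/-- Van Kampen obstruction for `K₅`: five points cannot be joined pairwise inside sets such that
the sets belonging to vertex-disjoint pairs are disjoint. -/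
theorem k5_joined (p : Fin 5 → ℂ) (S : Fin 5 → Fin 5 → Set ℂ)
    (hS : ∀ a b, a < b → JoinedIn (S a b) (p a) (p b))
    (hdis : ∀ a b c d, a < b → c < d → a ≠ c → a ≠ d → b ≠ c → b ≠ d →
      Disjoint (S a b) (S c d)) : False := by
  classical
  let γ : Fin 5 → Fin 5 → ℝ → ℂ := fun a b =>
    if h : a < b then (hS a b h).somePath.extend else fun _ => 0
  have hγ : ∀ a b (h : a < b), γ a b = (hS a b h).somePath.extend := fun a b h => dif_pos h
  have hmem : ∀ a b, a < b → ∀ t, γ a b t ∈ S a b := by
    intro a b h t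
    rw [hγ a b h]
    have : (hS a b h).somePath.extend t ∈ Set.range (hS a b h).somePath.extend := ⟨t, rfl⟩
    rw [Path.extend_range] at this
    obtain ⟨s, hs⟩ := this
    rw [← hs]
    exact (hS a b h).somePath_mem s
  have hpmem : ∀ a b, a < b → p a ∈ S a b ∧ p b ∈ S a b := fun a b h =>
    ⟨(hS a b h).source_mem, (hS a b h).target_mem⟩
  have hd : ∀ a b c d, a < b → c < d → a ≠ c → a ≠ d → b ≠ c → b ≠ d →
      ∀ s t, γ a b s ≠ γ c d t := by
    intro a b c d hab hcd h1 h2 h3 h4 s t he
    exact Set.disjoint_left.mp (hdis a b c d hab hcd h1 h2 h3 h4) (hmem a b hab s)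
      (he ▸ hmem c d hcd t)
  have hex : ∀ a b c : Fin 5, a < b → c ≠ a → c ≠ b → ∃ x y : Fin 5, x < y ∧ (c = x ∨ c = y) ∧
      a ≠ x ∧ a ≠ y ∧ b ≠ x ∧ b ≠ y := by decide
  have hex2 : ∀ a c : Fin 5, a ≠ c → ∃ b b' : Fin 5, b < b' ∧ (a = b ∨ a = b') ∧ c ≠ b ∧ c ≠ b' := by
    decide
  have hv : ∀ a b c : Fin 5, a < b → True → c ≠ a → c ≠ b → ∀ t, γ a b t ≠ p c := by
    intro a b c hab _ hca hcb t he
    obtain ⟨x, y, hxy, hc, h1, h2, h3, h4⟩ := hex a b c hab hca hcb
    have hpc : p c ∈ S x y := by
      rcases hc with rfl | rfl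
      · exact (hpmem _ _ hxy).1
      · exact (hpmem _ _ hxy).2
    exact Set.disjoint_left.mp (hdis a b x y hab hxy h1 h2 h3 h4) (hmem a b hab t) (he ▸ hpc)
  have hp : Function.Injective p := by
    intro a c hac
    by_contra hne
    obtain ⟨b, b', hbb, ha, h1, h2⟩ := hex2 a c hne
    have h0 : γ b b' 0 = p b := by rw [hγ _ _ hbb]; simp
    have h1' : γ b b' 1 = p b' := by rw [hγ _ _ hbb]; simp
    rcases ha with rfl | rfl
    · exact hv _ _ c hbb trivial h1 h2 0 (h0.trans hac)
    · exact hv _ _ c hbb trivial h1 h2 1 (h1'.trans hac)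
  obtain ⟨m, hm⟩ := exists_labels p hp (fun _ _ => True) γ
    (fun a b h _ => by rw [hγ a b h]; exact (hS a b h).somePath.continuous_extend)
    (fun a b h _ => by rw [hγ a b h]; simp) (fun a b h _ => by rw [hγ a b h]; simp) hv
  have h0 := hm 0 1 2 3 (by decide) (by decide) trivial trivial (by decide) (by decide) (by decide) (by decide) (hd _ _ _ _ (by decide) (by decide) (by decide) (by decide) (by decide) (by decide))
  rw [show beta ((0 : Fin 5)) 1 2 3 = 0 from by decide] at h0
  have h1 := hm 0 2 1 3 (by decide) (by decide) trivial trivial (by decide) (by decide) (by decide) (by decide) (hd _ _ _ _ (by decide) (by decide) (by decide) (by decide) (by decide) (by decide))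
  rw [show beta ((0 : Fin 5)) 2 1 3 = 1 from by decide] at h1
  have h2 := hm 0 3 1 2 (by decide) (by decide) trivial trivial (by decide) (by decide) (by decide) (by decide) (hd _ _ _ _ (by decide) (by decide) (by decide) (by decide) (by decide) (by decide))
  rw [show beta ((0 : Fin 5)) 3 1 2 = 0 from by decide] at h2
  have h3 := hm 0 1 2 4 (by decide) (by decide) trivial trivial (by decide) (by decide) (by decide) (by decide) (hd _ _ _ _ (by decide) (by decide) (by decide) (by decide) (by decide) (by decide))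
  rw [show beta ((0 : Fin 5)) 1 2 4 = 0 from by decide] at h3
  have h4 := hm 0 2 1 4 (by decide) (by decide) trivial trivial (by decide) (by decide) (by decide) (by decide) (hd _ _ _ _ (by decide) (by decide) (by decide) (by decide) (by decide) (by decide))
  rw [show beta ((0 : Fin 5)) 2 1 4 = 1 from by decide] at h4
  have h5 := hm 0 4 1 2 (by decide) (by decide) trivial trivial (by decide) (by decide) (by decide) (by decide) (hd _ _ _ _ (by decide) (by decide) (by decide) (by decide) (by decide) (by decide))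
  rw [show beta ((0 : Fin 5)) 4 1 2 = 0 from by decide] at h5
  have h6 := hm 0 1 3 4 (by decide) (by decide) trivial trivial (by decide) (by decide) (by decide) (by decide) (hd _ _ _ _ (by decide) (by decide) (by decide) (by decide) (by decide) (by decide))
  rw [show beta ((0 : Fin 5)) 1 3 4 = 0 from by decide] at h6
  have h7 := hm 0 3 1 4 (by decide) (by decide) trivial trivial (by decide) (by decide) (by decide) (by decide) (hd _ _ _ _ (by decide) (by decide) (by decide) (by decide) (by decide) (by decide))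
  rw [show beta ((0 : Fin 5)) 3 1 4 = 1 from by decide] at h7
  have h8 := hm 0 4 1 3 (by decide) (by decide) trivial trivial (by decide) (by decide) (by decide) (by decide) (hd _ _ _ _ (by decide) (by decide) (by decide) (by decide) (by decide) (by decide))
  rw [show beta ((0 : Fin 5)) 4 1 3 = 0 from by decide] at h8
  have h9 := hm 0 2 3 4 (by decide) (by decide) trivial trivial (by decide) (by decide) (by decide) (by decide) (hd _ _ _ _ (by decide) (by decide) (by decide) (by decide) (by decide) (by decide))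
  rw [show beta ((0 : Fin 5)) 2 3 4 = 0 from by decide] at h9
  have h10 := hm 0 3 2 4 (by decide) (by decide) trivial trivial (by decide) (by decide) (by decide) (by decide) (hd _ _ _ _ (by decide) (by decide) (by decide) (by decide) (by decide) (by decide))
  rw [show beta ((0 : Fin 5)) 3 2 4 = 1 from by decide] at h10
  have h11 := hm 0 4 2 3 (by decide) (by decide) trivial trivial (by decide) (by decide) (by decide) (by decide) (hd _ _ _ _ (by decide) (by decide) (by decide) (by decide) (by decide) (by decide))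
  rw [show beta ((0 : Fin 5)) 4 2 3 = 0 from by decide] at h11
  have h12 := hm 1 2 3 4 (by decide) (by decide) trivial trivial (by decide) (by decide) (by decide) (by decide) (hd _ _ _ _ (by decide) (by decide) (by decide) (by decide) (by decide) (by decide))
  rw [show beta ((1 : Fin 5)) 2 3 4 = 0 from by decide] at h12
  have h13 := hm 1 3 2 4 (by decide) (by decide) trivial trivial (by decide) (by decide) (by decide) (by decide) (hd _ _ _ _ (by decide) (by decide) (by decide) (by decide) (by decide) (by decide))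
  rw [show beta ((1 : Fin 5)) 3 2 4 = 1 from by decide] at h13
  have h14 := hm 1 4 2 3 (by decide) (by decide) trivial trivial (by decide) (by decide) (by decide) (by decide) (hd _ _ _ _ (by decide) (by decide) (by decide) (by decide) (by decide) (by decide))
  rw [show beta ((1 : Fin 5)) 4 2 3 = 0 from by decide] at h14
  have two : (2 : ZMod 2) = 0 := rfl
  have one : (1 : ZMod 2) = 0 := by
    linear_combination h0 + h1 + h2 + h3 + h4 + h5 + h6 + h7 + h8 + h9 + h10 + h11 + h12 + h13 + h14 + ((m 0 1 2 + m 0 1 3 + m 0 1 4 + m 0 2 1 + m 0 2 3 + m 0 2 4 + m 0 3 1 + m 0 3 2 + m 0 3 4 + m 0 4 1 + m 0 4 2 + m 0 4 3 + m 1 2 0 + m 1 2 3 + m 1 2 4 + m 1 3 0 + m 1 3 2 + m 1 3 4 + m 1 4 0 + m 1 4 2 + m 1 4 3 + m 2 3 0 + m 2 3 1 + m 2 3 4 + m 2 4 0 + m 2 4 1 + m 2 4 3 + m 3 4 0 + m 3 4 1 + m 3 4 2) - 2) * two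
  exact one_ne_zero one

lemma hex_aux0 : ∀ a b c : Fin 6, a < 3 → 3 ≤ b → c ≠ a → c ≠ b →
      ((if c < 3 then c else if a = 0 then 1 else 0) < (3 : Fin 6) ∧
        (3 : Fin 6) ≤ (if c < 3 then (if b = 3 then 4 else 3) else c) ∧
      (c = (if c < 3 then c else if a = 0 then 1 else 0) ∨
        c = (if c < 3 then (if b = 3 then 4 else 3) else c)) ∧
      a ≠ (if c < 3 then c else if a = 0 then 1 else 0) ∧
      b ≠ (if c < 3 then (if b = 3 then 4 else 3) else c)) := by
  decide

lemma hex_aux (a b c : Fin 6) (h1 : a < 3) (h2 : 3 ≤ b) (h3 : c ≠ a) (h4 : c ≠ b) :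
    ∃ x y : Fin 6, x < 3 ∧ 3 ≤ y ∧ (c = x ∨ c = y) ∧ a ≠ x ∧ b ≠ y :=
  ⟨_, _, hex_aux0 a b c h1 h2 h3 h4⟩

lemma hex2_aux : ∀ a c : Fin 6, a ≠ c → ∃ b b' : Fin 6, b < 3 ∧ 3 ≤ b' ∧ (a = b ∨ a = b') ∧
      c ≠ b ∧ c ≠ b' := by decide +kernel

/-- Van Kampen obstruction for `K₃,₃`. -/
theorem k33_joined (p : Fin 6 → ℂ) (S : Fin 6 → Fin 6 → Set ℂ)
    (hS : ∀ a b, a < 3 → 3 ≤ b → JoinedIn (S a b) (p a) (p b))
    (hdis : ∀ a b c d, a < 3 → 3 ≤ b → c < 3 → 3 ≤ d → a ≠ c → b ≠ d →
      Disjoint (S a b) (S c d)) : False := by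
  classical
  let γ : Fin 6 → Fin 6 → ℝ → ℂ := fun a b =>
    if h : a < 3 ∧ 3 ≤ b then (hS a b h.1 h.2).somePath.extend else fun _ => 0
  have hγ : ∀ a b (h : a < 3) (h' : 3 ≤ b), γ a b = (hS a b h h').somePath.extend :=
    fun a b h h' => dif_pos ⟨h, h'⟩
  have hmem : ∀ a b, a < 3 → 3 ≤ b → ∀ t, γ a b t ∈ S a b := by
    intro a b h h' t
    rw [hγ a b h h']
    have : (hS a b h h').somePath.extend t ∈ Set.range (hS a b h h').somePath.extend := ⟨t, rfl⟩
    rw [Path.extend_range] at this
    obtain ⟨s, hs⟩ := this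
    rw [← hs]
    exact (hS a b h h').somePath_mem s
  have hpmem : ∀ a b, a < 3 → 3 ≤ b → p a ∈ S a b ∧ p b ∈ S a b := fun a b h h' =>
    ⟨(hS a b h h').source_mem, (hS a b h h').target_mem⟩
  have hd : ∀ a b c d, a < 3 → 3 ≤ b → c < 3 → 3 ≤ d → a ≠ c → b ≠ d →
      ∀ s t, γ a b s ≠ γ c d t := by
    intro a b c d ha hb hc hd h1 h2 s t he
    exact Set.disjoint_left.mp (hdis a b c d ha hb hc hd h1 h2) (hmem a b ha hb s)
      (he ▸ hmem c d hc hd t)
  have hex := hex_aux
  have hex2 := hex2_aux
  have hv : ∀ a b c : Fin 6, a < b → (a < 3 ∧ 3 ≤ b) → c ≠ a → c ≠ b → ∀ t, γ a b t ≠ p c := by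
    intro a b c _ hab hca hcb t he
    obtain ⟨x, y, hx, hy, hc, h1, h2⟩ := hex a b c hab.1 hab.2 hca hcb
    have hpc : p c ∈ S x y := by
      rcases hc with rfl | rfl
      · exact (hpmem _ _ hx hy).1
      · exact (hpmem _ _ hx hy).2
    exact Set.disjoint_left.mp (hdis a b x y hab.1 hab.2 hx hy h1 h2) (hmem a b hab.1 hab.2 t)
      (he ▸ hpc)
  have hlt : ∀ a b : Fin 6, a < 3 → 3 ≤ b → a < b := fun a b h h' => lt_of_lt_of_le h h'
  have hp : Function.Injective p := by
    intro a c hac
    by_contra hne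
    obtain ⟨b, b', hb, hb', ha, h1, h2⟩ := hex2 a c hne
    have h0 : γ b b' 0 = p b := by rw [hγ _ _ hb hb']; simp
    have h1' : γ b b' 1 = p b' := by rw [hγ _ _ hb hb']; simp
    rcases ha with rfl | rfl
    · exact hv _ _ c (hlt _ _ hb hb') ⟨hb, hb'⟩ h1 h2 0 (h0.trans hac)
    · exact hv _ _ c (hlt _ _ hb hb') ⟨hb, hb'⟩ h1 h2 1 (h1'.trans hac)
  obtain ⟨m, hm⟩ := exists_labels p hp (fun a b => a < 3 ∧ 3 ≤ b) γ
    (fun a b _ h => by rw [hγ a b h.1 h.2]; exact (hS a b h.1 h.2).somePath.continuous_extend)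
    (fun a b _ h => by rw [hγ a b h.1 h.2]; simp) (fun a b _ h => by rw [hγ a b h.1 h.2]; simp) hv
  have h0 := hm 0 3 1 4 (by decide) (by decide) (by decide) (by decide) (by decide) (by decide) (by decide) (by decide) (hd _ _ _ _ (by decide) (by decide) (by decide) (by decide) (by decide) (by decide))
  rw [show beta ((0 : Fin 6)) 3 1 4 = 1 from by decide] at h0
  have h1 := hm 0 3 1 5 (by decide) (by decide) (by decide) (by decide) (by decide) (by decide) (by decide) (by decide) (hd _ _ _ _ (by decide) (by decide) (by decide) (by decide) (by decide) (by decide))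
  rw [show beta ((0 : Fin 6)) 3 1 5 = 1 from by decide] at h1
  have h2 := hm 0 3 2 4 (by decide) (by decide) (by decide) (by decide) (by decide) (by decide) (by decide) (by decide) (hd _ _ _ _ (by decide) (by decide) (by decide) (by decide) (by decide) (by decide))
  rw [show beta ((0 : Fin 6)) 3 2 4 = 1 from by decide] at h2
  have h3 := hm 0 3 2 5 (by decide) (by decide) (by decide) (by decide) (by decide) (by decide) (by decide) (by decide) (hd _ _ _ _ (by decide) (by decide) (by decide) (by decide) (by decide) (by decide))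
  rw [show beta ((0 : Fin 6)) 3 2 5 = 1 from by decide] at h3
  have h4 := hm 0 4 1 3 (by decide) (by decide) (by decide) (by decide) (by decide) (by decide) (by decide) (by decide) (hd _ _ _ _ (by decide) (by decide) (by decide) (by decide) (by decide) (by decide))
  rw [show beta ((0 : Fin 6)) 4 1 3 = 0 from by decide] at h4
  have h5 := hm 0 4 1 5 (by decide) (by decide) (by decide) (by decide) (by decide) (by decide) (by decide) (by decide) (hd _ _ _ _ (by decide) (by decide) (by decide) (by decide) (by decide) (by decide))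
  rw [show beta ((0 : Fin 6)) 4 1 5 = 1 from by decide] at h5
  have h6 := hm 0 4 2 3 (by decide) (by decide) (by decide) (by decide) (by decide) (by decide) (by decide) (by decide) (hd _ _ _ _ (by decide) (by decide) (by decide) (by decide) (by decide) (by decide))
  rw [show beta ((0 : Fin 6)) 4 2 3 = 0 from by decide] at h6
  have h7 := hm 0 4 2 5 (by decide) (by decide) (by decide) (by decide) (by decide) (by decide) (by decide) (by decide) (hd _ _ _ _ (by decide) (by decide) (by decide) (by decide) (by decide) (by decide))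
  rw [show beta ((0 : Fin 6)) 4 2 5 = 1 from by decide] at h7
  have h8 := hm 0 5 1 3 (by decide) (by decide) (by decide) (by decide) (by decide) (by decide) (by decide) (by decide) (hd _ _ _ _ (by decide) (by decide) (by decide) (by decide) (by decide) (by decide))
  rw [show beta ((0 : Fin 6)) 5 1 3 = 0 from by decide] at h8
  have h9 := hm 0 5 1 4 (by decide) (by decide) (by decide) (by decide) (by decide) (by decide) (by decide) (by decide) (hd _ _ _ _ (by decide) (by decide) (by decide) (by decide) (by decide) (by decide))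
  rw [show beta ((0 : Fin 6)) 5 1 4 = 0 from by decide] at h9
  have h10 := hm 0 5 2 3 (by decide) (by decide) (by decide) (by decide) (by decide) (by decide) (by decide) (by decide) (hd _ _ _ _ (by decide) (by decide) (by decide) (by decide) (by decide) (by decide))
  rw [show beta ((0 : Fin 6)) 5 2 3 = 0 from by decide] at h10
  have h11 := hm 0 5 2 4 (by decide) (by decide) (by decide) (by decide) (by decide) (by decide) (by decide) (by decide) (hd _ _ _ _ (by decide) (by decide) (by decide) (by decide) (by decide) (by decide))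
  rw [show beta ((0 : Fin 6)) 5 2 4 = 0 from by decide] at h11
  have h12 := hm 1 3 2 4 (by decide) (by decide) (by decide) (by decide) (by decide) (by decide) (by decide) (by decide) (hd _ _ _ _ (by decide) (by decide) (by decide) (by decide) (by decide) (by decide))
  rw [show beta ((1 : Fin 6)) 3 2 4 = 1 from by decide] at h12
  have h13 := hm 1 3 2 5 (by decide) (by decide) (by decide) (by decide) (by decide) (by decide) (by decide) (by decide) (hd _ _ _ _ (by decide) (by decide) (by decide) (by decide) (by decide) (by decide))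
  rw [show beta ((1 : Fin 6)) 3 2 5 = 1 from by decide] at h13
  have h14 := hm 1 4 2 3 (by decide) (by decide) (by decide) (by decide) (by decide) (by decide) (by decide) (by decide) (hd _ _ _ _ (by decide) (by decide) (by decide) (by decide) (by decide) (by decide))
  rw [show beta ((1 : Fin 6)) 4 2 3 = 0 from by decide] at h14
  have h15 := hm 1 4 2 5 (by decide) (by decide) (by decide) (by decide) (by decide) (by decide) (by decide) (by decide) (hd _ _ _ _ (by decide) (by decide) (by decide) (by decide) (by decide) (by decide))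
  rw [show beta ((1 : Fin 6)) 4 2 5 = 1 from by decide] at h15
  have h16 := hm 1 5 2 3 (by decide) (by decide) (by decide) (by decide) (by decide) (by decide) (by decide) (by decide) (hd _ _ _ _ (by decide) (by decide) (by decide) (by decide) (by decide) (by decide))
  rw [show beta ((1 : Fin 6)) 5 2 3 = 0 from by decide] at h16
  have h17 := hm 1 5 2 4 (by decide) (by decide) (by decide) (by decide) (by decide) (by decide) (by decide) (by decide) (hd _ _ _ _ (by decide) (by decide) (by decide) (by decide) (by decide) (by decide))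
  rw [show beta ((1 : Fin 6)) 5 2 4 = 0 from by decide] at h17
  have two : (2 : ZMod 2) = 0 := rfl
  have one : (1 : ZMod 2) = 0 := by
    linear_combination h0 + h1 + h2 + h3 + h4 + h5 + h6 + h7 + h8 + h9 + h10 + h11 + h12 + h13 + h14 + h15 + h16 + h17 + (m 0 3 1 + m 0 3 2 + m 0 3 4 + m 0 3 5 + m 0 4 1 + m 0 4 2 + m 0 4 3 + m 0 4 5 + m 0 5 1 + m 0 5 2 + m 0 5 3 + m 0 5 4 + m 1 3 0 + m 1 3 2 + m 1 3 4 + m 1 3 5 + m 1 4 0 + m 1 4 2 + m 1 4 3 + m 1 4 5 + m 1 5 0 + m 1 5 2 + m 1 5 3 + m 1 5 4 + m 2 3 0 + m 2 3 1 + m 2 3 4 + m 2 3 5 + m 2 4 0 + m 2 4 1 + m 2 4 3 + m 2 4 5 + m 2 5 0 + m 2 5 1 + m 2 5 3 + m 2 5 4 - 4) * two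
  exact one_ne_zero one

end Pool.Agent.Helper805.CHS.VK

namespace Pool.Agent.Helper805.CHS

/-- the drawing of the induced graph on `A` -/
def Drawn {V : Type} (G : SimpleGraph V) (p : V → ℂ) (γ : V → V → unitInterval → ℂ)
    (A : Set V) : Set ℂ :=
  {z | (∃ u ∈ A, z = p u) ∨ ∃ u ∈ A, ∃ v ∈ A, G.Adj u v ∧ ∃ t, z = γ u v t}

/-- a drawing with values in the complex plane -/
structure IsDrawing {V : Type} (G : SimpleGraph V) (p : V → ℂ) (γ : V → V → unitInterval → ℂ) :
    Prop where
  inj : Function.Injective p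
  cont : ∀ u v, G.Adj u v → Continuous (γ u v)
  zero : ∀ u v, G.Adj u v → γ u v 0 = p u
  one : ∀ u v, G.Adj u v → γ u v 1 = p v
  pts : ∀ u v, G.Adj u v → ∀ z t, γ u v t = p z → z = u ∨ z = v
  cross : ∀ u v w x, G.Adj u v → G.Adj w x → u ≠ w → u ≠ x → v ≠ w → v ≠ x →
    ∀ t s, γ u v t = γ w x s → (γ u v t = p u ∨ γ u v t = p v)

lemma Drawn.mono {V : Type} (G : SimpleGraph V) (p : V → ℂ) (γ : V → V → unitInterval → ℂ)
    {A B : Set V} (h : A ⊆ B) : Drawn G p γ A ⊆ Drawn G p γ B := by
  rintro z (⟨u, hu, rfl⟩ | ⟨u, hu, v, hv, hadj, t, rfl⟩)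
  · exact Or.inl ⟨u, h hu, rfl⟩
  · exact Or.inr ⟨u, h hu, v, h hv, hadj, t, rfl⟩

lemma Drawn.disjoint {V : Type} {G : SimpleGraph V} {p : V → ℂ} {γ : V → V → unitInterval → ℂ}
    (hD : IsDrawing G p γ) {A B : Set V} (h : Disjoint A B) :
    Disjoint (Drawn G p γ A) (Drawn G p γ B) := by
  rw [Set.disjoint_left]
  have hAB : ∀ u, u ∈ A → u ∉ B := fun u hu => Set.disjoint_left.mp h hu
  rintro z (⟨u, hu, rfl⟩ | ⟨u, hu, v, hv, hadj, t, rfl⟩) (⟨w, hw, he⟩ | ⟨w, hw, x, hx, hadj', s, he⟩)
  · exact hAB u hu (hD.inj he ▸ hw)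
  · rcases hD.pts w x hadj' u s he.symm with rfl | rfl
    · exact hAB _ hu hw
    · exact hAB _ hu hx
  · rcases hD.pts u v hadj w t he with rfl | rfl
    · exact hAB _ hu hw
    · exact hAB _ hv hw
  · have hne : ∀ a b, a ∈ A → b ∈ B → a ≠ b := by
      rintro a b ha hb rfl
      exact hAB _ ha hb
    rcases hD.cross u v w x hadj hadj' (hne _ _ hu hw) (hne _ _ hu hx) (hne _ _ hv hw)
      (hne _ _ hv hx) t s he with h1 | h1
    · rcases hD.pts w x hadj' u s (he ▸ h1) with rfl | rfl
      · exact hAB _ hu hw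
      · exact hAB _ hu hx
    · rcases hD.pts w x hadj' v s (he ▸ h1) with rfl | rfl
      · exact hAB _ hv hw
      · exact hAB _ hv hx

lemma Drawn.joined_adj {V : Type} {G : SimpleGraph V} {p : V → ℂ}
    {γ : V → V → unitInterval → ℂ} (hD : IsDrawing G p γ) {A : Set V} {u v : V} (hu : u ∈ A)
    (hv : v ∈ A) (hadj : G.Adj u v) : JoinedIn (Drawn G p γ A) (p u) (p v) :=
  ⟨⟨⟨γ u v, hD.cont u v hadj⟩, hD.zero u v hadj, hD.one u v hadj⟩,
    fun t => Or.inr ⟨u, hu, v, hv, hadj, t, rfl⟩⟩

lemma Drawn.joined {V : Type} {G : SimpleGraph V} {p : V → ℂ}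
    {γ : V → V → unitInterval → ℂ} (hD : IsDrawing G p γ) {A : Set V}
    (hA : (G.induce A).Connected) {u v : V} (hu : u ∈ A)
    (hv : v ∈ A) : JoinedIn (Drawn G p γ A) (p u) (p v) := by
  have key : ∀ (a b : A) (w : (G.induce A).Walk a b), JoinedIn (Drawn G p γ A) (p a) (p b) := by
    intro a b w
    induction w with
    | nil => exact JoinedIn.refl (Or.inl ⟨_, Subtype.property _, rfl⟩)
    | cons hadj _ ih =>
      exact (Drawn.joined_adj hD (Subtype.property _) (Subtype.property _) hadj).trans ih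
  obtain ⟨w⟩ := hA.preconnected ⟨u, hu⟩ ⟨v, hv⟩
  exact key _ _ w

lemma Drawn.joined_union {V : Type} {G : SimpleGraph V} {p : V → ℂ}
    {γ : V → V → unitInterval → ℂ} (hD : IsDrawing G p γ) {A B : Set V}
    (hA : (G.induce A).Connected) (hB : (G.induce B).Connected)
    (hAB : ∃ a ∈ A, ∃ b ∈ B, G.Adj a b) {u v : V} (hu : u ∈ A)
    (hv : v ∈ B) : JoinedIn (Drawn G p γ (A ∪ B)) (p u) (p v) := by
  obtain ⟨a, ha, b, hb, hadj⟩ := hAB
  exact (((Drawn.joined hD hA hu ha).mono (Drawn.mono G p γ Set.subset_union_left)).trans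
    (Drawn.joined_adj hD (Or.inl ha) (Or.inr hb) hadj)).trans
    ((Drawn.joined hD hB hb hv).mono (Drawn.mono G p γ Set.subset_union_right))

lemma no_K5Model {V : Type} {G : SimpleGraph V} {p : V → ℂ}
    {γ : V → V → unitInterval → ℂ} (hD : IsDrawing G p γ) : ¬ K5Model G := by
  rintro ⟨f, hc, hd, he⟩
  have hr : ∀ i, ∃ r, r ∈ f i := fun i => by
    obtain ⟨r⟩ := (hc i).nonempty
    exact ⟨r.1, r.2⟩
  choose r hr using hr
  refine VK.k5_joined (fun i => p (r i)) (fun i j => Drawn G p γ (f i ∪ f j)) ?_ ?_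
  · intro a b hab
    exact Drawn.joined_union hD (hc a) (hc b) (he a b hab.ne) (hr a) (hr b)
  · intro a b c d _ _ h1 h2 h3 h4
    refine Drawn.disjoint hD ?_
    rw [Set.disjoint_union_left, Set.disjoint_union_right, Set.disjoint_union_right]
    exact ⟨⟨hd _ _ h1, hd _ _ h2⟩, hd _ _ h3, hd _ _ h4⟩

lemma no_K33Model {V : Type} {G : SimpleGraph V} {p : V → ℂ}
    {γ : V → V → unitInterval → ℂ} (hD : IsDrawing G p γ) : ¬ K33Model G := by
  rintro ⟨f, g, hcf, hcg, hdf, hdg, hdfg, he⟩
  have hr : ∀ i, ∃ r, r ∈ f i := fun i => by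
    obtain ⟨r⟩ := (hcf i).nonempty
    exact ⟨r.1, r.2⟩
  choose r hr using hr
  have hs : ∀ i, ∃ r, r ∈ g i := fun i => by
    obtain ⟨r⟩ := (hcg i).nonempty
    exact ⟨r.1, r.2⟩
  choose s hs using hs
  -- the index maps
  let F : Fin 6 → Fin 3 := fun i => ⟨i.val % 3, Nat.mod_lt _ (by norm_num)⟩
  refine VK.k33_joined (fun i => if i < 3 then p (r (F i)) else p (s (F i)))
    (fun i j => Drawn G p γ (f (F i) ∪ g (F j))) ?_ ?_
  · intro a b ha hb
    have hb' : ¬ b < 3 := not_lt.mpr hb
    simp only [if_pos ha, if_neg hb']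
    exact Drawn.joined_union hD (hcf _) (hcg _) (he _ _) (hr _) (hs _)
  · intro a b c d ha hb hc hd' h1 h2
    refine Drawn.disjoint hD ?_
    have hF1 : F a ≠ F c := by
      intro h
      simp only [F, Fin.mk.injEq] at h
      omega
    have hF2 : F b ≠ F d := by
      intro h
      simp only [F, Fin.mk.injEq] at h
      omega
    rw [Set.disjoint_union_left, Set.disjoint_union_right, Set.disjoint_union_right]
    exact ⟨⟨hdf _ _ hF1, hdfg _ _⟩, (hdfg _ _).symm, hdg _ _ hF2⟩

theorem drawn_no_models (n : ℕ) (G : SimpleGraph (Fin n))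
    (h : ∃ p : Fin n → ℝ × ℝ, ∃ γ : Fin n → Fin n → unitInterval → ℝ × ℝ,
        Function.Injective p ∧
        (∀ u v, G.Adj u v →
          Continuous (γ u v) ∧ Function.Injective (γ u v) ∧
          γ u v 0 = p u ∧ γ u v 1 = p v ∧
          (∀ z t, γ u v t = p z → z = u ∨ z = v)) ∧
        (∀ u v w x, G.Adj u v → G.Adj w x →
          Sym2.mk (u, v) ≠ Sym2.mk (w, x) →
          ∀ t s, γ u v t = γ w x s → (γ u v t = p u ∨ γ u v t = p v))) :
    ¬ K5Model G ∧ ¬ K33Model G := by
  obtain ⟨p, γ, hp, h1, h2⟩ := h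
  let e := Complex.equivRealProdCLM.symm
  have hD : IsDrawing G (fun i => e (p i)) (fun u v t => e (γ u v t)) := by
    refine ⟨e.injective.comp hp, ?_, ?_, ?_, ?_, ?_⟩
    · intro u v huv
      exact e.continuous.comp (h1 u v huv).1
    · intro u v huv
      simp only [(h1 u v huv).2.2.1]
    · intro u v huv
      simp only [(h1 u v huv).2.2.2.1]
    · intro u v huv z t he
      exact (h1 u v huv).2.2.2.2 z t (e.injective he)
    · intro u v w x huv hwx hne _ _ _ t s he
      have hne' : Sym2.mk (u, v) ≠ Sym2.mk (w, x) := by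
        intro h
        have h' := congrFun h (u, v)
        rcases Sym2.eq_iff.mp h' with ⟨h1, _⟩ | ⟨_, h1⟩
        · exact hne (Prod.mk.inj h1).1
        · exact hne (Prod.mk.inj h1).1
      rcases h2 u v w x huv hwx hne' t s (e.injective he) with h | h
      · exact Or.inl (congrArg e h)
      · exact Or.inr (congrArg e h)
  exact ⟨no_K5Model hD, no_K33Model hD⟩

end Pool.Agent.Helper805.CHS

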