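import Pool.Agent.Helper805.CHS.Basic


namespace Pool.Agent.Helper805.CHS

open Finset Classical

theorem hub_conn_singleton {V : Type} (G : SimpleGraph V) (a : V) :
    (G.induce ({a} : Set V)).Connected := by
  haveI : Nonempty ({a} : Set V) := ⟨⟨a, rfl⟩⟩
  haveI : Subsingleton ({a} : Set V) := by
    constructor
    rintro ⟨x, hx⟩ ⟨y, hy⟩
    apply Subtype.ext
    exact (Set.mem_singleton_iff.mp hx).trans (Set.mem_singleton_iff.mp hy).symm
  constructor
  intro x y
  rw [Subsingleton.elim x y]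

theorem hub_conn_star {V : Type} (G : SimpleGraph V) (a : V) (I : Set V) (D : V → Set V)
    (hD : ∀ r ∈ I, (G.induce (D r)).Connected) (hadj : ∀ r ∈ I, ∃ x ∈ D r, G.Adj x a) :
    (G.induce ({a} ∪ ⋃ r ∈ I, D r)).Connected := by
  set S : Set V := {a} ∪ ⋃ r ∈ I, D r with hS
  have ha : a ∈ S := Or.inl rfl
  have key : ∀ v : S, (G.induce S).Reachable ⟨a, ha⟩ v := by
    rintro ⟨v, hv⟩
    rcases hv with hv | hv
    · rw [Set.mem_singleton_iff] at hv
      subst hv
      exact SimpleGraph.Reachable.refl _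
    · obtain ⟨r, hr, hvr⟩ := Set.mem_iUnion₂.mp hv
      obtain ⟨x, hx, hxa⟩ := hadj r hr
      have hsub : D r ⊆ S := fun y hy => Or.inr (Set.mem_iUnion₂.mpr ⟨r, hr, hy⟩)
      have h1 : (G.induce (D r)).Reachable ⟨x, hx⟩ ⟨v, hvr⟩ := (hD r hr).preconnected _ _
      have h2 : (G.induce S).Reachable ⟨x, hsub hx⟩ ⟨v, hsub hvr⟩ :=
        h1.map (G.induceHomOfLE hsub).toHom
      have h3 : (G.induce S).Adj ⟨a, ha⟩ ⟨x, hsub hx⟩ := by
        simp only [SimpleGraph.comap_adj, Function.Embedding.subtype_apply]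
        exact hxa.symm
      exact h3.reachable.trans h2
  haveI : Nonempty S := ⟨⟨a, ha⟩⟩
  constructor
  intro x y
  exact (key x).symm.trans (key y)

/-- Disjoint connected sets `D r` (`r ∈ Q`) outside `C`, each adjacent to at least three vertices
`T r ⊆ C`, in a graph without `K₃,₃` model all of whose minors are sparse: few sets and few
adjacencies. -/
theorem hub {V : Type} [Fintype V] (G : SimpleGraph V) (h33 : ¬ K33Model G)
    (hden : ∀ (ι : Type) [Fintype ι] (A : ι → Set V), (∀ i, (G.induce (A i)).Connected) →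
      (∀ i j, i ≠ j → Disjoint (A i) (A j)) → ∀ E : Finset (ι × ι),
      (∀ e ∈ E, e.1 ≠ e.2 ∧ ∃ a ∈ A e.1, ∃ b ∈ A e.2, G.Adj a b) → E.card ≤ 14 * Fintype.card ι)
    (C Q : Finset V) (D : V → Set V) (hconn : ∀ r ∈ Q, (G.induce (D r)).Connected)
    (hdisj : ∀ r ∈ Q, ∀ r' ∈ Q, r ≠ r' → Disjoint (D r) (D r'))
    (hC : ∀ r ∈ Q, ∀ x ∈ D r, x ∉ C) (T : V → Finset V)
    (hT : ∀ r ∈ Q, ∀ a ∈ T r, a ∈ C ∧ ∃ x ∈ D r, G.Adj x a)
    (h3 : ∀ r ∈ Q, 3 ≤ (T r).card) :
    Q.card ≤ 406 * C.card ∧ ∑ r ∈ Q, (T r).card ≤ 5698 * C.card := by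
  -- first claim implies the second
  have second : Q.card ≤ 406 * C.card → ∑ r ∈ Q, (T r).card ≤ 5698 * C.card := by
    intro hQ
    let A : {c // c ∈ C} ⊕ {r // r ∈ Q} → Set V := Sum.elim (fun c => {c.1}) (fun r => D r.1)
    let E : Finset (({c // c ∈ C} ⊕ {r // r ∈ Q}) × ({c // c ∈ C} ⊕ {r // r ∈ Q})) :=
      (Finset.univ : Finset ({c // c ∈ C} × {r // r ∈ Q})).filter (fun p => p.1.1 ∈ T p.2.1) |>.map
        ⟨fun p => (Sum.inl p.1, Sum.inr p.2), by
          intro p q h
          simp only [Prod.mk.injEq, Sum.inl.injEq, Sum.inr.injEq] at h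
          exact Prod.ext h.1 h.2⟩
    have hE := hden _ A (by
      rintro (c | r)
      · exact hub_conn_singleton G c.1
      · exact hconn r.1 r.2) (by
      rintro (c | r) (c' | r') hne
      · refine Set.disjoint_singleton.mpr fun h => hne ?_
        rw [Subtype.ext h]
      · refine Set.disjoint_singleton_left.mpr fun h => hC r'.1 r'.2 _ h c.2
      · refine Set.disjoint_singleton_right.mpr fun h => hC r.1 r.2 _ h c'.2
      · refine hdisj r.1 r.2 r'.1 r'.2 fun h => hne ?_
        rw [Subtype.ext h]) E (by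
      intro e he
      simp only [E, Finset.mem_map, Finset.mem_filter, Finset.mem_univ, true_and,
        Function.Embedding.coeFn_mk] at he
      obtain ⟨p, hp, rfl⟩ := he
      refine ⟨by simp, p.1.1, rfl, ?_⟩
      obtain ⟨_, x, hx, hxa⟩ := hT p.2.1 p.2.2 p.1.1 hp
      exact ⟨x, hx, hxa.symm⟩)
    have hcard : E.card = ∑ r ∈ Q, (T r).card := by
      rw [Finset.card_map]
      rw [Finset.card_eq_sum_card_fiberwise (f := fun p => p.2) (t := Finset.univ)
        (fun _ _ => Finset.mem_univ _)]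
      rw [← Finset.sum_attach Q]
      refine Finset.sum_congr rfl fun r _ => ?_
      refine Finset.card_bij (fun p _ => p.1.1) ?_ ?_ ?_
      · intro p hp
        simp only [Finset.mem_filter, Finset.mem_univ, true_and] at hp
        rw [← hp.2]; exact hp.1
      · intro p hp p' hp' h
        simp only [Finset.mem_filter, Finset.mem_univ, true_and] at hp hp'
        exact Prod.ext (Subtype.ext h) (hp.2.trans hp'.2.symm)
      · intro a ha
        exact ⟨(⟨a, (hT r.1 r.2 a ha).1⟩, r), by
          simp only [Finset.mem_filter, Finset.mem_univ, true_and]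
          exact ⟨ha, trivial⟩, rfl⟩
    rw [hcard] at hE
    simp only [Fintype.card_sum, Fintype.card_coe] at hE
    omega
  suffices first : Q.card ≤ 406 * C.card from ⟨first, second first⟩
  -- the maximal family of charged triples
  let PW : Finset (V × V × V) → Prop := fun W =>
    (∀ w ∈ W, w.1 ∈ Q ∧ w.2.1 ∈ T w.1 ∧ w.2.2 ∈ T w.1 ∧ w.2.1 ≠ w.2.2) ∧
    ∀ w ∈ W, ∀ w' ∈ W, w ≠ w' → w.1 ≠ w'.1 ∧ ¬ (w.2.1 = w'.2.1 ∧ w.2.2 = w'.2.2) ∧
      ¬ (w.2.1 = w'.2.2 ∧ w.2.2 = w'.2.1)
  obtain ⟨W, hW, hmax⟩ := Finset.exists_max_image (Finset.univ.filter PW) Finset.card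
    ⟨∅, by simp [PW]⟩
  rw [Finset.mem_filter] at hW
  obtain ⟨-, hW1, hW2⟩ := hW
  let F : V → V → Prop := fun a b => ∃ r, (r, a, b) ∈ W ∨ (r, b, a) ∈ W
  have Fsymm : ∀ a b, F a b → F b a := by
    rintro a b ⟨r, h | h⟩
    · exact ⟨r, Or.inr h⟩
    · exact ⟨r, Or.inl h⟩
  -- density of `F`
  have dens : ∀ X : Finset V, X ⊆ C →
      ((X ×ˢ X).filter (fun p => F p.1 p.2)).card ≤ 14 * X.card := by
    intro X hX
    let A : {x // x ∈ X} → Set V := fun a => {a.1} ∪ ⋃ r ∈ {r | ∃ b, (r, a.1, b) ∈ W}, D r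
    have hA := hden _ A (by
      intro a
      refine hub_conn_star G a.1 _ D ?_ ?_
      · rintro r ⟨b, hb⟩
        exact hconn r (hW1 _ hb).1
      · rintro r ⟨b, hb⟩
        exact (hT r (hW1 _ hb).1 a.1 (hW1 _ hb).2.1).2) (by
      intro a a' hne
      have hne' : a.1 ≠ a'.1 := fun h => hne (Subtype.ext h)
      rw [Set.disjoint_left]
      rintro x (hx | hx) (hx' | hx')
      · exact hne' ((Set.mem_singleton_iff.mp hx).symm.trans (Set.mem_singleton_iff.mp hx'))
      · obtain ⟨r, ⟨b, hb⟩, hr⟩ := Set.mem_iUnion₂.mp hx'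
        rw [Set.mem_singleton_iff] at hx
        refine hC r (hW1 _ hb).1 x hr ?_
        rw [hx]; exact hX a.2
      · obtain ⟨r, ⟨b, hb⟩, hr⟩ := Set.mem_iUnion₂.mp hx
        rw [Set.mem_singleton_iff] at hx'
        refine hC r (hW1 _ hb).1 x hr ?_
        rw [hx']; exact hX a'.2
      · obtain ⟨r, ⟨b, hb⟩, hr⟩ := Set.mem_iUnion₂.mp hx
        obtain ⟨r', ⟨b', hb'⟩, hr'⟩ := Set.mem_iUnion₂.mp hx'
        have hwne : ((r, a.1, b) : V × V × V) ≠ (r', a'.1, b') := by
          intro h
          simp only [Prod.mk.injEq] at h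
          exact hne' h.2.1
        have := (hW2 _ hb _ hb' hwne).1
        exact Set.disjoint_left.mp (hdisj r (hW1 _ hb).1 r' (hW1 _ hb').1 this) hr hr')
      ((Finset.univ : Finset ({x // x ∈ X} × {x // x ∈ X})).filter (fun p => F p.1.1 p.2.1)) (by
      rintro ⟨a, b⟩ he
      simp only [Finset.mem_filter, Finset.mem_univ, true_and] at he
      obtain ⟨r, h | h⟩ := he
      · refine ⟨fun hab => (hW1 _ h).2.2.2 (congrArg Subtype.val hab), ?_⟩
        obtain ⟨_, x, hx, hxb⟩ := hT r (hW1 _ h).1 b.1 (hW1 _ h).2.2.1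
        exact ⟨x, Or.inr (Set.mem_iUnion₂.mpr ⟨r, ⟨b.1, h⟩, hx⟩), b.1, Or.inl rfl, hxb⟩
      · refine ⟨fun hab => (hW1 _ h).2.2.2 (congrArg Subtype.val hab.symm), ?_⟩
        obtain ⟨_, x, hx, hxa⟩ := hT r (hW1 _ h).1 a.1 (hW1 _ h).2.2.1
        exact ⟨a.1, Or.inl rfl, x, Or.inr (Set.mem_iUnion₂.mpr ⟨r, ⟨a.1, h⟩, hx⟩), hxa.symm⟩)
    rw [Fintype.card_coe] at hA
    refine le_trans (le_of_eq ?_) hA
    symm
    refine Finset.card_bij (fun p _ => (p.1.1, p.2.1)) ?_ ?_ ?_
    · rintro ⟨a, b⟩ hp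
      simp only [Finset.mem_filter, Finset.mem_univ, true_and] at hp
      simp only [Finset.mem_filter, Finset.mem_product]
      exact ⟨⟨a.2, b.2⟩, hp⟩
    · rintro ⟨a, b⟩ hp ⟨a', b'⟩ hp' h
      simp only [Prod.mk.injEq] at h
      exact Prod.ext (Subtype.ext h.1) (Subtype.ext h.2)
    · rintro ⟨a, b⟩ hp
      simp only [Finset.mem_filter, Finset.mem_product] at hp
      exact ⟨(⟨a, hp.1.1⟩, ⟨b, hp.1.2⟩), by simpa using hp.2, rfl⟩
  have hWcard : W.card ≤ 14 * C.card := by
    refine le_trans (Finset.card_le_card_of_injOn (fun w => w.2) ?_ ?_) (dens C subset_rfl)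
    · rintro ⟨r, a, b⟩ hw
      have h1 := hW1 _ hw
      simp only [Finset.coe_filter, Set.mem_setOf_eq, Finset.mem_product]
      exact ⟨⟨(hT _ h1.1 _ h1.2.1).1, (hT _ h1.1 _ h1.2.2.1).1⟩, r, Or.inl hw⟩
    · intro w hw w' hw' h
      by_contra hne
      have h1 := (hW2 w hw w' hw' hne).2.1
      exact h1 ⟨congrArg Prod.fst h, congrArg Prod.snd h⟩
  -- the vertices of `Q` not used by `W`
  let Q' : Finset V := Q.filter (fun r => ∀ w ∈ W, w.1 ≠ r)
  have hQ'clique : ∀ r ∈ Q', ∀ a ∈ T r, ∀ b ∈ T r, a ≠ b → F a b := by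
    intro r hr a ha b hb hab
    rw [Finset.mem_filter] at hr
    by_contra hF
    have hnot : (r, a, b) ∉ W := fun h => hr.2 _ h rfl
    have hbig : PW (insert (r, a, b) W) := by
      constructor
      · intro w hw
        rcases Finset.mem_insert.mp hw with rfl | hw
        · exact ⟨hr.1, ha, hb, hab⟩
        · exact hW1 w hw
      · intro w hw w' hw' hne
        rcases Finset.mem_insert.mp hw with rfl | hw <;> rcases Finset.mem_insert.mp hw' with rfl | hw'
        · exact absurd rfl hne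
        · refine ⟨fun h => hr.2 w' hw' h.symm, fun h => hF ⟨w'.1, Or.inl ?_⟩,
            fun h => hF ⟨w'.1, Or.inr ?_⟩⟩
          · have h1 : a = w'.2.1 := h.1
            have h2 : b = w'.2.2 := h.2
            rw [h1, h2]; exact hw'
          · have h1 : a = w'.2.2 := h.1
            have h2 : b = w'.2.1 := h.2
            rw [h1, h2]; exact hw'
        · refine ⟨fun h => hr.2 w hw h, fun h => hF ⟨w.1, Or.inl ?_⟩,
            fun h => hF ⟨w.1, Or.inr ?_⟩⟩
          · have h1 : w.2.1 = a := h.1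
            have h2 : w.2.2 = b := h.2
            rw [← h1, ← h2]; exact hw
          · have h1 : w.2.1 = b := h.1
            have h2 : w.2.2 = a := h.2
            rw [← h1, ← h2]; exact hw
        · exact hW2 w hw w' hw' hne
    have h1 := hmax _ (Finset.mem_filter.mpr ⟨Finset.mem_univ _, hbig⟩)
    rw [Finset.card_insert_of_notMem hnot] at h1
    omega
  have ht : ∀ r : V, ∃ t : Finset V, r ∈ Q → t ⊆ T r ∧ t.card = 3 := by
    intro r
    by_cases hr : r ∈ Q
    · obtain ⟨t, h1, h2⟩ := Finset.exists_subset_card_eq (h3 r hr)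
      exact ⟨t, fun _ => ⟨h1, h2⟩⟩
    · exact ⟨∅, fun h => absurd h hr⟩
  choose t ht using ht
  have hQ'sub : ∀ r ∈ Q', r ∈ Q := fun r hr => (Finset.mem_filter.mp hr).1
  -- at most two members with the same triple
  have two : ∀ t0 : Finset V, (Q'.filter (fun r => t r = t0)).card ≤ 2 := by
    intro t0
    by_contra hcon
    push Not at hcon
    obtain ⟨s, hs, hs3⟩ := Finset.exists_subset_card_eq (show 3 ≤ (Q'.filter (fun r => t r = t0)).card from hcon)
    have hsQ : ∀ r ∈ s, r ∈ Q ∧ t r = t0 := by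
      intro r hr
      have := Finset.mem_filter.mp (hs hr)
      exact ⟨hQ'sub r this.1, this.2⟩
    have ht0 : t0.card = 3 := by
      have hne : s.Nonempty := by rw [← Finset.card_pos]; omega
      obtain ⟨r, hr⟩ := hne
      rw [← (hsQ r hr).2]
      exact (ht r (hsQ r hr).1).2
    let e := s.equivFinOfCardEq hs3
    let e' := t0.equivFinOfCardEq ht0
    apply h33
    refine ⟨fun i => {(e'.symm i).1}, fun i => D (e.symm i).1, fun i => hub_conn_singleton G _,
      fun i => hconn _ (hsQ _ (e.symm i).2).1, ?_, ?_, ?_, ?_⟩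
    · intro i j hij
      rw [Set.disjoint_singleton]
      intro h
      exact hij (e'.symm.injective (Subtype.ext h))
    · intro i j hij
      refine hdisj _ (hsQ _ (e.symm i).2).1 _ (hsQ _ (e.symm j).2).1 fun h => ?_
      exact hij (e.symm.injective (Subtype.ext h))
    · intro i j
      rw [Set.disjoint_singleton_left]
      intro h
      have h1 := hsQ _ (e.symm j).2
      refine hC _ h1.1 _ h ?_
      refine (hT _ h1.1 _ ((ht _ h1.1).1 ?_)).1
      rw [h1.2]
      exact (e'.symm i).2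
    · intro i j
      have h1 := hsQ _ (e.symm j).2
      obtain ⟨x, hx, hxa⟩ := (hT _ h1.1 (e'.symm i).1 ((ht _ h1.1).1 (by
        rw [h1.2]
        exact (e'.symm i).2))).2
      exact ⟨_, rfl, x, hx, hxa.symm⟩
  -- induction
  have ind : ∀ n : ℕ, ∀ X : Finset V, X.card = n → X ⊆ C → (Q'.filter (fun r => t r ⊆ X)).card ≤ 392 * n := by
    intro n
    induction n with
    | zero =>
      intro X hX _
      rw [Finset.card_eq_zero] at hX
      subst hX
      rw [Nat.mul_zero, Nat.le_zero, Finset.card_eq_zero, Finset.filter_eq_empty_iff]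
      intro r hr h
      have h1 := (ht r (hQ'sub r hr)).2
      rw [Finset.subset_empty.mp h] at h1
      simp at h1
    | succ n ih =>
      intro X hX hXC
      -- a vertex of small degree
      obtain ⟨a, ha, hdeg⟩ : ∃ a ∈ X, (X.filter (fun b => F a b)).card ≤ 14 := by
        by_contra hcon
        push Not at hcon
        have h1 := dens X hXC
        have h2 : ((X ×ˢ X).filter (fun p => F p.1 p.2)).card = ∑ a ∈ X, (X.filter (fun b => F a b)).card := by
          rw [Finset.card_filter, Finset.sum_product]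
          refine Finset.sum_congr rfl fun a _ => ?_
          rw [Finset.card_filter]
        have h3 : ∑ a ∈ X, 15 ≤ ∑ a ∈ X, (X.filter (fun b => F a b)).card :=
          Finset.sum_le_sum fun a ha => hcon a ha
        rw [Finset.sum_const, smul_eq_mul] at h3
        omega
      have hsplit : (Q'.filter (fun r => t r ⊆ X)) ⊆ (Q'.filter (fun r => t r ⊆ X.erase a)) ∪
          (Q'.filter (fun r => a ∈ t r ∧ t r ⊆ X)) := by
        intro r hr
        rw [Finset.mem_filter] at hr
        by_cases h : a ∈ t r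
        · exact Finset.mem_union_right _ (Finset.mem_filter.mpr ⟨hr.1, h, hr.2⟩)
        · exact Finset.mem_union_left _ (Finset.mem_filter.mpr ⟨hr.1, Finset.subset_erase.mpr ⟨hr.2, h⟩⟩)
      have h1 := ih (X.erase a) (by rw [Finset.card_erase_of_mem ha, hX]; rfl) ((Finset.erase_subset _ _).trans hXC)
      have h2 : (Q'.filter (fun r => a ∈ t r ∧ t r ⊆ X)).card ≤ 2 * 91 := by
        refine le_trans (Finset.card_le_mul_card_image (f := fun r => (t r).erase a) _ 2 ?_) ?_
        · intro u hu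
          refine le_trans (Finset.card_le_card ?_) (two (insert a u))
          intro r hr
          rw [Finset.mem_filter, Finset.mem_filter] at hr
          refine Finset.mem_filter.mpr ⟨hr.1.1, ?_⟩
          rw [← hr.2, Finset.insert_erase hr.1.2.1]
        · refine Nat.mul_le_mul_left 2 ?_
          have h4 : (Q'.filter (fun r => a ∈ t r ∧ t r ⊆ X)).image (fun r => (t r).erase a) ⊆
              (X.filter (fun b => F a b)).powersetCard 2 := by
            intro u hu
            obtain ⟨r, hr, rfl⟩ := Finset.mem_image.mp hu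
            rw [Finset.mem_filter] at hr
            have h5 := ht r (hQ'sub r hr.1)
            rw [Finset.mem_powersetCard]
            refine ⟨?_, ?_⟩
            · intro b hb
              rw [Finset.mem_erase] at hb
              rw [Finset.mem_filter]
              exact ⟨hr.2.2 hb.2, hQ'clique r hr.1 a (h5.1 hr.2.1) b (h5.1 hb.2) hb.1.symm⟩
            · rw [Finset.card_erase_of_mem hr.2.1, h5.2]
          refine le_trans (Finset.card_le_card h4) ?_
          rw [Finset.card_powersetCard]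
          exact le_trans (Nat.choose_le_choose 2 hdeg) (by decide)
      have h3 := Finset.card_le_card hsplit
      have h4 := Finset.card_union_le (Q'.filter (fun r => t r ⊆ X.erase a)) (Q'.filter (fun r => a ∈ t r ∧ t r ⊆ X))
      omega
  have hQ' : Q'.card ≤ 392 * C.card := by
    have h1 := ind C.card C rfl subset_rfl
    rwa [Finset.filter_true_of_mem] at h1
    intro r hr a ha
    have h5 := ht r (hQ'sub r hr)
    exact (hT r (hQ'sub r hr) a (h5.1 ha)).1
  have hQsplit : Q ⊆ Q' ∪ W.image (fun w => w.1) := by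
    intro r hr
    by_cases h : ∀ w ∈ W, w.1 ≠ r
    · exact Finset.mem_union_left _ (Finset.mem_filter.mpr ⟨hr, h⟩)
    · push Not at h
      obtain ⟨w, hw, hwr⟩ := h
      exact Finset.mem_union_right _ (Finset.mem_image.mpr ⟨w, hw, hwr⟩)
  have h1 := Finset.card_le_card hQsplit
  have h2 := Finset.card_union_le Q' (W.image (fun w => w.1))
  have h3 := Finset.card_image_le (s := W) (f := fun w => w.1)
  omega

end Pool.Agent.Helper805.CHS
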