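import Pool.Agent.Helper805.CHS.Colour

set_option linter.all false

namespace Pool.Agent.Helper805.CHS

open Finset Classical

section Stage

variable {V : Type} [Fintype V]

/-- the state of the construction: `C` is the set of vertices that are not yet ranked -/
structure St (G : SimpleGraph V) (B : Finset V) (c₀ s : ℕ) (C : Finset V) (i M : ℕ)
    (ρ : V → ℕ) (p : V → V) : Prop where
  hCB : C ⊆ B
  iM : i < M
  ρ_out : ∀ x, x ∉ B → ρ x = 0
  ρ_C : ∀ x ∈ C, ρ x = M
  ρ_rem : ∀ x ∈ B, x ∉ C → 0 < ρ x ∧ ρ x ≤ i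
  inj : ∀ x ∈ B, x ∉ C → ∀ y ∈ B, y ∉ C → ρ x = ρ y → x = y
  p_out : ∀ x, x ∉ B → p x = x
  p_invol : ∀ x, p (p x) = x
  pC : ∀ x ∈ C, p x ≠ x → p x ∉ C
  bad : ∀ v ∈ B, v ∉ C →
    (Finset.univ.filter (fun x => G.Adj v x ∧ ¬ Good G B ρ p v x)).card ≤ c₀
  P1 : ∀ v ∈ B, v ∉ C → ∀ z ∈ B, ρ v < ρ z → s ≤ (bond G B ρ p v z).card → p v ≠ v ∨ p z ≠ z
  P2 : ∀ v ∈ B, v ∉ C → ρ v < ρ (p v) → s ≤ (bond G B ρ p v (p v)).card

variable {G : SimpleGraph V} {B : Finset V} {c₀ s : ℕ} {C : Finset V} {i M : ℕ}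
  {ρ : V → ℕ} {p : V → V}

theorem St.notC (S : St G B c₀ s C i M ρ p) {x : V} : ρ x ≤ i ↔ x ∉ C := by
  constructor
  · intro h hx
    have := S.ρ_C x hx
    have := S.iM
    omega
  · intro h
    by_cases hB : x ∈ B
    · exact (S.ρ_rem x hB h).2
    · rw [S.ρ_out x hB]; omega

theorem St.pB (S : St G B c₀ s C i M ρ p) {x : V} (hx : x ∈ B) : p x ∈ B := by
  by_contra h
  have := S.p_out _ h
  rw [S.p_invol] at this
  exact h (this ▸ hx)

/-- neighbours in `C` of the cluster of `x` -/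
noncomputable def topC (G : SimpleGraph V) (C : Finset V) (p : V → V) (x : V) : Finset V :=
  C.filter (fun y => G.Adj x y ∨ G.Adj (p x) y)

/-- good with respect to the state -/
def GoodC (G : SimpleGraph V) (C : Finset V) (p : V → V) (x : V) : Prop :=
  x ∉ C ∧ p x ∉ C ∧ (topC G C p x).card ≤ 2

/-- parent relation between representatives -/
def Par (G : SimpleGraph V) (B C : Finset V) (ρ : V → ℕ) (p : V → V) (r q : V) : Prop :=
  r ∉ C ∧ p r ∉ C ∧ ρ (p r) ≤ ρ r ∧ q ∉ C ∧ p q ∉ C ∧ ρ (p q) < ρ q ∧ ρ r < ρ (p q) ∧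
    tops G B ρ p (ρ (p q)) r = {p q, q}

theorem Par.unique {r q₁ q₂ : V} (h₁ : Par G B C ρ p r q₁) (h₂ : Par G B C ρ p r q₂) : q₁ = q₂ := by
  obtain ⟨-, -, -, -, -, a1, a2, a3⟩ := h₁
  obtain ⟨-, -, -, -, -, b1, b2, b3⟩ := h₂
  have key : ∀ q₁ q₂ : V, ρ (p q₁) < ρ q₁ → ρ (p q₂) < ρ q₂ →
      tops G B ρ p (ρ (p q₁)) r = {p q₁, q₁} → tops G B ρ p (ρ (p q₂)) r = {p q₂, q₂} →
      ρ (p q₁) ≤ ρ (p q₂) → q₁ = q₂ := by
    intro q₁ q₂ a1 b1 a3 b3 h
    have hsub : tops G B ρ p (ρ (p q₂)) r ⊆ tops G B ρ p (ρ (p q₁)) r := by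
      intro y hy
      have := mem_tops.mp hy
      exact mem_tops.mpr ⟨this.1, h.trans this.2.1, this.2.2⟩
    rw [a3, b3] at hsub
    have h1 : q₂ ∈ ({p q₁, q₁} : Finset V) := hsub (by simp)
    have h2 : p q₂ ∈ ({p q₁, q₁} : Finset V) := hsub (by simp)
    rw [Finset.mem_insert, Finset.mem_singleton] at h1 h2
    rcases h1 with h1 | h1
    · rcases h2 with h2 | h2
      · rw [h2, h1] at b1; exact absurd b1 (lt_irrefl _)
      · rw [h2, h1] at b1; omega
    · exact h1.symm
  rcases le_total (ρ (p q₁)) (ρ (p q₂)) with h | h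
  · exact key q₁ q₂ a1 b1 a3 b3 h
  · exact (key q₂ q₁ b1 a1 b3 a3 h).symm

theorem Par.not_active (S : St G B c₀ s C i M ρ p) {r q : V} (h : Par G B C ρ p r q) :
    topC G C p r = ∅ := by
  obtain ⟨-, -, -, h4, h5, -, -, h8⟩ := h
  rw [Finset.eq_empty_iff_forall_notMem]
  intro u hu
  obtain ⟨huC, hadj⟩ := Finset.mem_filter.mp hu
  have hle : ρ (p q) ≤ ρ u := by
    have h1 := S.notC.mpr h5
    have h2 := S.ρ_C u huC
    have := S.iM
    omega
  have : u ∈ tops G B ρ p (ρ (p q)) r := mem_tops.mpr ⟨S.hCB huC, hle, hadj⟩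
  rw [h8, Finset.mem_insert, Finset.mem_singleton] at this
  rcases this with h | h
  · exact h5 (h ▸ huC)
  · exact h4 (h ▸ huC)

/-- descendants of a representative -/
def Desc (G : SimpleGraph V) (B C : Finset V) (ρ : V → ℕ) (p : V → V) (q : V) : Set V :=
  {x | x ∉ C ∧ p x ∉ C ∧ Relation.ReflTransGen (Par G B C ρ p) (rep ρ p x) q}

/-- walk inside a set -/
def RA (G : SimpleGraph V) (A : Set V) : V → V → Prop :=
  Relation.ReflTransGen (fun a b => G.Adj a b ∧ a ∈ A ∧ b ∈ A)

theorem RA.mono {A A' : Set V} (h : A ⊆ A') {x y : V} (hxy : RA G A x y) : RA G A' x y := by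
  induction hxy with
  | refl => exact Relation.ReflTransGen.refl
  | tail _ hbc ih => exact Relation.ReflTransGen.tail ih ⟨hbc.1, h hbc.2.1, h hbc.2.2⟩

theorem RA.symm {A : Set V} {x y : V} (hxy : RA G A x y) : RA G A y x := by
  induction hxy with
  | refl => exact Relation.ReflTransGen.refl
  | tail _ hbc ih => exact Relation.ReflTransGen.head ⟨hbc.1.symm, hbc.2.2, hbc.2.1⟩ ih

theorem RA.connected {A : Set V} {q : V} (hq : q ∈ A) (h : ∀ x ∈ A, RA G A x q) :
    (G.induce A).Connected := by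
  rw [SimpleGraph.connected_iff_exists_forall_reachable]
  refine ⟨⟨q, hq⟩, ?_⟩
  rintro ⟨x, hx⟩
  have key : ∀ y, RA G A q y → ∀ hy : y ∈ A, (G.induce A).Reachable ⟨q, hq⟩ ⟨y, hy⟩ := by
    intro y hy
    induction hy with
    | refl => intro _; exact SimpleGraph.Reachable.refl _
    | tail _ hbc ih =>
      intro hc
      obtain ⟨hadj, hb, _⟩ := hbc
      refine (ih hb).trans (SimpleGraph.Adj.reachable ?_)
      exact hadj
  exact key x (h x hx).symm hx

theorem St.rep_p (S : St G B c₀ s C i M ρ p) {x : V} (hx : x ∉ C) (hpx : p x ∉ C) :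
    rep ρ p (p x) = rep ρ p x := by
  by_cases hxB : x ∈ B
  · unfold rep
    rw [S.p_invol]
    rcases lt_trichotomy (ρ (p x)) (ρ x) with h | h | h
    · rw [if_neg (not_le.mpr h), if_pos h.le]
    · have := S.inj _ (S.pB hxB) hpx _ hxB hx h
      rw [if_pos h.ge, if_pos h.le, this]
    · rw [if_pos h.le, if_neg (not_le.mpr h)]
  · rw [S.p_out x hxB]

theorem Desc.trans {r q : V} (h : Relation.ReflTransGen (Par G B C ρ p) r q) :
    Desc G B C ρ p r ⊆ Desc G B C ρ p q := by
  rintro x ⟨h1, h2, h3⟩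
  exact ⟨h1, h2, h3.trans h⟩

theorem rep_eq_of {x : V} (h : ρ (p x) ≤ ρ x) : rep ρ p x = x := by
  unfold rep; rw [if_pos h]

/-- the two vertices of a finished cluster are joined inside the descendants -/
theorem St.join_pair (S : St G B c₀ s C i M ρ p) (hs : 0 < s) : ∀ (n : ℕ) (q : V), ρ q ≤ n →
    q ∉ C → p q ∉ C → ρ (p q) ≤ ρ q → RA G (Desc G B C ρ p q) q (p q) := by
  intro n
  induction n using Nat.strong_induction_on with
  | _ n ih =>
    intro q hqn hqC hpqC hle
    by_cases hpq : p q = q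
    · rw [hpq]; exact Relation.ReflTransGen.refl
    have hqB : q ∈ B := by
      by_contra h
      exact hpq (S.p_out q h)
    have hpB : p q ∈ B := S.pB hqB
    have hlt : ρ (p q) < ρ q := by
      rcases hle.lt_or_eq with h | h
      · exact h
      · exact absurd (S.inj _ hpB hpqC _ hqB hqC h) hpq
    have hb := S.P2 (p q) hpB hpqC (by rw [S.p_invol]; exact hlt)
    rw [S.p_invol] at hb
    obtain ⟨r, hr⟩ : (bond G B ρ p (p q) q).Nonempty := Finset.card_pos.mp (by omega)
    obtain ⟨-, h1, h2, h3⟩ := Finset.mem_filter.mp hr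
    have hi : ρ (p q) ≤ i := S.notC.mpr hpqC
    have hrC : r ∉ C := S.notC.mp (by omega)
    have hprC : p r ∉ C := S.notC.mp (by omega)
    have hpar : Par G B C ρ p r q := ⟨hrC, hprC, h2, hqC, hpqC, hlt, h1, h3⟩
    have hrep : rep ρ p q = q := rep_eq_of hle
    have hrepr : rep ρ p r = r := rep_eq_of h2
    have hqD : q ∈ Desc G B C ρ p q := ⟨hqC, hpqC, by rw [hrep]⟩
    have hpqD : p q ∈ Desc G B C ρ p q :=
      ⟨hpqC, by rw [S.p_invol]; exact hqC, by rw [S.rep_p hqC hpqC, hrep]⟩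
    have hrD : r ∈ Desc G B C ρ p q :=
      ⟨hrC, hprC, by rw [hrepr]; exact Relation.ReflTransGen.single hpar⟩
    have hprD : p r ∈ Desc G B C ρ p q :=
      ⟨hprC, by rw [S.p_invol]; exact hrC, by
        rw [S.rep_p hrC hprC, hrepr]; exact Relation.ReflTransGen.single hpar⟩
    have hrr : RA G (Desc G B C ρ p q) r (p r) :=
      RA.mono (Desc.trans (Relation.ReflTransGen.single hpar))
        (ih (ρ r) (by omega) r le_rfl hrC hprC h2)
    have e1 : q ∈ tops G B ρ p (ρ (p q)) r := by rw [h3]; simp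
    have e2 : p q ∈ tops G B ρ p (ρ (p q)) r := by rw [h3]; simp
    have f1 : RA G (Desc G B C ρ p q) r q := by
      rcases (mem_tops.mp e1).2.2 with h | h
      · exact Relation.ReflTransGen.single ⟨h, hrD, hqD⟩
      · exact hrr.tail ⟨h, hprD, hqD⟩
    have f2 : RA G (Desc G B C ρ p q) r (p q) := by
      rcases (mem_tops.mp e2).2.2 with h | h
      · exact Relation.ReflTransGen.single ⟨h, hrD, hpqD⟩
      · exact hrr.tail ⟨h, hprD, hpqD⟩
    exact f1.symm.trans f2

theorem St.desc_connected (S : St G B c₀ s C i M ρ p) (hs : 0 < s) {q : V} (hqC : q ∉ C)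
    (hpqC : p q ∉ C) (hle : ρ (p q) ≤ ρ q) : (G.induce (Desc G B C ρ p q)).Connected := by
  have hrep : rep ρ p q = q := rep_eq_of hle
  refine RA.connected (q := q) ⟨hqC, hpqC, by rw [hrep]⟩ ?_
  have step : ∀ r, Relation.ReflTransGen (Par G B C ρ p) r q → RA G (Desc G B C ρ p q) r q := by
    intro r hr
    induction hr using Relation.ReflTransGen.head_induction_on with
    | refl => exact Relation.ReflTransGen.refl
    | head h' h ih =>
      rename_i a c
      refine Relation.ReflTransGen.trans ?_ ih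
      have hac := h'
      obtain ⟨k1, k2, k3, k4, k5, k6, k7, k8⟩ := h'
      have e1 : c ∈ tops G B ρ p (ρ (p c)) a := by rw [k8]; simp
      have hra : rep ρ p a = a := rep_eq_of k3
      have haD : a ∈ Desc G B C ρ p q :=
        ⟨k1, k2, by rw [hra]; exact Relation.ReflTransGen.head hac h⟩
      have hpaD : p a ∈ Desc G B C ρ p q :=
        ⟨k2, by rw [S.p_invol]; exact k1, by
          rw [S.rep_p k1 k2, hra]; exact Relation.ReflTransGen.head hac h⟩
      have hcD : c ∈ Desc G B C ρ p q :=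
        ⟨k4, k5, by rw [rep_eq_of k6.le]; exact h⟩
      rcases (mem_tops.mp e1).2.2 with h1 | h1
      · exact Relation.ReflTransGen.single ⟨h1, haD, hcD⟩
      · refine Relation.ReflTransGen.tail ?_ ⟨h1, hpaD, hcD⟩
        exact RA.mono (Desc.trans (Relation.ReflTransGen.head hac h))
          (S.join_pair hs (ρ a) a le_rfl k1 k2 k3)
  rintro x ⟨hx1, hx2, hx3⟩
  have h1 := step _ hx3
  rcases rep_or (ρ := ρ) (p := p) x with h | h
  · rw [h] at h1; exact h1
  · refine Relation.ReflTransGen.trans ?_ h1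
    rw [h]
    have hle' : ρ (p (p x)) ≤ ρ (p x) := by
      rw [S.p_invol]
      have := le_rep (ρ := ρ) (p := p) x
      rwa [h] at this
    have h2 := S.join_pair hs (ρ (p x)) (p x) le_rfl hx2 (by rw [S.p_invol]; exact hx1) hle'
    rw [S.p_invol] at h2
    refine (RA.mono (Desc.trans ?_) h2).symm
    rw [h] at hx3
    exact hx3

theorem St.desc_disjoint (S : St G B c₀ s C i M ρ p) {q₁ q₂ : V}
    (h₁ : (topC G C p q₁).Nonempty) (h₂ : (topC G C p q₂).Nonempty) (hne : q₁ ≠ q₂) :
    Disjoint (Desc G B C ρ p q₁) (Desc G B C ρ p q₂) := by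
  rw [Set.disjoint_left]
  rintro x ⟨-, -, hx1⟩ ⟨-, -, hx2⟩
  have hru : Relator.RightUnique (Par G B C ρ p) := fun a b c h1 h2 => Par.unique h1 h2
  have key : ∀ a b : V, (topC G C p a).Nonempty → Relation.ReflTransGen (Par G B C ρ p) a b →
      a = b := by
    intro a b ha hab
    rcases Relation.ReflTransGen.cases_head hab with h | ⟨c, hc, -⟩
    · exact h
    · have := Par.not_active S hc
      rw [this] at ha
      exact absurd ha (by simp)
  rcases Relation.ReflTransGen.total_of_right_unique hru hx1 hx2 with h | h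
  · exact hne (key _ _ h₁ h)
  · exact hne (key _ _ h₂ h).symm

end Stage

section Low

variable {V : Type} [Fintype V]
variable {G : SimpleGraph V} {B : Finset V} {c₀ s : ℕ} {C : Finset V} {i M : ℕ}
  {ρ : V → ℕ} {p : V → V}

theorem St.topC_p (S : St G B c₀ s C i M ρ p) (x : V) : topC G C p (p x) = topC G C p x := by
  ext y
  simp only [topC, Finset.mem_filter, S.p_invol]
  tauto

theorem St.rep_rank (S : St G B c₀ s C i M ρ p) (x : V) : ρ (p (rep ρ p x)) ≤ ρ (rep ρ p x) := by
  unfold rep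
  split_ifs with h
  · exact h
  · rw [S.p_invol]; exact (not_le.mp h).le

theorem St.exists_low (S : St G B c₀ s C i M ρ p) (hs : 0 < s) (d q₀ q₁ : ℕ)
    (hden : ∀ (ι : Type) [Fintype ι] (A : ι → Set V), (∀ i, (G.induce (A i)).Connected) →
      (∀ i j, i ≠ j → Disjoint (A i) (A j)) → ∀ E : Finset (ι × ι),
      (∀ e ∈ E, e.1 ≠ e.2 ∧ ∃ a ∈ A e.1, ∃ b ∈ A e.2, G.Adj a b) → E.card ≤ d * Fintype.card ι)
    (hhub : ∀ (C Q : Finset V) (D : V → Set V), (∀ r ∈ Q, (G.induce (D r)).Connected) →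
      (∀ r ∈ Q, ∀ r' ∈ Q, r ≠ r' → Disjoint (D r) (D r')) → (∀ r ∈ Q, ∀ x ∈ D r, x ∉ C) →
      ∀ T : V → Finset V, (∀ r ∈ Q, ∀ a ∈ T r, a ∈ C ∧ ∃ x ∈ D r, G.Adj x a) →
      (∀ r ∈ Q, 3 ≤ (T r).card) →
      Q.card ≤ q₀ * C.card ∧ ∑ r ∈ Q, (T r).card ≤ q₁ * C.card)
    (hC : C.Nonempty) :
    ∃ v ∈ C, (Finset.univ.filter (fun x => G.Adj v x ∧ ¬ GoodC G C p x)).card ≤
      2 * d + 2 * q₁ := by
  by_contra hcon
  push Not at hcon
  -- first part: neighbours in S0
  set S0 := C ∪ C.image p with hS0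
  have hS0c : S0.card ≤ 2 * C.card := by
    have h1 := Finset.card_union_le C (C.image p)
    have h2 := Finset.card_image_le (s := C) (f := p)
    rw [hS0]
    omega
  set X3 := Finset.univ.filter (fun x => x ∉ C ∧ p x ∉ C ∧ 3 ≤ (topC G C p x).card) with hX3
  have hcover : ∀ v ∈ C, (Finset.univ.filter (fun x => G.Adj v x ∧ ¬ GoodC G C p x)).card ≤
      (S0.filter (fun x => G.Adj v x)).card + (X3.filter (fun x => G.Adj v x)).card := by
    intro v _
    have hsub : Finset.univ.filter (fun x => G.Adj v x ∧ ¬ GoodC G C p x) ⊆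
        S0.filter (fun x => G.Adj v x) ∪ X3.filter (fun x => G.Adj v x) := by
      intro x hx
      obtain ⟨-, h1, h2⟩ := Finset.mem_filter.mp hx
      rw [Finset.mem_union]
      by_cases hxC : x ∈ C
      · left; exact Finset.mem_filter.mpr ⟨Finset.mem_union_left _ hxC, h1⟩
      · by_cases hpC : p x ∈ C
        · left
          refine Finset.mem_filter.mpr ⟨Finset.mem_union_right _ ?_, h1⟩
          rw [Finset.mem_image]
          exact ⟨p x, hpC, S.p_invol x⟩
        · right
          refine Finset.mem_filter.mpr ⟨Finset.mem_filter.mpr ⟨Finset.mem_univ _, hxC, hpC, ?_⟩, h1⟩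
          by_contra hc
          exact h2 ⟨hxC, hpC, by omega⟩
    exact (Finset.card_le_card hsub).trans (Finset.card_union_le _ _)
  -- bound of the first sum
  have hT1 : ∑ v ∈ C, (S0.filter (fun x => G.Adj v x)).card ≤ 2 * d * C.card := by
    let E : Finset (S0 × S0) := Finset.univ.filter (fun e => G.Adj e.1.1 e.2.1)
    have hE := hden S0 (fun x => {x.1}) (by
      intro x
      refine RA.connected (q := x.1) rfl ?_
      intro y hy
      rw [Set.mem_singleton_iff.mp hy]
      exact Relation.ReflTransGen.refl) (by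
      intro x y hxy
      rw [Set.disjoint_singleton]
      exact fun h => hxy (Subtype.ext h)) E (by
      intro e he
      have := (Finset.mem_filter.mp he).2
      exact ⟨fun h => G.ne_of_adj this (by rw [h]), e.1.1, rfl, e.2.1, rfl, this⟩)
    rw [Fintype.card_coe] at hE
    have h1 : ∑ v ∈ C, (S0.filter (fun x => G.Adj v x)).card ≤
        ∑ v ∈ S0, (S0.filter (fun x => G.Adj v x)).card :=
      Finset.sum_le_sum_of_subset (Finset.subset_union_left)
    have h2 : ∑ v ∈ S0, (S0.filter (fun x => G.Adj v x)).card = E.card := by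
      rw [← Finset.card_sigma]
      refine Finset.card_bij' (fun a ha => (⟨a.1, (Finset.mem_sigma.mp ha).1⟩,
        ⟨a.2, (Finset.mem_filter.mp (Finset.mem_sigma.mp ha).2).1⟩))
        (fun e _ => ⟨e.1.1, e.2.1⟩) ?_ ?_ ?_ ?_
      · intro a ha
        exact Finset.mem_filter.mpr ⟨Finset.mem_univ _,
          (Finset.mem_filter.mp (Finset.mem_sigma.mp ha).2).2⟩
      · intro e he
        rw [Finset.mem_sigma]
        exact ⟨e.1.2, Finset.mem_filter.mpr ⟨e.2.2, (Finset.mem_filter.mp he).2⟩⟩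
      · intro a ha; rfl
      · intro e he; rfl
    calc ∑ v ∈ C, (S0.filter (fun x => G.Adj v x)).card ≤ E.card := h1.trans h2.le
      _ ≤ d * S0.card := hE
      _ ≤ d * (2 * C.card) := Nat.mul_le_mul_left _ hS0c
      _ = 2 * d * C.card := by ring
  -- bound of the second sum
  set Q := Finset.univ.filter (fun r => r ∉ C ∧ p r ∉ C ∧ ρ (p r) ≤ ρ r ∧
    3 ≤ (topC G C p r).card) with hQ
  have hQmem : ∀ r ∈ Q, r ∉ C ∧ p r ∉ C ∧ ρ (p r) ≤ ρ r ∧ 3 ≤ (topC G C p r).card :=
    fun r hr => (Finset.mem_filter.mp hr).2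
  have hH := (hhub C Q (fun r => Desc G B C ρ p r)
    (fun r hr => S.desc_connected hs (hQmem r hr).1 (hQmem r hr).2.1 (hQmem r hr).2.2.1)
    (fun r hr r' hr' hne => S.desc_disjoint
      (Finset.card_pos.mp (by have := (hQmem r hr).2.2.2; omega))
      (Finset.card_pos.mp (by have := (hQmem r' hr').2.2.2; omega)) hne)
    (fun r _ x hx => hx.1) (fun r => topC G C p r) (by
      intro r hr a ha
      obtain ⟨k1, k2, k3, -⟩ := hQmem r hr
      obtain ⟨haC, hadj⟩ := Finset.mem_filter.mp ha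
      refine ⟨haC, ?_⟩
      have hrep : rep ρ p r = r := rep_eq_of k3
      rcases hadj with h | h
      · exact ⟨r, ⟨k1, k2, by rw [hrep]⟩, h⟩
      · exact ⟨p r, ⟨k2, by rw [S.p_invol]; exact k1, by rw [S.rep_p k1 k2, hrep]⟩, h⟩)
    (fun r hr => (hQmem r hr).2.2.2)).2
  have hT2 : ∑ v ∈ C, (X3.filter (fun x => G.Adj v x)).card ≤ 2 * q₁ * C.card := by
    have h1 : ∑ v ∈ C, (X3.filter (fun x => G.Adj v x)).card =
        ∑ x ∈ X3, (C.filter (fun v => G.Adj v x)).card :=
      Finset.sum_card_bipartiteAbove_eq_sum_card_bipartiteBelow (fun v x => G.Adj v x)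
    have h2 : ∑ x ∈ X3, (C.filter (fun v => G.Adj v x)).card ≤
        ∑ x ∈ X3, (topC G C p (rep ρ p x)).card := by
      refine Finset.sum_le_sum (fun x _ => ?_)
      have h3 : topC G C p (rep ρ p x) = topC G C p x := by
        rcases rep_or (ρ := ρ) (p := p) x with h | h
        · rw [h]
        · rw [h, S.topC_p]
      rw [h3]
      refine Finset.card_le_card ?_
      intro y hy
      obtain ⟨hyC, hya⟩ := Finset.mem_filter.mp hy
      exact Finset.mem_filter.mpr ⟨hyC, Or.inl hya.symm⟩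
    have h4 : ∑ x ∈ X3, (topC G C p (rep ρ p x)).card ≤ ∑ r ∈ Q, 2 * (topC G C p r).card := by
      rw [Finset.sum_comp (fun r => (topC G C p r).card) (rep ρ p)]
      have h5 : X3.image (rep ρ p) ⊆ Q := by
        intro r hr
        obtain ⟨x, hx, hxr⟩ := Finset.mem_image.mp hr
        obtain ⟨k1, k2, k3⟩ := (Finset.mem_filter.mp hx).2
        have hrank : ρ (p r) ≤ ρ r := by rw [← hxr]; exact S.rep_rank x
        refine Finset.mem_filter.mpr ⟨Finset.mem_univ _, ?_⟩
        rcases rep_or (ρ := ρ) (p := p) x with h | h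
        · rw [h] at hxr
          rw [← hxr] at hrank ⊢
          exact ⟨k1, k2, hrank, k3⟩
        · rw [h] at hxr
          rw [← hxr] at hrank ⊢
          exact ⟨k2, by rw [S.p_invol]; exact k1, hrank, by rw [S.topC_p]; exact k3⟩
      refine le_trans (Finset.sum_le_sum (fun r _ => ?_))
        (Finset.sum_le_sum_of_subset h5)
      rw [smul_eq_mul]
      refine Nat.mul_le_mul_right _ ?_
      have : X3.filter (fun x => rep ρ p x = r) ⊆ {r, p r} := by
        intro x hx
        have h := (Finset.mem_filter.mp hx).2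
        rcases rep_or (ρ := ρ) (p := p) x with h' | h'
        · rw [h'] at h; simp [h]
        · rw [h'] at h
          rw [← h, S.p_invol]; simp
      exact (Finset.card_le_card this).trans Finset.card_le_two
    rw [← Finset.mul_sum] at h4
    calc ∑ v ∈ C, (X3.filter (fun x => G.Adj v x)).card
        ≤ 2 * ∑ r ∈ Q, (topC G C p r).card := by rw [h1]; exact h2.trans h4
      _ ≤ 2 * (q₁ * C.card) := Nat.mul_le_mul_left _ hH
      _ = 2 * q₁ * C.card := by ring
  have hsum : ∑ v ∈ C, (2 * d + 2 * q₁) < ∑ v ∈ C,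
      (Finset.univ.filter (fun x => G.Adj v x ∧ ¬ GoodC G C p x)).card :=
    Finset.sum_lt_sum_of_nonempty hC hcon
  have hsum2 : ∑ v ∈ C, (Finset.univ.filter (fun x => G.Adj v x ∧ ¬ GoodC G C p x)).card ≤
      ∑ v ∈ C, (S0.filter (fun x => G.Adj v x)).card +
      ∑ v ∈ C, (X3.filter (fun x => G.Adj v x)).card := by
    rw [← Finset.sum_add_distrib]
    exact Finset.sum_le_sum hcover
  rw [Finset.sum_const, smul_eq_mul] at hsum
  nlinarith

end Low

section Step

variable {V : Type} [Fintype V]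
variable {G : SimpleGraph V} {B : Finset V} {c₀ s : ℕ} {C : Finset V} {i M : ℕ}
  {ρ ρ' : V → ℕ} {p p' : V → V}

/-- two data agree below the rank `m` -/
structure Agree (ρ ρ' : V → ℕ) (p p' : V → V) (m : ℕ) : Prop where
  a1 : ∀ x, ρ x < m → ρ' x = ρ x
  a2 : ∀ x, ρ x < m → p' x = p x
  a3 : ∀ x, m ≤ ρ x → m ≤ ρ' x

theorem Agree.lt_iff {m : ℕ} (A : Agree ρ ρ' p p' m) (x : V) : ρ' x < m ↔ ρ x < m := by
  constructor
  · intro h
    by_contra hc
    have := A.a3 x (not_lt.mp hc)
    omega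
  · intro h
    rw [A.a1 x h]; exact h

theorem Agree.tops {m : ℕ} (A : Agree ρ ρ' p p' m) {x : V} (hx : ρ x < m) :
    tops G B ρ' p' m x = tops G B ρ p m x := by
  ext y
  rw [mem_tops, mem_tops, A.a2 x hx]
  have : m ≤ ρ' y ↔ m ≤ ρ y := by
    have := A.lt_iff y
    omega
  rw [this]

theorem Agree.good {v : V} (A : Agree ρ ρ' p p' (ρ v)) (hv : ρ' v = ρ v) (x : V) :
    Good G B ρ' p' v x ↔ Good G B ρ p v x := by
  unfold Good
  rw [hv]
  by_cases hx : ρ x < ρ v
  · rw [A.lt_iff x, A.a2 x hx, A.lt_iff (p x), A.tops hx]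
  · have : ¬ ρ' x < ρ v := fun h => hx ((A.lt_iff x).mp h)
    simp [hx, this]

theorem Agree.bond {v z : V} (A : Agree ρ ρ' p p' (ρ v)) (hv : ρ' v = ρ v) :
    bond G B ρ' p' v z = bond G B ρ p v z := by
  ext r
  simp only [CHS.bond, Finset.mem_filter, Finset.mem_univ, true_and]
  rw [hv, A.lt_iff r]
  by_cases hr : ρ r < ρ v
  · rw [A.tops hr, A.a2 r hr, A.a1 r hr]
    have : ρ' (p r) ≤ ρ r ↔ ρ (p r) ≤ ρ r := by
      by_cases hp : ρ (p r) < ρ v
      · rw [A.a1 _ hp]
      · have := A.a3 (p r) (not_lt.mp hp)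
        omega
    rw [this]
  · simp [hr]

/-- one step of the construction -/
theorem St.step (S : St G B c₀ s C i M ρ p) (hM : i + 1 < M) {v : V} (hvC : v ∈ C)
    (hlow : (Finset.univ.filter (fun x => G.Adj v x ∧ ¬ GoodC G C p x)).card ≤ c₀) :
    ∃ ρ' p', St G B c₀ s (C.erase v) (i + 1) M ρ' p' := by
  have hvB : v ∈ B := S.hCB hvC
  have hρv : ρ v = M := S.ρ_C v hvC
  -- the bonds at v
  set bC : V → Finset V := fun z => Finset.univ.filter (fun r => r ∉ C ∧ ρ (p r) ≤ ρ r ∧
    topC G C p r = {v, z}) with hbC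
  -- choice of the new partner map
  obtain ⟨p', hp'1, hp'2, hp'3, hp'4, hp'5, hp'6⟩ : ∃ p' : V → V,
      (∀ x, x ∉ C → p' x = p x) ∧ (∀ x, p' (p' x) = x) ∧
      (∀ x, p x ≠ x → p' x ≠ x) ∧
      (∀ x ∈ C, x ≠ v → p' x ≠ x → p' x ∉ C.erase v) ∧
      (∀ z ∈ C, z ≠ v → s ≤ (bC z).card → p' v ≠ v ∨ p' z ≠ z) ∧
      (p' v ≠ v → p' v ∈ C → s ≤ (bC (p' v)).card) := by
    by_cases hex : p v = v ∧ ∃ z ∈ C, z ≠ v ∧ p z = z ∧ s ≤ (bC z).card
    · obtain ⟨hpv, z, hzC, hzv, hpz, hbz⟩ := hex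
      have hne1 : ∀ x, x ≠ v → p x ≠ v := by
        intro x hx h
        have h2 := S.p_invol x
        rw [h, hpv] at h2
        exact hx h2.symm
      have hne2 : ∀ x, x ≠ z → p x ≠ z := by
        intro x hx h
        have h2 := S.p_invol x
        rw [h, hpz] at h2
        exact hx h2.symm
      refine ⟨fun x => if x = v then z else if x = z then v else p x, ?_, ?_, ?_, ?_, ?_, ?_⟩
      · intro x hx
        have h1 : x ≠ v := fun h => hx (h ▸ hvC)
        have h2 : x ≠ z := fun h => hx (h ▸ hzC)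
        simp [h1, h2]
      · intro x
        by_cases h1 : x = v
        · simp [h1, hzv]
        · by_cases h2 : x = z
          · simp [h1, h2, hzv]
          · simp only [h1, h2, if_false]
            rw [if_neg (hne1 x h1), if_neg (hne2 x h2)]
            exact S.p_invol x
      · intro x hx
        by_cases h1 : x = v
        · rw [h1] at hx; exact absurd hpv hx
        · by_cases h2 : x = z
          · rw [h2] at hx; exact absurd hpz hx
          · simp only [h1, h2, if_false]; exact hx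
      · intro x hxC hxv hx
        by_cases h2 : x = z
        · simp only [hxv, h2, hzv, if_false, if_true]
          exact Finset.notMem_erase v C
        · simp only [hxv, h2, if_false] at hx ⊢
          intro h
          exact S.pC x hxC hx (Finset.mem_of_mem_erase h)
      · intro z' _ _ _
        left
        simp [hzv]
      · intro _ _
        simp only [if_true]
        exact hbz
    · refine ⟨p, fun _ _ => rfl, S.p_invol, fun _ h => h, ?_, ?_, ?_⟩
      · intro x hxC _ hx h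
        exact S.pC x hxC hx (Finset.mem_of_mem_erase h)
      · intro z hzC hzv hbz
        by_contra hcon
        push Not at hcon
        exact hex ⟨hcon.1, z, hzC, hzv, hcon.2, hbz⟩
      · intro h1 h2
        exact absurd h2 (S.pC v hvC h1)
  set ρ' : V → ℕ := fun x => if x = v then i + 1 else ρ x with hρ'
  have hρ'v : ρ' v = i + 1 := by simp [hρ']
  have hρ'ne : ∀ x, x ≠ v → ρ' x = ρ x := fun x hx => by simp [hρ', hx]
  -- agreement below old ranks
  have hAg : ∀ m, m ≤ i → Agree ρ ρ' p p' m := by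
    intro m hm
    refine ⟨?_, ?_, ?_⟩
    · intro x hx
      refine hρ'ne x ?_
      rintro rfl
      omega
    · intro x hx
      exact hp'1 x (S.notC.mp (by omega))
    · intro x hx
      by_cases h : x = v
      · rw [h, hρ'v]; omega
      · rw [hρ'ne x h]; exact hx
  have hremne : ∀ x, x ∉ C → x ≠ v := fun x hx h => hx (h ▸ hvC)
  -- rank facts for the new stage
  have hlt : ∀ x, ρ' x < i + 1 ↔ x ∉ C := by
    intro x
    by_cases h : x = v
    · rw [h, hρ'v]; simp [hvC]
    · rw [hρ'ne x h, ← S.notC]; omega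
  have hpmem : ∀ x ∈ B, p' x ∈ B := by
    intro x hx
    by_contra h
    have h1 : p' x ∉ C := fun h' => h (S.hCB h')
    have h2 := hp'1 _ h1
    rw [S.p_out _ h, hp'2] at h2
    exact h (h2 ▸ hx)
  have htops : ∀ x, x ∉ C → tops G B ρ' p' (i + 1) x = topC G C p x := by
    intro x hx
    ext y
    rw [mem_tops, topC, Finset.mem_filter, hp'1 x hx]
    have : (y ∈ B ∧ i + 1 ≤ ρ' y) ↔ y ∈ C := by
      constructor
      · rintro ⟨_, h⟩
        by_contra hc
        have := (hlt y).mpr hc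
        omega
      · intro h
        refine ⟨S.hCB h, ?_⟩
        by_contra hc
        exact ((hlt y).mp (not_le.mp hc)) h
    tauto
  have hgoodv : ∀ x, Good G B ρ' p' v x ↔ GoodC G C p x := by
    intro x
    unfold Good GoodC
    rw [hρ'v, hlt x]
    by_cases hx : x ∉ C
    · rw [hp'1 x hx, hlt (p x), htops x hx]
    · simp [hx]
  have hbondv : ∀ z, bond G B ρ' p' v z = bC z := by
    intro z
    ext r
    simp only [CHS.bond, hbC, Finset.mem_filter, Finset.mem_univ, true_and]
    rw [hρ'v, hlt r]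
    by_cases hr : r ∉ C
    · rw [hp'1 r hr, htops r hr, hρ'ne r (hremne r hr)]
      have : ρ' (p r) ≤ ρ r ↔ ρ (p r) ≤ ρ r := by
        have hri := S.notC.mpr hr
        by_cases hp : p r = v
        · rw [hp, hρ'v, hρv]; omega
        · rw [hρ'ne _ hp]
      rw [this]
    · simp [hr]
  refine ⟨ρ', p', ?_⟩
  constructor
  · exact (Finset.erase_subset _ _).trans S.hCB
  · exact hM
  · intro x hx
    rw [hρ'ne x (by rintro rfl; exact hx hvB)]
    exact S.ρ_out x hx
  · intro x hx
    rw [hρ'ne x (Finset.ne_of_mem_erase hx)]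
    exact S.ρ_C x (Finset.mem_of_mem_erase hx)
  · intro x hxB hx
    by_cases h : x = v
    · rw [h, hρ'v]; omega
    · rw [hρ'ne x h]
      have hxC : x ∉ C := fun h' => hx (Finset.mem_erase.mpr ⟨h, h'⟩)
      have := S.ρ_rem x hxB hxC
      omega
  · intro x hxB hx y hyB hy hxy
    have hC' : ∀ x, x ∉ C.erase v → x = v ∨ x ∉ C := by
      intro x hx
      by_cases h : x = v
      · exact Or.inl h
      · right; exact fun h' => hx (Finset.mem_erase.mpr ⟨h, h'⟩)
    rcases hC' x hx with h1 | h1 <;> rcases hC' y hy with h2 | h2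
    · rw [h1, h2]
    · rw [h1, hρ'v] at hxy
      have := (hlt y).mpr h2
      omega
    · rw [h2, hρ'v] at hxy
      have := (hlt x).mpr h1
      omega
    · rw [hρ'ne x (hremne x h1), hρ'ne y (hremne y h2)] at hxy
      exact S.inj x hxB h1 y hyB h2 hxy
  · intro x hx
    rw [hp'1 x (fun h => hx (S.hCB h))]
    exact S.p_out x hx
  · exact hp'2
  · intro x hx hpx
    exact hp'4 x (Finset.mem_of_mem_erase hx) (Finset.ne_of_mem_erase hx) hpx
  · -- bad
    intro y hyB hy
    by_cases h : y = v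
    · rw [h]
      simp only [hgoodv]
      exact hlow
    · have hyC : y ∉ C := fun h' => hy (Finset.mem_erase.mpr ⟨h, h'⟩)
      have hA := hAg (ρ y) (S.notC.mpr hyC)
      simp only [hA.good (hρ'ne y h)]
      exact S.bad y hyB hyC
  · -- P1
    intro y hyB hy z hzB hyz hb
    by_cases h : y = v
    · rw [h, hρ'v] at hyz
      have hzC : z ∈ C := by
        by_contra hc
        have := (hlt z).mpr hc
        omega
      have hzv : z ≠ v := by
        rintro rfl
        rw [hρ'v] at hyz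
        exact lt_irrefl _ hyz
      rw [h, hbondv] at hb
      rw [h]
      exact hp'5 z hzC hzv hb
    · have hyC : y ∉ C := fun h' => hy (Finset.mem_erase.mpr ⟨h, h'⟩)
      have hA := hAg (ρ y) (S.notC.mpr hyC)
      rw [hA.bond (hρ'ne y h)] at hb
      have hlt' : ρ y < ρ z := by
        rw [hρ'ne y h] at hyz
        by_cases hz : z = v
        · rw [hz, hρv]
          have := S.notC.mpr hyC
          omega
        · rw [hρ'ne z hz] at hyz; exact hyz
      rcases S.P1 y hyB hyC z hzB hlt' hb with h1 | h1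
      · left; exact hp'3 y h1
      · right; exact hp'3 z h1
  · -- P2
    intro y hyB hy hyp
    by_cases h : y = v
    · rw [h] at hyp ⊢
      rw [hρ'v] at hyp
      have hpC : p' v ∈ C := by
        by_contra hc
        have := (hlt (p' v)).mpr hc
        omega
      have hne : p' v ≠ v := by
        intro hc
        rw [hc, hρ'v] at hyp
        exact lt_irrefl _ hyp
      rw [hbondv]
      exact hp'6 hne hpC
    · have hyC : y ∉ C := fun h' => hy (Finset.mem_erase.mpr ⟨h, h'⟩)
      have hA := hAg (ρ y) (S.notC.mpr hyC)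
      rw [hA.bond (hρ'ne y h), hp'1 y hyC]
      rw [hp'1 y hyC, hρ'ne y h] at hyp
      apply S.P2 y hyB hyC
      by_cases hz : p y = v
      · rw [hz, hρv]
        have := S.notC.mpr hyC
        omega
      · rw [hρ'ne _ hz] at hyp; exact hyp

/-- existence of the layout -/
theorem exists_layout (G : SimpleGraph V) (B : Finset V) (s : ℕ) (hs : 0 < s) (d q₀ q₁ : ℕ)
    (hden : ∀ (ι : Type) [Fintype ι] (A : ι → Set V), (∀ i, (G.induce (A i)).Connected) →
      (∀ i j, i ≠ j → Disjoint (A i) (A j)) → ∀ E : Finset (ι × ι),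
      (∀ e ∈ E, e.1 ≠ e.2 ∧ ∃ a ∈ A e.1, ∃ b ∈ A e.2, G.Adj a b) → E.card ≤ d * Fintype.card ι)
    (hhub : ∀ (C Q : Finset V) (D : V → Set V), (∀ r ∈ Q, (G.induce (D r)).Connected) →
      (∀ r ∈ Q, ∀ r' ∈ Q, r ≠ r' → Disjoint (D r) (D r')) → (∀ r ∈ Q, ∀ x ∈ D r, x ∉ C) →
      ∀ T : V → Finset V, (∀ r ∈ Q, ∀ a ∈ T r, a ∈ C ∧ ∃ x ∈ D r, G.Adj x a) →
      (∀ r ∈ Q, 3 ≤ (T r).card) →
      Q.card ≤ q₀ * C.card ∧ ∑ r ∈ Q, (T r).card ≤ q₁ * C.card) :
    ∃ ρ : V → ℕ, ∃ p : V → V, Layout G B (2 * d + 2 * q₁) s ρ p := by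
  have key : ∀ (n : ℕ) (C : Finset V) (i : ℕ) (ρ : V → ℕ) (p : V → V), C.card = n →
      i + n < B.card + 1 → St G B (2 * d + 2 * q₁) s C i (B.card + 1) ρ p →
      ∃ i' ρ' p', St G B (2 * d + 2 * q₁) s ∅ i' (B.card + 1) ρ' p' := by
    intro n
    induction n with
    | zero =>
      intro C i ρ p hC _ S
      rw [Finset.card_eq_zero] at hC
      subst hC
      exact ⟨i, ρ, p, S⟩
    | succ n ih =>
      intro C i ρ p hC hi S
      obtain ⟨v, hvC, hv⟩ := S.exists_low hs d q₀ q₁ hden hhub (Finset.card_pos.mp (by omega))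
      obtain ⟨ρ', p', S'⟩ := S.step (by omega) hvC hv
      exact ih (C.erase v) (i + 1) ρ' p' (by rw [Finset.card_erase_of_mem hvC, hC]; rfl)
        (by omega) S'
  have S0 : St G B (2 * d + 2 * q₁) s B 0 (B.card + 1)
      (fun x => if x ∈ B then B.card + 1 else 0) id := by
    constructor
    · exact Finset.Subset.refl _
    · exact Nat.succ_pos _
    · intro x hx; simp [hx]
    · intro x hx; simp [hx]
    · intro x hx hx'; exact absurd hx hx'
    · intro x hx hx'; exact absurd hx hx'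
    · intro x _; rfl
    · intro x; rfl
    · intro x _ h; exact absurd rfl h
    · intro x hx hx'; exact absurd hx hx'
    · intro x hx hx'; exact absurd hx hx'
    · intro x hx hx'; exact absurd hx hx'
  obtain ⟨i, ρ, p, S⟩ := key B.card B 0 _ id rfl (by omega) S0
  refine ⟨ρ, p, ?_⟩
  have hn : ∀ x : V, x ∉ (∅ : Finset V) := fun x => Finset.notMem_empty x
  constructor
  · exact S.ρ_out
  · intro x hx; exact (S.ρ_rem x hx (hn x)).1
  · intro x hx y hy h; exact S.inj x hx (hn x) y hy (hn y) h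
  · exact S.p_out
  · exact S.p_invol
  · intro v hv; exact S.bad v hv (hn v)
  · intro v hv; exact S.P1 v hv (hn v)
  · intro v hv; exact S.P2 v hv (hn v)

end Step

end Pool.Agent.Helper805.CHS
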