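import Mathlib


namespace Pool.Agent.Helper805.CHS

open Filter Topology

theorem numeric_lim (C : ℝ) : ∃ t₀ : ℕ, ∀ t : ℕ, t₀ ≤ t →
    C * ((t : ℝ) ^ 10 * Real.exp (-((t : ℝ) / 2 ^ 20))) ≤ 1 := by
  have h1 := Real.tendsto_pow_mul_exp_neg_atTop_nhds_zero 10
  have h2 : Tendsto (fun t : ℕ => (t : ℝ) / 2 ^ 20) atTop atTop :=
    tendsto_natCast_atTop_atTop.atTop_div_const (by norm_num)
  have h3 := (h1.comp h2).const_mul (C * (2 ^ 20) ^ 10)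
  rw [mul_zero] at h3
  have h4 : ∀ᶠ t : ℕ in atTop, C * (2 ^ 20) ^ 10 *
      (((t : ℝ) / 2 ^ 20) ^ 10 * Real.exp (-((t : ℝ) / 2 ^ 20))) < 1 :=
    (h3.eventually (gt_mem_nhds (by norm_num : (0 : ℝ) < 1)))
  obtain ⟨t₀, ht₀⟩ := eventually_atTop.mp h4
  refine ⟨t₀, fun t ht => ?_⟩
  have h5 := ht₀ t ht
  have h6 : C * (2 ^ 20) ^ 10 * (((t : ℝ) / 2 ^ 20) ^ 10 * Real.exp (-((t : ℝ) / 2 ^ 20))) =
      C * ((t : ℝ) ^ 10 * Real.exp (-((t : ℝ) / 2 ^ 20))) := by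
    rw [div_pow]; field_simp
  rw [h6] at h5
  exact h5.le

theorem numeric (c₀ : ℕ) : ∃ k₀ : ℕ, ∀ k : ℕ, k₀ ≤ k → ∃ s : ℕ, 0 < s ∧ s ≤ k + 1 ∧
    4 * c₀ ≤ k + 1 ∧
    864 * ((k : ℝ) + 1) ^ 2 * (Real.exp (1 / 64 - (k + 1) / (128 * s)) +
      Real.exp (s * (c₀ + 2) / (512 * (k + 1)) - s ^ 2 / (32768 * (k + 1)))) ≤ 1 := by
  obtain ⟨t₀, ht₀⟩ := numeric_lim (864 * 2 ^ 10 * (Real.exp (1 / 64) + Real.exp (c₀ + 2)))
  refine ⟨max (4 * c₀) ((max t₀ 1) ^ 5), fun k hk => ?_⟩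
  have hk1 : 4 * c₀ ≤ k := le_trans (le_max_left _ _) hk
  have hk2 : (max t₀ 1) ^ 5 ≤ k := le_trans (le_max_right _ _) hk
  set t := Nat.findGreatest (fun t => t ^ 5 ≤ k + 1) (k + 1) with ht
  have hle : ∀ u : ℕ, u ≤ u ^ 5 := fun u => Nat.le_self_pow (by norm_num) u
  have htge : max t₀ 1 ≤ t := by
    apply Nat.le_findGreatest
    · exact (hle _).trans (hk2.trans (Nat.le_succ k))
    · exact hk2.trans (Nat.le_succ k)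
  have ht1 : 1 ≤ t := (le_max_right _ _).trans htge
  have htt0 : t₀ ≤ t := (le_max_left _ _).trans htge
  have hta : t ^ 5 ≤ k + 1 :=
    Nat.findGreatest_spec (P := fun t => t ^ 5 ≤ k + 1) (m := 1) (by omega) (by simp)
  have htb : k + 1 < (t + 1) ^ 5 := by
    by_contra hcon
    push Not at hcon
    have h1 : t + 1 ≤ t := by
      rw [ht]
      apply Nat.le_findGreatest
      · exact (hle _).trans hcon
      · exact hcon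
    omega
  have htc : (t + 1) ^ 5 ≤ 32 * t ^ 5 := by
    have : t + 1 ≤ 2 * t := by omega
    calc (t + 1) ^ 5 ≤ (2 * t) ^ 5 := Nat.pow_le_pow_left this 5
      _ = 32 * t ^ 5 := by ring
  have hs : t ^ 4 ≤ k + 1 := (Nat.pow_le_pow_right ht1 (by norm_num)).trans hta
  refine ⟨t ^ 4, by positivity, hs, by omega, ?_⟩
  have hT : (1 : ℝ) ≤ t := by exact_mod_cast ht1
  have hK1 : (t : ℝ) ^ 5 ≤ (k : ℝ) + 1 := by exact_mod_cast hta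
  have hK2 : (k : ℝ) + 1 ≤ 32 * (t : ℝ) ^ 5 := by exact_mod_cast (htb.le.trans htc)
  have hK0 : (0 : ℝ) < (k : ℝ) + 1 := by positivity
  have hT0 : (0 : ℝ) < t := by linarith
  have hs' : ((t ^ 4 : ℕ) : ℝ) ≤ (k : ℝ) + 1 := by exact_mod_cast hs
  push_cast at hs' ⊢
  have e1 : Real.exp (1 / 64 - ((k : ℝ) + 1) / (128 * (t : ℝ) ^ 4)) ≤
      Real.exp (1 / 64) * Real.exp (-((t : ℝ) / 2 ^ 20)) := by
    rw [← Real.exp_add]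
    apply Real.exp_le_exp.mpr
    have h1 : (t : ℝ) / 128 ≤ ((k : ℝ) + 1) / (128 * (t : ℝ) ^ 4) := by
      rw [div_le_div_iff₀ (by norm_num) (by positivity)]
      nlinarith [hK1]
    have h2 : (t : ℝ) / 2 ^ 20 ≤ (t : ℝ) / 128 := by
      apply div_le_div_of_nonneg_left hT0.le (by norm_num) (by norm_num)
    linarith
  have e2 : Real.exp ((t : ℝ) ^ 4 * ((c₀ : ℝ) + 2) / (512 * ((k : ℝ) + 1)) -
      ((t : ℝ) ^ 4) ^ 2 / (32768 * ((k : ℝ) + 1))) ≤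
      Real.exp (c₀ + 2) * Real.exp (-((t : ℝ) / 2 ^ 20)) := by
    rw [← Real.exp_add]
    apply Real.exp_le_exp.mpr
    have h1 : (t : ℝ) ^ 4 * ((c₀ : ℝ) + 2) / (512 * ((k : ℝ) + 1)) ≤ (c₀ : ℝ) + 2 := by
      rw [div_le_iff₀ (by positivity)]
      have : (0 : ℝ) ≤ (c₀ : ℝ) + 2 := by positivity
      nlinarith [mul_le_mul_of_nonneg_right hs' this]
    have h2 : (t : ℝ) / 2 ^ 20 ≤ ((t : ℝ) ^ 4) ^ 2 / (32768 * ((k : ℝ) + 1)) := by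
      rw [div_le_div_iff₀ (by norm_num) (by positivity)]
      have h3 : (t : ℝ) * (32768 * ((k : ℝ) + 1)) ≤ t * (32768 * (32 * (t : ℝ) ^ 5)) := by
        gcongr
      have h4 : (t : ℝ) * (32768 * (32 * (t : ℝ) ^ 5)) = 2 ^ 20 * (t : ℝ) ^ 6 := by ring
      have h5 : (t : ℝ) ^ 6 ≤ (t : ℝ) ^ 8 := pow_le_pow_right₀ hT (by norm_num)
      have h6 : ((t : ℝ) ^ 4) ^ 2 * 2 ^ 20 = 2 ^ 20 * (t : ℝ) ^ 8 := by ring
      rw [h6]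
      linarith
    linarith
  have e3 : ((k : ℝ) + 1) ^ 2 ≤ 2 ^ 10 * (t : ℝ) ^ 10 := by
    calc ((k : ℝ) + 1) ^ 2 ≤ (32 * (t : ℝ) ^ 5) ^ 2 := by gcongr
      _ = 2 ^ 10 * (t : ℝ) ^ 10 := by ring
  calc 864 * ((k : ℝ) + 1) ^ 2 * (Real.exp (1 / 64 - ((k : ℝ) + 1) / (128 * (t : ℝ) ^ 4)) +
        Real.exp ((t : ℝ) ^ 4 * ((c₀ : ℝ) + 2) / (512 * ((k : ℝ) + 1)) -
        ((t : ℝ) ^ 4) ^ 2 / (32768 * ((k : ℝ) + 1))))
      ≤ 864 * (2 ^ 10 * (t : ℝ) ^ 10) * (Real.exp (1 / 64) * Real.exp (-((t : ℝ) / 2 ^ 20)) +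
        Real.exp (c₀ + 2) * Real.exp (-((t : ℝ) / 2 ^ 20))) := by gcongr
    _ = 864 * 2 ^ 10 * (Real.exp (1 / 64) + Real.exp (c₀ + 2)) *
        ((t : ℝ) ^ 10 * Real.exp (-((t : ℝ) / 2 ^ 20))) := by ring
    _ ≤ 1 := ht₀ t htt0

end Pool.Agent.Helper805.CHS
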