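import Pool.Agent.Helper805.CHS.Layout
import Pool.Agent.Helper805.CHS.Drawn
import Pool.Agent.Helper805.CHS.Density
import Pool.Agent.Helper805.CHS.Hub
import Pool.Agent.Helper805.CHS.Numeric

namespace Pool.Agent.Helper805.CHS

open Finset Classical

/-- Graphs without models of `K₅` and `K₃,₃`. -/
theorem main : ∃ k₀ : ℕ, ∀ k : ℕ, k₀ ≤ k → ∀ (V : Type) [Fintype V] (G : SimpleGraph V),
    ¬ K5Model G → ¬ K33Model G →
    (∀ v, (Finset.univ.filter (fun x => G.Adj v x)).card ≤ 2 * k + 2) →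
    ∃ col : V → Bool, ∀ v,
      (Finset.univ.filter (fun x => G.Adj v x ∧ col x = col v)).card ≤ k := by
  obtain ⟨k₀, hk₀⟩ := numeric (2 * 14 + 2 * 5698)
  refine ⟨k₀, fun k hk V _ G h5 h33 hdeg => ?_⟩
  obtain ⟨s, hs0, hs1, hc, hnum⟩ := hk₀ k hk
  set B : Finset V := Finset.univ.filter
    (fun v => k + 1 ≤ (Finset.univ.filter (fun x => G.Adj v x)).card) with hB
  have hden : ∀ (ι : Type) [Fintype ι] (A : ι → Set V), (∀ i, (G.induce (A i)).Connected) →
      (∀ i j, i ≠ j → Disjoint (A i) (A j)) → ∀ E : Finset (ι × ι),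
      (∀ e ∈ E, e.1 ≠ e.2 ∧ ∃ a ∈ A e.1, ∃ b ∈ A e.2, G.Adj a b) →
      E.card ≤ 14 * Fintype.card ι :=
    fun ι _ A hc hd E hE => density G h5 A hc hd E hE
  obtain ⟨ρ, p, L⟩ := exists_layout G B s hs0 14 406 5698 hden
    (fun C Q D h1 h2 h3 T h4 h6 => hub G h33 hden C Q D h1 h2 h3 T h4 h6)
  refine colour L ?_ ?_ ?_ hc hs0 hs1 ?_
  · intro v; have := hdeg v; omega
  · intro v hv; exact (Finset.mem_filter.mp hv).2
  · intro v hv
    by_contra hcon
    exact hv (Finset.mem_filter.mpr ⟨Finset.mem_univ _, by omega⟩)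
  · exact hnum

end Pool.Agent.Helper805.CHS
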